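import Pool.Agent.H161R3.InvTour

set_option autoImplicit false

namespace Pool.Agent.H161R3.Inv

open Finset

open Classical in
/-- symmetric matrices whose tournament has small inversion number -/
noncomputable def Bad (n r : ℕ) : Finset (Sym2 (Fin n) → ZMod 2) :=
  Finset.univ.filter fun q => ∃ k ≤ r, k ∈ invSet (tourM (fun u v => q s(u, v)))

/-- decoding -/
def dec {n : ℕ} (p : (Fin n → Fin n) × (Fin n → ZMod 2) × (Sym2 (Fin n) → ZMod 2)) :
    Sym2 (Fin n) → ZMod 2 :=
  Sym2.lift ⟨fun u v => if u = v then p.2.1 u else p.2.2 s(u, v) + diff (fun w => (p.1 w).val) u v, by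
    intro u v
    by_cases h : u = v
    · subst h; rfl
    · have h' : ¬ v = u := fun e => h e.symm
      simp only [h, h', if_false]
      rw [Sym2.eq_swap]
      congr 1
      unfold diff
      have : ((u < v ∧ (p.1 v).val < (p.1 u).val) ∨ (v < u ∧ (p.1 u).val < (p.1 v).val)) ↔
        ((v < u ∧ (p.1 u).val < (p.1 v).val) ∨ (u < v ∧ (p.1 v).val < (p.1 u).val)) := or_comm
      simp only [this]⟩

lemma bad_sub (n r : ℕ) : Bad n r ⊆
    ((Finset.univ : Finset (Fin n → Fin n)) ×ˢ ((Finset.univ : Finset (Fin n → ZMod 2)) ×ˢ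
      LowSet n r)).image dec := by
  intro q hq
  simp only [Bad, Finset.mem_filter, Finset.mem_univ, true_and] at hq
  obtain ⟨k, hk, hmem⟩ := hq
  have hM : ∀ u v : Fin n, q s(u, v) = q s(v, u) := fun u v => by rw [Sym2.eq_swap]
  rw [mem_tourM_iff hM] at hmem
  obtain ⟨f, hf, N, hG, hN⟩ := hmem
  obtain ⟨g, hg⟩ := exists_rankfn f
  have hNs : ∀ u v, N u v = N v u := by
    obtain ⟨x, hx⟩ := hG
    intro u v
    rw [hx, hx]
    exact Finset.sum_congr rfl fun i _ => mul_comm _ _
  let m : Sym2 (Fin n) → ZMod 2 := Sym2.lift ⟨N, hNs⟩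
  have hm : ∀ u v, m s(u, v) = N u v := fun u v => rfl
  have hlow : m ∈ LowSet n r := low_of_G hk hG m hm
  rw [Finset.mem_image]
  refine ⟨(g, fun u => q s(u, u), m), ?_, ?_⟩
  · simp only [Finset.mem_product, Finset.mem_univ, true_and]
    exact hlow
  · funext s
    induction s using Sym2.ind with
    | _ u v =>
      show (if u = v then q s(u, u) else m s(u, v) + diff (fun w => (g w).val) u v) = q s(u, v)
      by_cases h : u = v
      · subst h; simp
      · rw [if_neg h, hm, hN u v h]
        have : diff (fun w => (g w).val) u v = diff f u v := by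
          unfold diff
          have h1 : (g v).val < (g u).val ↔ f v < f u := by rw [← hg]; rfl
          have h2 : (g u).val < (g v).val ↔ f u < f v := by rw [← hg]; rfl
          simp only [h1, h2]
        rw [this]
        have : ∀ p q : ZMod 2, p + q + q = p := by decide
        exact this _ _

lemma card_bad (n r : ℕ) (hr : r ≤ n) :
    (Bad n r).card ≤ n ^ n * (2 ^ n * (2 ^ n * 2 ^ ((n + 1).choose 2 - (n - r + 1).choose 2))) := by
  refine (Finset.card_le_card (bad_sub n r)).trans ?_
  refine Finset.card_image_le.trans ?_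
  rw [Finset.card_product, Finset.card_product, Finset.card_univ, Finset.card_univ,
    Fintype.card_fun, Fintype.card_fun, Fintype.card_fin, ZMod.card]
  exact Nat.mul_le_mul_left _ (Nat.mul_le_mul_left _ (card_LowSet n r hr))

/-- The staircase matrix. -/
def Smat (n : ℕ) : Matrix (Fin n) (Fin n) (ZMod 2) := fun i j => if j ≤ i then 1 else 0

lemma isLow_Smat (n : ℕ) : IsLow (Smat n) := by
  constructor
  · intro i; simp [Smat]
  · intro i j h; simp [Smat, not_le.2 h]

/-- The existence statement: two unit lower triangular matrices with product the staircase, both of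
whose tournaments have large inversion number. -/
theorem exists_good (n r : ℕ) (hr : r ≤ n)
    (hnum : 2 * (n ^ n * (2 ^ n * (2 ^ n * 2 ^ ((n + 1).choose 2 - (n - r + 1).choose 2)))) <
      2 ^ (n.choose 2)) :
    ∃ A B : Matrix (Fin n) (Fin n) (ZMod 2), A * B = Smat n ∧
      (∀ k ∈ invSet (tourM (fun u v => ∑ t, A u t * A v t)), r < k) ∧
      (∀ k ∈ invSet (tourM (fun u v => ∑ t, B t u * B t v)), r < k) := by
  classical
  have hsolve : ∀ e : LT n, ∃ B, IsLow B ∧ Lmat e * B = Smat n := fun e =>
    exists_solve (isLow_Lmat e) (isLow_Smat n)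
  choose K hK1 hK2 using hsolve
  -- the two maps
  let F1 : LT n → (Sym2 (Fin n) → ZMod 2) := fun e =>
    Sym2.lift ⟨fun u v => ∑ t, Lmat e u t * Lmat e v t, fun u v =>
      Finset.sum_congr rfl fun i _ => mul_comm _ _⟩
  let F2 : LT n → (Sym2 (Fin n) → ZMod 2) := fun e =>
    Sym2.lift ⟨fun u v => ∑ t, K e t u * K e t v, fun u v =>
      Finset.sum_congr rfl fun i _ => mul_comm _ _⟩
  have hF1 : Function.Injective F1 := by
    intro e e' h
    apply Lmat_injective
    refine inj_gram (isLow_Lmat e) (isLow_Lmat e') fun i j _ => ?_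
    exact congrFun h s(i, j)
  have hF2 : Function.Injective F2 := by
    intro e e' h
    have hKK : K e = K e' := inj_gram' (hK1 e) (hK1 e') fun i j _ => congrFun h s(i, j)
    apply Lmat_injective
    have h1 := hK2 e
    rw [hKK, ← hK2 e'] at h1
    exact (isUnit_of_isLow (hK1 e')).mul_right_cancel h1
  have hc1 : (Finset.univ.filter fun e => F1 e ∈ Bad n r).card ≤ (Bad n r).card :=
    Finset.card_le_card_of_injOn F1 (fun e he => by simpa using he) hF1.injOn
  have hc2 : (Finset.univ.filter fun e => F2 e ∈ Bad n r).card ≤ (Bad n r).card :=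
    Finset.card_le_card_of_injOn F2 (fun e he => by simpa using he) hF2.injOn
  have hb := card_bad n r hr
  have hex : ∃ e : LT n, F1 e ∉ Bad n r ∧ F2 e ∉ Bad n r := by
    by_contra hcon
    push Not at hcon
    have hcov : (Finset.univ : Finset (LT n)) ⊆ (Finset.univ.filter fun e => F1 e ∈ Bad n r) ∪
        (Finset.univ.filter fun e => F2 e ∈ Bad n r) := by
      intro e _
      rw [Finset.mem_union, Finset.mem_filter, Finset.mem_filter]
      by_cases h : F1 e ∈ Bad n r
      · exact Or.inl ⟨Finset.mem_univ _, h⟩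
      · exact Or.inr ⟨Finset.mem_univ _, hcon e h⟩
    have h1 := Finset.card_le_card hcov
    have h2 := Finset.card_union_le (Finset.univ.filter fun e => F1 e ∈ Bad n r)
      (Finset.univ.filter fun e => F2 e ∈ Bad n r)
    rw [Finset.card_univ, card_LT] at h1
    omega
  obtain ⟨e, h1, h2⟩ := hex
  refine ⟨Lmat e, K e, hK2 e, ?_, ?_⟩
  · intro k hk
    by_contra hle
    apply h1
    simp only [Bad, Finset.mem_filter, Finset.mem_univ, true_and]
    exact ⟨k, by omega, hk⟩
  · intro k hk
    by_contra hle
    apply h2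
    simp only [Bad, Finset.mem_filter, Finset.mem_univ, true_and]
    exact ⟨k, by omega, hk⟩

end Pool.Agent.H161R3.Inv
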