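import Mathlib

set_option autoImplicit false

namespace Pool.Agent.H161R3.Inv

open Finset

section key
variable {n : ℕ}

/-- the rows indexed by `I` span all rows of the symmetric matrix `m` -/
def Spans (I : Finset (Fin n)) (m : Sym2 (Fin n) → ZMod 2) : Prop :=
  ∀ j, ∃ c : Fin n → ZMod 2, ∀ k, m s(j, k) = ∑ i ∈ I, c i * m s(i, k)

lemma key_inj (I : Finset (Fin n)) (m m' : Sym2 (Fin n) → ZMod 2) (h : Spans I m) (h' : Spans I m')
    (e : ∀ i ∈ I, ∀ k, m s(i, k) = m' s(i, k)) : m = m' := by
  funext s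
  induction s using Sym2.ind with
  | _ j k =>
    obtain ⟨c, hc⟩ := h j
    obtain ⟨c', hc'⟩ := h' j
    -- the difference
    have hw : ∀ i' ∈ I, ∑ i ∈ I, (c i - c' i) * m s(i, i') = 0 := by
      intro i' hi'
      have h1 : m s(j, i') = m' s(j, i') := by
        rw [Sym2.eq_swap, e i' hi' j, Sym2.eq_swap]
      rw [hc, hc'] at h1
      have h2 : ∑ i ∈ I, c' i * m' s(i, i') = ∑ i ∈ I, c' i * m s(i, i') :=
        Finset.sum_congr rfl fun i hi => by rw [e i hi]
      rw [h2] at h1
      simp only [sub_mul, Finset.sum_sub_distrib, h1, sub_self]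
    have hw2 : ∀ k, ∑ i ∈ I, (c i - c' i) * m s(i, k) = 0 := by
      intro k
      obtain ⟨a, ha⟩ := h k
      calc ∑ i ∈ I, (c i - c' i) * m s(i, k)
          = ∑ i ∈ I, (c i - c' i) * ∑ i' ∈ I, a i' * m s(i', i) := by
            refine Finset.sum_congr rfl fun i _ => ?_
            rw [Sym2.eq_swap, ha]
        _ = ∑ i' ∈ I, a i' * ∑ i ∈ I, (c i - c' i) * m s(i, i') := by
            simp only [Finset.mul_sum]
            rw [Finset.sum_comm]
            refine Finset.sum_congr rfl fun i' _ => Finset.sum_congr rfl fun i _ => ?_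
            rw [Sym2.eq_swap (a := i) (b := i')]
            ring
        _ = 0 := by
            refine Finset.sum_eq_zero fun i' hi' => ?_
            rw [hw i' hi', mul_zero]
    rw [hc, hc']
    have h3 := hw2 k
    simp only [sub_mul, Finset.sum_sub_distrib] at h3
    rw [sub_eq_zero] at h3
    rw [h3]
    exact Finset.sum_congr rfl fun i hi => by rw [e i hi]

open Classical in
/-- symmetric matrices with at most `r` rows spanning everything -/
noncomputable def LowSet (n r : ℕ) : Finset (Sym2 (Fin n) → ZMod 2) :=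
  Finset.univ.filter fun m => ∃ I : Finset (Fin n), I.card ≤ r ∧ Spans I m

lemma card_W (I : Finset (Fin n)) (r : ℕ) (hI : I.card ≤ r) (hr : r ≤ n) :
    Fintype.card {s : Sym2 (Fin n) // ∃ i ∈ I, i ∈ s} ≤ (n + 1).choose 2 - (n - r + 1).choose 2 := by
  classical
  have h1 : Fintype.card {s : Sym2 (Fin n) // ∃ i ∈ I, i ∈ s} +
      Fintype.card {s : Sym2 (Fin n) // ¬ ∃ i ∈ I, i ∈ s} = Fintype.card (Sym2 (Fin n)) := by
    rw [Fintype.card_subtype_compl]
    have := Fintype.card_subtype_le (fun s : Sym2 (Fin n) => ∃ i ∈ I, i ∈ s)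
    omega
  have h2 : Fintype.card {s : Sym2 (Fin n) // ¬ ∃ i ∈ I, i ∈ s} = (Iᶜ.card + 1).choose 2 := by
    rw [← Finset.card_sym2, Fintype.card_subtype]
    congr 1
    ext s
    simp only [Finset.mem_filter, Finset.mem_univ, true_and, Finset.mem_sym2_iff,
      Finset.mem_compl]
    constructor
    · intro h a ha hai
      exact h ⟨a, hai, ha⟩
    · rintro h ⟨i, hi, his⟩
      exact h i his hi
  have h3 : Fintype.card (Sym2 (Fin n)) = (n + 1).choose 2 := by
    rw [Sym2.card]; simp
  have h4 : (n - r + 1).choose 2 ≤ (Iᶜ.card + 1).choose 2 := by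
    apply Nat.choose_le_choose
    rw [Finset.card_compl, Fintype.card_fin]
    omega
  omega

lemma card_LowSet (n r : ℕ) (hr : r ≤ n) :
    (LowSet n r).card ≤ 2 ^ n * 2 ^ ((n + 1).choose 2 - (n - r + 1).choose 2) := by
  classical
  have hsub : LowSet n r ⊆ ((Finset.univ : Finset (Finset (Fin n))).filter (fun I => I.card ≤ r)).biUnion
      (fun I => Finset.univ.filter fun m => Spans I m) := by
    intro m hm
    simp only [LowSet, Finset.mem_filter, Finset.mem_univ, true_and] at hm
    obtain ⟨I, hI, hs⟩ := hm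
    simp only [Finset.mem_biUnion, Finset.mem_filter, Finset.mem_univ, true_and]
    exact ⟨I, hI, hs⟩
  refine (Finset.card_le_card hsub).trans ?_
  refine (Finset.card_biUnion_le_card_mul _ _ (2 ^ ((n + 1).choose 2 - (n - r + 1).choose 2)) ?_).trans ?_
  · intro I hI
    simp only [Finset.mem_filter, Finset.mem_univ, true_and] at hI
    have h1 : (Finset.univ.filter fun m => Spans I m).card ≤
        Fintype.card ({s : Sym2 (Fin n) // ∃ i ∈ I, i ∈ s} → ZMod 2) := by
      rw [← Finset.card_univ]
      refine Finset.card_le_card_of_injOn (fun m s => m s.1) (fun _ _ => Finset.mem_coe.2 (Finset.mem_univ _)) ?_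
      intro m hm m' hm' e
      simp only [Finset.coe_filter, Finset.mem_univ, true_and, Set.mem_setOf_eq] at hm hm'
      refine key_inj I m m' hm hm' fun i hi k => ?_
      exact congrFun e ⟨s(i, k), i, hi, Sym2.mem_mk_left _ _⟩
    refine h1.trans ?_
    rw [Fintype.card_fun, ZMod.card]
    exact Nat.pow_le_pow_right (by norm_num) (card_W I r hI hr)
  · refine Nat.mul_le_mul_right _ ?_
    refine (Finset.card_filter_le _ _).trans ?_
    rw [Finset.card_univ, Fintype.card_finset, Fintype.card_fin]

end key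

end Pool.Agent.H161R3.Inv
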