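import Mathlib

set_option autoImplicit false

namespace Pool.Agent.H161R3.Inv

open Finset Matrix

variable {V : Type} [Fintype V] [DecidableEq V]

/-- `G k N`: the matrix `N` over the two-element field is a sum of `k` squares `x xᵀ`. -/
def G (k : ℕ) (N : V → V → ZMod 2) : Prop :=
  ∃ x : Fin k → V → ZMod 2, ∀ u v, N u v = ∑ i, x i u * x i v

omit [Fintype V] [DecidableEq V] in
lemma G_congr {k : ℕ} {N N' : V → V → ZMod 2} (h : G k N) (e : ∀ u v, N u v = N' u v) : G k N' := by
  obtain ⟨x, hx⟩ := h
  exact ⟨x, fun u v => by rw [← e, hx]⟩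

omit [Fintype V] [DecidableEq V] in
lemma G_succ {k : ℕ} {N : V → V → ZMod 2} (h : G k N) (a : V → ZMod 2) :
    G (k + 1) (fun u v => N u v + a u * a v) := by
  obtain ⟨x, hx⟩ := h
  refine ⟨Fin.cons a x, fun u v => ?_⟩
  rw [Fin.sum_univ_succ]
  simp [hx, add_comm]

omit [Fintype V] [DecidableEq V] in
lemma G_pred {k : ℕ} {N : V → V → ZMod 2} (h : G (k + 1) N) :
    ∃ a : V → ZMod 2, G k (fun u v => N u v + a u * a v) := by
  obtain ⟨x, hx⟩ := h
  refine ⟨x 0, fun i => x i.succ, fun u v => ?_⟩
  show N u v + x 0 u * x 0 v = _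
  rw [hx, Fin.sum_univ_succ]
  have : ∀ p q : ZMod 2, p + q + p = q := by decide
  exact this _ _

omit [Fintype V] [DecidableEq V] in
lemma G_zero (k : ℕ) : G k (fun (_ _ : V) => (0 : ZMod 2)) :=
  ⟨fun _ _ => 0, fun u v => by simp⟩

lemma zmod2_ne_zero {a : ZMod 2} (h : a ≠ 0) : a = 1 := by
  revert a; decide

lemma zmod2_ne_one {a : ZMod 2} (h : a ≠ 1) : a = 0 := by
  revert a; decide

/-- rank-one reduction -/
lemma rank_red1 (M : Matrix V V (ZMod 2)) (hM : M.IsSymm) (i : V) (hi : M i i = 1) :
    (Matrix.of fun u v => M u v + M u i * M v i).rank + 1 ≤ M.rank := by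
  set N : Matrix V V (ZMod 2) := Matrix.of fun u v => M u v + M u i * M v i with hN
  have key : ∀ v : V → ZMod 2, N.mulVec v = M.mulVec (v + (∑ j, M j i * v j) • (Pi.single i 1)) := by
    intro v
    ext u
    rw [Matrix.mulVec_add, Matrix.mulVec_smul]
    simp only [hN, Matrix.mulVec, dotProduct, Matrix.of_apply, Pi.add_apply, Pi.smul_apply,
      smul_eq_mul, Pi.single_apply, mul_ite, mul_one, mul_zero, Finset.sum_ite_eq', Finset.mem_univ,
      if_true]
    rw [Finset.sum_mul, ← Finset.sum_add_distrib]
    refine Finset.sum_congr rfl fun j _ => ?_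
    ring
  have hle : LinearMap.range N.mulVecLin ≤ LinearMap.range M.mulVecLin := by
    rintro _ ⟨v, rfl⟩
    refine ⟨_, (key v).symm⟩
  have hlt : LinearMap.range N.mulVecLin < LinearMap.range M.mulVecLin := by
    refine lt_of_le_of_ne hle fun heq => ?_
    have hmem : M.mulVecLin (Pi.single i 1) ∈ LinearMap.range N.mulVecLin := by
      rw [heq]; exact ⟨_, rfl⟩
    obtain ⟨v, hv⟩ := hmem
    have h1 := congrFun hv i
    simp only [Matrix.mulVecLin_apply, Matrix.mulVec, dotProduct, hN, Matrix.of_apply,
      Pi.single_apply, mul_ite, mul_one, mul_zero, Finset.sum_ite_eq', Finset.mem_univ, if_true,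
      hi, one_mul] at h1
    have h2 : ∑ x, (M i x + M x i) * v x = 0 := by
      refine Finset.sum_eq_zero fun x _ => ?_
      have : M i x = M x i := hM.apply x i
      rw [this]
      have : ∀ p q : ZMod 2, (p + p) * q = 0 := by decide
      exact this _ _
    rw [h2] at h1
    exact zero_ne_one h1
  have := Submodule.finrank_lt_finrank_of_lt hlt
  exact this

/-- rank-two reduction -/
lemma rank_red2 (M : Matrix V V (ZMod 2)) (hM : M.IsSymm) (i j : V) (hi : M i i = 0)
    (hij : M i j = 1) (hj : M j j = 0) :
    (Matrix.of fun u v => M u v + (M u i * M v j + M u j * M v i)).rank + 2 ≤ M.rank := by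
  set N : Matrix V V (ZMod 2) := Matrix.of fun u v => M u v + (M u i * M v j + M u j * M v i) with hN
  have hji : M j i = 1 := by rw [← hij]; exact hM.apply i j
  have key : ∀ v : V → ZMod 2, N.mulVec v = M.mulVec (v + ((∑ k, M k j * v k) • (Pi.single i 1) +
      (∑ k, M k i * v k) • (Pi.single j 1))) := by
    intro v
    ext u
    rw [Matrix.mulVec_add, Matrix.mulVec_add, Matrix.mulVec_smul, Matrix.mulVec_smul]
    simp only [hN, Matrix.mulVec, dotProduct, Matrix.of_apply, Pi.add_apply, Pi.smul_apply,
      smul_eq_mul, Pi.single_apply, mul_ite, mul_one, mul_zero, Finset.sum_ite_eq', Finset.mem_univ,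
      if_true]
    rw [Finset.sum_mul, Finset.sum_mul, ← Finset.sum_add_distrib, ← Finset.sum_add_distrib]
    refine Finset.sum_congr rfl fun k _ => ?_
    ring
  let P0 := LinearMap.range M.mulVecLin
  let P1 : Submodule (ZMod 2) (V → ZMod 2) := P0 ⊓ LinearMap.ker (LinearMap.proj (R := ZMod 2) (φ := fun _ : V => ZMod 2) i)
  let P2 : Submodule (ZMod 2) (V → ZMod 2) := P1 ⊓ LinearMap.ker (LinearMap.proj (R := ZMod 2) (φ := fun _ : V => ZMod 2) j)
  have hcol : ∀ k, M.mulVecLin (Pi.single k 1) = fun u => M u k := by
    intro k; ext u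
    simp [Matrix.mulVecLin_apply, Matrix.mulVec, dotProduct, Pi.single_apply]
  have h10 : P1 < P0 := by
    refine lt_of_le_of_ne inf_le_left fun heq => ?_
    have hmem : M.mulVecLin (Pi.single j 1) ∈ P1 := by rw [heq]; exact ⟨_, rfl⟩
    have := hmem.2
    rw [SetLike.mem_coe, LinearMap.mem_ker, hcol] at this
    simp [hij] at this
  have h21 : P2 < P1 := by
    refine lt_of_le_of_ne inf_le_left fun heq => ?_
    have hmem : M.mulVecLin (Pi.single i 1) ∈ P1 := by
      refine ⟨⟨_, rfl⟩, ?_⟩
      rw [SetLike.mem_coe, LinearMap.mem_ker, hcol]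
      simp [hi]
    rw [← heq] at hmem
    have := hmem.2
    rw [SetLike.mem_coe, LinearMap.mem_ker, hcol] at this
    simp [hji] at this
  have hle : LinearMap.range N.mulVecLin ≤ P2 := by
    rintro _ ⟨v, rfl⟩
    refine ⟨⟨⟨_, (key v).symm⟩, ?_⟩, ?_⟩
    · rw [SetLike.mem_coe, LinearMap.mem_ker]
      simp only [LinearMap.proj_apply, Matrix.mulVecLin_apply, Matrix.mulVec, dotProduct, hN,
        Matrix.of_apply, hi, hij]
      refine Finset.sum_eq_zero fun x _ => ?_
      have : M i x = M x i := hM.apply x i
      rw [this]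
      have : ∀ p q r : ZMod 2, (p + (0 * r + 1 * p)) * q = 0 := by decide
      exact this _ _ _
    · rw [SetLike.mem_coe, LinearMap.mem_ker]
      simp only [LinearMap.proj_apply, Matrix.mulVecLin_apply, Matrix.mulVec, dotProduct, hN,
        Matrix.of_apply, hj, hji]
      refine Finset.sum_eq_zero fun x _ => ?_
      have : M j x = M x j := hM.apply x j
      rw [this]
      have : ∀ p q r : ZMod 2, (p + (1 * p + 0 * r)) * q = 0 := by decide
      exact this _ _ _
  have h1 := Submodule.finrank_lt_finrank_of_lt h10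
  have h2 := Submodule.finrank_lt_finrank_of_lt h21
  have h3 := Submodule.finrank_mono hle
  have e1 : N.rank = Module.finrank (ZMod 2) (LinearMap.range N.mulVecLin) := rfl
  have e0 : M.rank = Module.finrank (ZMod 2) P0 := rfl
  omega

lemma rank_sq_le (a : V → ZMod 2) (N : Matrix V V (ZMod 2)) :
    (Matrix.of fun u v => N u v + a u * a v).rank ≤ N.rank + 1 := by
  have : (Matrix.of fun u v => N u v + a u * a v) = N + Matrix.vecMulVec a a := by
    ext u v; simp [Matrix.vecMulVec_apply]
  rw [this]
  have h1 := Matrix.rank_vecMulVec_le a a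
  have hle : LinearMap.range (N + Matrix.vecMulVec a a).mulVecLin ≤
      LinearMap.range N.mulVecLin ⊔ LinearMap.range (Matrix.vecMulVec a a).mulVecLin := by
    rw [Matrix.mulVecLin_add]
    rintro _ ⟨v, rfl⟩
    exact Submodule.add_mem_sup ⟨v, rfl⟩ ⟨v, rfl⟩
  have h2 := Submodule.finrank_mono hle
  have h3 := Submodule.finrank_add_le_finrank_add_finrank (LinearMap.range N.mulVecLin)
    (LinearMap.range (Matrix.vecMulVec a a).mulVecLin)
  have e1 : (N + Matrix.vecMulVec a a).rank = Module.finrank (ZMod 2)
    (LinearMap.range (N + Matrix.vecMulVec a a).mulVecLin) := rfl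
  have e2 : N.rank = Module.finrank (ZMod 2) (LinearMap.range N.mulVecLin) := rfl
  have e3 : (Matrix.vecMulVec a a).rank = Module.finrank (ZMod 2)
    (LinearMap.range (Matrix.vecMulVec a a).mulVecLin) := rfl
  omega

lemma eq_zero_of_rank_zero (N : Matrix V V (ZMod 2)) (h : N.rank = 0) : N = 0 := by
  have h1 : Module.finrank (ZMod 2) (LinearMap.range N.mulVecLin) = 0 := h
  rw [Submodule.finrank_eq_zero] at h1
  ext u v
  have h2 : N.mulVecLin (Pi.single v 1) ∈ LinearMap.range N.mulVecLin := ⟨_, rfl⟩
  rw [h1, Submodule.mem_bot] at h2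
  have h3 := congrFun h2 u
  simpa [Matrix.mulVec, dotProduct, Pi.single_apply] using h3

omit [Fintype V] [DecidableEq V] in
lemma case_hyp {s : ℕ} {M N : V → V → ZMod 2} {b c : V → ZMod 2} (h : G (2 * s + 1) N)
    (e : ∀ u v, M u v = N u v + (b u * c v + c u * b v)) : G (2 * (s + 1) + 1) M := by
  obtain ⟨y, hy⟩ := G_pred h
  have h3 := G_succ (G_succ (G_succ hy (fun u => y u + b u)) (fun u => y u + c u))
    (fun u => y u + b u + c u)
  refine G_congr h3 fun u v => ?_
  rw [e]
  have : ∀ n y y' b b' c c' : ZMod 2, n + y * y' + (y + b) * (y' + b') + (y + c) * (y' + c') +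
    (y + b + c) * (y' + b' + c') = n + (b * c' + c * b') := by decide
  exact this _ _ _ _ _ _ _

theorem gram_of_rank (s : ℕ) : ∀ M : Matrix V V (ZMod 2), M.IsSymm → M.rank ≤ 2 * s + 1 →
    G (2 * s + 1) M := by
  induction s with
  | zero =>
    intro M hM hr
    by_cases hd : ∃ i, M i i = 1
    · obtain ⟨i, hi⟩ := hd
      have h1 := rank_red1 M hM i hi
      have h0 := eq_zero_of_rank_zero _ (by omega : (Matrix.of fun u v => M u v + M u i * M v i).rank = 0)
      refine ⟨fun _ u => M u i, fun u v => ?_⟩
      have := congrFun (congrFun h0 u) v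
      simp only [Matrix.of_apply, Matrix.zero_apply] at this
      have h2 : ∀ p q : ZMod 2, p + q = 0 → p = q := by decide
      simpa using h2 _ _ this
    · push Not at hd
      by_cases h0 : ∀ u v, M u v = 0
      · exact G_congr (G_zero _) fun u v => (h0 u v).symm
      · push Not at h0
        obtain ⟨i, j, hij⟩ := h0
        have := rank_red2 M hM i j (zmod2_ne_one (hd i)) (zmod2_ne_zero hij) (zmod2_ne_one (hd j))
        omega
  | succ s ih =>
    intro M hM hr
    by_cases hd : ∃ i, M i i = 1
    · obtain ⟨i, hi⟩ := hd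
      have h1 := rank_red1 M hM i hi
      set M1 : Matrix V V (ZMod 2) := Matrix.of fun u v => M u v + M u i * M v i with hM1
      have hM1s : M1.IsSymm := by
        ext u v
        simp only [hM1, Matrix.transpose_apply, Matrix.of_apply]
        rw [hM.apply u v]; ring
      by_cases hd1 : ∃ j, M1 j j = 1
      · obtain ⟨j, hj⟩ := hd1
        have h2 := rank_red1 M1 hM1s j hj
        set M2 : Matrix V V (ZMod 2) := Matrix.of fun u v => M1 u v + M1 u j * M1 v j with hM2
        have hM2s : M2.IsSymm := by
          ext u v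
          simp only [hM2, Matrix.transpose_apply, Matrix.of_apply]
          rw [hM1s.apply u v]; ring
        have h3 := ih M2 hM2s (by omega)
        refine G_congr (G_succ (G_succ h3 (fun u => M1 u j)) (fun u => M u i)) fun u v => ?_
        simp only [hM2, Matrix.of_apply]
        have e : M1 u v = M u v + M u i * M v i := rfl
        rw [e]
        have : ∀ a b c : ZMod 2, a + b + c + c + b = a := by decide
        exact this _ _ _
      · push Not at hd1
        by_cases h0 : ∀ u v, M1 u v = 0
        · refine G_congr (G_succ (G_zero (2 * s + 1 + 1)) (fun u => M u i)) fun u v => ?_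
          have := h0 u v
          simp only [hM1, Matrix.of_apply] at this
          have h2 : ∀ p q : ZMod 2, p + q = 0 → 0 + q = p := by decide
          exact h2 _ _ this
        · push Not at h0
          obtain ⟨j, k, hjk⟩ := h0
          have h2 := rank_red2 M1 hM1s j k (zmod2_ne_one (hd1 j)) (zmod2_ne_zero hjk)
            (zmod2_ne_one (hd1 k))
          set N : Matrix V V (ZMod 2) := Matrix.of fun u v => M1 u v + (M1 u j * M1 v k + M1 u k * M1 v j) with hN
          have h3 := rank_sq_le (fun u => M u i) N
          set N' : Matrix V V (ZMod 2) := Matrix.of fun u v => N u v + M u i * M v i with hN'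
          have hN's : N'.IsSymm := by
            ext u v
            simp only [hN', hN, Matrix.transpose_apply, Matrix.of_apply]
            rw [hM1s.apply u v]; ring
          have h4 := ih N' hN's (by
            have : N'.rank ≤ N.rank + 1 := h3
            omega)
          refine case_hyp (b := fun u => M1 u j) (c := fun u => M1 u k) h4 fun u v => ?_
          simp only [hN', hN, Matrix.of_apply]
          have e : M1 u v = M u v + M u i * M v i := rfl
          rw [e]
          have : ∀ a b c : ZMod 2, a = a + b + c + b + c := by decide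
          exact this _ _ _
    · push Not at hd
      by_cases h0 : ∀ u v, M u v = 0
      · exact G_congr (G_zero _) fun u v => (h0 u v).symm
      · push Not at h0
        obtain ⟨j, k, hjk⟩ := h0
        have h2 := rank_red2 M hM j k (zmod2_ne_one (hd j)) (zmod2_ne_zero hjk)
          (zmod2_ne_one (hd k))
        set N : Matrix V V (ZMod 2) := Matrix.of fun u v => M u v + (M u j * M v k + M u k * M v j) with hN
        have hNs : N.IsSymm := by
          ext u v
          simp only [hN, Matrix.transpose_apply, Matrix.of_apply]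
          rw [hM.apply u v]; ring
        have h4 := ih N hNs (by omega)
        refine case_hyp (b := fun u => M u j) (c := fun u => M u k) h4 fun u v => ?_
        simp only [hN, Matrix.of_apply]
        have : ∀ a c : ZMod 2, a = a + c + c := by decide
        exact this _ _

end Pool.Agent.H161R3.Inv
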