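import Pool.Agent.H161R3.InvBad

set_option autoImplicit false

namespace Pool.Agent.H161R3.Inv

open Finset

/-- the dijoin -/
def dij {n m : ℕ} (D₁ : Fin n → Fin n → Prop) (D₂ : Fin m → Fin m → Prop) :
    Fin n ⊕ Fin m → Fin n ⊕ Fin m → Prop :=
  fun x y =>
        ((∃ a b, x = Sum.inl a ∧ y = Sum.inl b ∧ D₁ a b) ∨
         (∃ a b, x = Sum.inr a ∧ y = Sum.inr b ∧ D₂ a b) ∨
         (∃ a b, x = Sum.inl a ∧ y = Sum.inr b))

lemma dij_ll {n m : ℕ} (D₁ : Fin n → Fin n → Prop) (D₂ : Fin m → Fin m → Prop) (a b : Fin n) :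
    dij D₁ D₂ (Sum.inl a) (Sum.inl b) ↔ D₁ a b := by
  simp [dij]

lemma dij_rr {n m : ℕ} (D₁ : Fin n → Fin n → Prop) (D₂ : Fin m → Fin m → Prop) (a b : Fin m) :
    dij D₁ D₂ (Sum.inr a) (Sum.inr b) ↔ D₂ a b := by
  simp [dij]

lemma dij_lr {n m : ℕ} (D₁ : Fin n → Fin n → Prop) (D₂ : Fin m → Fin m → Prop) (a : Fin n)
    (b : Fin m) : dij D₁ D₂ (Sum.inl a) (Sum.inr b) ↔ True := by
  simp [dij]

lemma dij_rl {n m : ℕ} (D₁ : Fin n → Fin n → Prop) (D₂ : Fin m → Fin m → Prop) (a : Fin m)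
    (b : Fin n) : dij D₁ D₂ (Sum.inr a) (Sum.inl b) ↔ False := by
  simp [dij]

lemma isTour_dij {n m : ℕ} {D₁ : Fin n → Fin n → Prop} {D₂ : Fin m → Fin m → Prop}
    (h1 : IsTour D₁) (h2 : IsTour D₂) : IsTour (dij D₁ D₂) := by
  constructor
  · rintro (a | a)
    · rw [dij_ll]; exact h1.1 a
    · rw [dij_rr]; exact h2.1 a
  · rintro (a | a) (b | b) hne
    · rw [dij_ll, dij_ll]; exact h1.2 a b (fun e => hne (by rw [e]))
    · rw [dij_lr, dij_rl]; simp
    · rw [dij_lr, dij_rl]; simp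
    · rw [dij_rr, dij_rr]; exact h2.2 a b (fun e => hne (by rw [e]))

/-- interleaving order -/
def ford (n : ℕ) : Fin n ⊕ Fin n → ℕ
  | Sum.inl i => 2 * i.val + 1
  | Sum.inr j => 2 * j.val

lemma ford_inj (n : ℕ) : Function.Injective (ford n) := by
  rintro (a | a) (b | b) h
  · simp only [ford] at h
    congr 1; exact Fin.ext (by omega)
  · simp only [ford] at h; omega
  · simp only [ford] at h; omega
  · simp only [ford] at h
    congr 1; exact Fin.ext (by omega)

lemma tour_nat {n : ℕ} (M : Fin n → Fin n → ZMod 2) (hM : ∀ u v, M u v = M v u) (u v : Fin n)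
    (hne : u ≠ v) : M u v = 1 ↔ ((tourM M u v ∧ v < u) ∨ (tourM M v u ∧ u < v)) := by
  unfold tourM
  rw [hM v u]
  rcases lt_or_gt_of_ne hne with h | h
  · have h' : ¬ v < u := not_lt.2 h.le
    simp [h, h']
  · have h' : ¬ u < v := not_lt.2 h.le
    simp [h, h']

lemma join_mem {n : ℕ} (A B : Matrix (Fin n) (Fin n) (ZMod 2)) (hAB : A * B = Smat n)
    (a b : Fin n → ZMod 2) :
    n + 2 ∈ invSet (dij (tourM (fun u v => ∑ t, A u t * A v t + a u * a v))
      (tourM (fun u v => ∑ t, B t u * B t v + b u * b v))) := by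
  have hM1 : ∀ u v, (fun u v => ∑ t, A u t * A v t + a u * a v) u v =
      (fun u v => ∑ t, A u t * A v t + a u * a v) v u := by
    intro u v
    simp only
    congr 1
    · exact Finset.sum_congr rfl fun _ _ => mul_comm _ _
    · exact mul_comm _ _
  have hM2 : ∀ u v, (fun u v => ∑ t, B t u * B t v + b u * b v) u v =
      (fun u v => ∑ t, B t u * B t v + b u * b v) v u := by
    intro u v
    simp only
    congr 1
    · exact Finset.sum_congr rfl fun _ _ => mul_comm _ _
    · exact mul_comm _ _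
  have hG0 : G n (fun p q : Fin n ⊕ Fin n => ∑ t, Sum.elim (fun i => A i t) (fun j => B t j) p *
      Sum.elim (fun i => A i t) (fun j => B t j) q) := ⟨fun t => Sum.elim (fun i => A i t) (fun j => B t j),
      fun u v => rfl⟩
  have hG1 := G_succ (G_succ hG0 (Sum.elim a (fun _ => 0))) (Sum.elim (fun _ => 0) b)
  refine mem_of_rep (isTour_dij (isTour_tourM hM1) (isTour_tourM hM2)) (ford_inj n) hG1 ?_
  rintro (i | i) (j | j) hne
  · have hne' : i ≠ j := fun e => hne (by rw [e])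
    rw [dij_ll, dij_ll]
    have h1 := tour_nat _ hM1 i j hne'
    have e1 : (ford n (Sum.inl j) < ford n (Sum.inl i)) ↔ j < i := by
      simp only [ford, Fin.lt_def]; omega
    have e2 : (ford n (Sum.inl i) < ford n (Sum.inl j)) ↔ i < j := by
      simp only [ford, Fin.lt_def]; omega
    rw [e1, e2, ← h1]
    simp
  · rw [dij_lr, dij_rl]
    have e1 : (ford n (Sum.inr j) < ford n (Sum.inl i)) ↔ j ≤ i := by
      simp only [ford, Fin.le_def]; omega
    rw [e1]
    have h2 : ∑ t, A i t * B t j = Smat n i j := by rw [← hAB, Matrix.mul_apply]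
    simp only [Sum.elim_inl, Sum.elim_inr, mul_zero, zero_mul, add_zero, true_and, false_and, or_false]
    rw [h2]
    unfold Smat
    by_cases h : j ≤ i <;> simp [h]
  · rw [dij_lr, dij_rl]
    have e1 : (ford n (Sum.inr i) < ford n (Sum.inl j)) ↔ i ≤ j := by
      simp only [ford, Fin.le_def]; omega
    rw [e1]
    have h2 : ∑ t, B t i * A j t = Smat n j i := by
      rw [← hAB, Matrix.mul_apply]
      exact Finset.sum_congr rfl fun _ _ => mul_comm _ _
    simp only [Sum.elim_inl, Sum.elim_inr, mul_zero, zero_mul, add_zero, true_and, false_and, false_or]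
    rw [h2]
    unfold Smat
    by_cases h : i ≤ j <;> simp [h]
  · have hne' : i ≠ j := fun e => hne (by rw [e])
    rw [dij_rr, dij_rr]
    have h1 := tour_nat _ hM2 i j hne'
    have e1 : (ford n (Sum.inr j) < ford n (Sum.inr i)) ↔ j < i := by
      simp only [ford, Fin.lt_def]; omega
    have e2 : (ford n (Sum.inr i) < ford n (Sum.inr j)) ↔ i < j := by
      simp only [ford, Fin.lt_def]; omega
    rw [e1, e2, ← h1]
    simp

theorem main :
    ∃ (M₁ M₂ : Fin 128 → Fin 128 → ZMod 2), (∀ u v, M₁ u v = M₁ v u) ∧ (∀ u v, M₂ u v = M₂ v u) ∧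
      Even (sInf (invSet (tourM M₁))) ∧ Even (sInf (invSet (tourM M₂))) ∧
      sInf (invSet (dij (tourM M₁) (tourM M₂))) < sInf (invSet (tourM M₁)) + sInf (invSet (tourM M₂)) := by
  have hnum : 2 * (128 ^ 128 * (2 ^ 128 * (2 ^ 128 * 2 ^ ((128 + 1).choose 2 - (128 - 65 + 1).choose 2)))) <
      2 ^ ((128 : ℕ).choose 2) := by
    have e1 : (128 : ℕ) ^ 128 = 2 ^ 896 := by
      have h : (2 : ℕ) ^ (7 * 128) = (2 ^ 7) ^ 128 := pow_mul 2 7 128
      have h7 : (2 : ℕ) ^ 7 = 128 := by norm_num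
      rw [h7] at h
      exact h.symm
    have e2 : (128 + 1).choose 2 - (128 - 65 + 1).choose 2 = 6240 := by
      rw [Nat.choose_two_right, Nat.choose_two_right]
    have e3 : (128 : ℕ).choose 2 = 8128 := by
      rw [Nat.choose_two_right]
    rw [e1, e2, e3, ← pow_add, ← pow_add, ← pow_add, ← pow_succ']
    exact Nat.pow_lt_pow_right (by norm_num) (by norm_num)
  obtain ⟨A, B, hAB, hA, hB⟩ := exists_good 128 65 (by norm_num) hnum
  have hs1 : ∀ u v : Fin 128, ∑ t, A u t * A v t = ∑ t, A v t * A u t := fun u v =>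
    Finset.sum_congr rfl fun _ _ => mul_comm _ _
  have hs2 : ∀ u v : Fin 128, ∑ t, B t u * B t v = ∑ t, B t v * B t u := fun u v =>
    Finset.sum_congr rfl fun _ _ => mul_comm _ _
  have hb1 : 66 ≤ sInf (invSet (tourM (fun u v => ∑ t, A u t * A v t))) :=
    hA _ (Nat.sInf_mem (nonempty_invSet hs1))
  have hb2 : 66 ≤ sInf (invSet (tourM (fun u v => ∑ t, B t u * B t v))) :=
    hB _ (Nat.sInf_mem (nonempty_invSet hs2))
  obtain ⟨a, ha1, ha2⟩ := parity hs1 (by decide : Even 66) hb1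
  obtain ⟨b, hb1', hb2'⟩ := parity hs2 (by decide : Even 66) hb2
  refine ⟨_, _, ?_, ?_, ha1, hb1', ?_⟩
  · intro u v
    exact congrArg₂ (· + ·) (hs1 u v) (mul_comm _ _)
  · intro u v
    exact congrArg₂ (· + ·) (hs2 u v) (mul_comm _ _)
  · have := Nat.sInf_le (join_mem A B hAB a b)
    omega

end Pool.Agent.H161R3.Inv
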