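import Mathlib

set_option autoImplicit false

namespace Pool.Agent.H161R3.Inv

open Finset

/-- parameters of a unit lower triangular matrix -/
abbrev LT (n : ℕ) : Type := (i : Fin n) → (Fin i.val → ZMod 2)

/-- unit lower triangular matrix -/
def Lmat {n : ℕ} (e : LT n) : Matrix (Fin n) (Fin n) (ZMod 2) :=
  fun i j => if h : j.val < i.val then e i ⟨j.val, h⟩ else if i = j then 1 else 0

def IsLow {n : ℕ} (A : Matrix (Fin n) (Fin n) (ZMod 2)) : Prop :=
  (∀ i, A i i = 1) ∧ ∀ i j, i < j → A i j = 0

lemma isLow_Lmat {n : ℕ} (e : LT n) : IsLow (Lmat e) := by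
  constructor
  · intro i; simp [Lmat]
  · intro i j h
    have h' : ¬ j.val < i.val := by
      have : i.val < j.val := h
      omega
    simp [Lmat, h', ne_of_lt h]

lemma exists_Lmat {n : ℕ} (A : Matrix (Fin n) (Fin n) (ZMod 2)) (h : IsLow A) :
    ∃ e : LT n, Lmat e = A := by
  refine ⟨fun i j => A i ⟨j.val, by omega⟩, ?_⟩
  ext i j
  by_cases h1 : j.val < i.val
  · simp [Lmat, h1]
  · by_cases h2 : i = j
    · subst h2; simp [Lmat, h.1]
    · have : i < j := by
        have : i.val ≠ j.val := fun hh => h2 (Fin.ext hh)
        exact Fin.lt_def.2 (by omega)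
      simp [Lmat, h1, h2, h.2 i j this]

lemma Lmat_injective {n : ℕ} : Function.Injective (Lmat (n := n)) := by
  intro e e' h
  funext i j
  have := congrFun (congrFun h i) ⟨j.val, by omega⟩
  simpa [Lmat] using this

lemma card_LT (n : ℕ) : Fintype.card (LT n) = 2 ^ (n.choose 2) := by
  rw [Fintype.card_pi]
  simp only [Fintype.card_fun, ZMod.card, Fintype.card_fin]
  rw [Finset.prod_pow_eq_pow_sum, Fin.sum_univ_eq_sum_range (fun i => i) n, Finset.sum_range_id,
    Nat.choose_two_right]

lemma isLow_mul {n : ℕ} {A B : Matrix (Fin n) (Fin n) (ZMod 2)} (hA : IsLow A) (hB : IsLow B) :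
    IsLow (A * B) := by
  constructor
  · intro i
    rw [Matrix.mul_apply, Finset.sum_eq_single i]
    · rw [hA.1, hB.1, one_mul]
    · intro j _ hj
      rcases lt_or_gt_of_ne hj with h | h
      · rw [hB.2 j i h, mul_zero]
      · rw [hA.2 i j h, zero_mul]
    · intro h; exact absurd (Finset.mem_univ _) h
  · intro i j hij
    rw [Matrix.mul_apply]
    refine Finset.sum_eq_zero fun k _ => ?_
    rcases lt_or_ge i k with h | h
    · rw [hA.2 i k h, zero_mul]
    · rw [hB.2 k j (lt_of_le_of_lt h hij), mul_zero]

lemma isLow_one {n : ℕ} : IsLow (1 : Matrix (Fin n) (Fin n) (ZMod 2)) := by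
  constructor
  · intro i; simp
  · intro i j h; simp [Matrix.one_apply, ne_of_lt h]

lemma isLow_pow {n : ℕ} {A : Matrix (Fin n) (Fin n) (ZMod 2)} (hA : IsLow A) (k : ℕ) :
    IsLow (A ^ k) := by
  induction k with
  | zero => simpa using isLow_one
  | succ k ih => rw [pow_succ]; exact isLow_mul ih hA

lemma isUnit_of_isLow {n : ℕ} {A : Matrix (Fin n) (Fin n) (ZMod 2)} (hA : IsLow A) : IsUnit A := by
  rw [Matrix.isUnit_iff_isUnit_det]
  have : A.det = 1 := by
    rw [Matrix.det_of_lowerTriangular]
    · simp [hA.1]
    · intro i j h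
      exact hA.2 i j (by simpa using h)
  rw [this]; exact isUnit_one

/-- for unit lower triangular `A`, `S` there is a unit lower triangular `B` with `A * B = S`. -/
lemma exists_solve {n : ℕ} {A S : Matrix (Fin n) (Fin n) (ZMod 2)} (hA : IsLow A) (hS : IsLow S) :
    ∃ B, IsLow B ∧ A * B = S := by
  obtain ⟨u, hu⟩ := isUnit_of_isLow hA
  have ho : 0 < orderOf u := orderOf_pos u
  refine ⟨A ^ (orderOf u - 1) * S, isLow_mul (isLow_pow hA _) hS, ?_⟩
  rw [← mul_assoc, ← pow_succ', Nat.sub_add_cancel ho, ← hu, ← Units.val_pow_eq_pow_val,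
    pow_orderOf_eq_one]
  simp

/-- a unit lower triangular matrix is determined by the off-diagonal part of `A Aᵀ`. -/
lemma inj_gram {n : ℕ} {A B : Matrix (Fin n) (Fin n) (ZMod 2)} (hA : IsLow A) (hB : IsLow B)
    (h : ∀ i j, j < i → ∑ t, A i t * A j t = ∑ t, B i t * B j t) : A = B := by
  have key : ∀ m : ℕ, ∀ j : Fin n, j.val = m → ∀ i, j < i → A i j = B i j := by
    intro m
    induction m using Nat.strong_induction_on with
    | _ m ih =>
      intro j hj i hij
      have h1 := h i j hij
      have expand : ∀ C : Matrix (Fin n) (Fin n) (ZMod 2), IsLow C →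
          ∑ t, C i t * C j t = C i j + ∑ t ∈ Finset.univ.filter (fun t => t < j), C i t * C j t := by
        intro C hC
        rw [← Finset.sum_filter_add_sum_filter_not Finset.univ (fun t => t < j)]
        rw [add_comm]
        congr 1
        rw [Finset.sum_eq_single j]
        · rw [hC.1, mul_one]
        · intro t ht htj
          simp only [Finset.mem_filter, Finset.mem_univ, true_and, not_lt] at ht
          rw [hC.2 j t (lt_of_le_of_ne ht (Ne.symm htj)), mul_zero]
        · intro hh
          exact absurd (by simp) hh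
      rw [expand A hA, expand B hB] at h1
      have h2 : ∑ t ∈ Finset.univ.filter (fun t => t < j), A i t * A j t =
          ∑ t ∈ Finset.univ.filter (fun t => t < j), B i t * B j t := by
        refine Finset.sum_congr rfl fun t ht => ?_
        simp only [Finset.mem_filter, Finset.mem_univ, true_and] at ht
        have ht' : t.val < m := by rw [← hj]; exact ht
        rw [ih t.val ht' t rfl i (ht.trans hij), ih t.val ht' t rfl j ht]
      rw [h2] at h1
      exact add_right_cancel h1
  ext i j
  rcases lt_trichotomy i j with hij | hij | hij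
  · rw [hA.2 i j hij, hB.2 i j hij]
  · subst hij; rw [hA.1, hB.1]
  · exact key j.val j rfl i hij

/-- a unit lower triangular matrix is determined by the off-diagonal part of `Aᵀ A`. -/
lemma inj_gram' {n : ℕ} {A B : Matrix (Fin n) (Fin n) (ZMod 2)} (hA : IsLow A) (hB : IsLow B)
    (h : ∀ i j, j < i → ∑ t, A t i * A t j = ∑ t, B t i * B t j) : A = B := by
  have key : ∀ m : ℕ, ∀ i : Fin n, n - i.val = m → ∀ j, j < i → A i j = B i j := by
    intro m
    induction m using Nat.strong_induction_on with
    | _ m ih =>
      intro i hi j hij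
      have h1 := h i j hij
      have expand : ∀ C : Matrix (Fin n) (Fin n) (ZMod 2), IsLow C →
          ∑ t, C t i * C t j = C i j + ∑ t ∈ Finset.univ.filter (fun t => i < t), C t i * C t j := by
        intro C hC
        rw [← Finset.sum_filter_add_sum_filter_not Finset.univ (fun t => i < t)]
        rw [add_comm]
        congr 1
        rw [Finset.sum_eq_single i]
        · rw [hC.1, one_mul]
        · intro t ht htj
          simp only [Finset.mem_filter, Finset.mem_univ, true_and, not_lt] at ht
          rw [hC.2 t i (lt_of_le_of_ne ht htj), zero_mul]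
        · intro hh
          exact absurd (by simp) hh
      rw [expand A hA, expand B hB] at h1
      have h2 : ∑ t ∈ Finset.univ.filter (fun t => i < t), A t i * A t j =
          ∑ t ∈ Finset.univ.filter (fun t => i < t), B t i * B t j := by
        refine Finset.sum_congr rfl fun t ht => ?_
        simp only [Finset.mem_filter, Finset.mem_univ, true_and] at ht
        have ht' : n - t.val < m := by
          rw [← hi]
          have h3 : i.val < t.val := ht
          have h4 := t.isLt
          omega
        rw [ih _ ht' t rfl i ht, ih _ ht' t rfl j (hij.trans ht)]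
      rw [h2] at h1
      exact add_right_cancel h1
  ext i j
  rcases lt_trichotomy i j with hij | hij | hij
  · rw [hA.2 i j hij, hB.2 i j hij]
  · subst hij; rw [hA.1, hB.1]
  · exact key _ i rfl j hij

end Pool.Agent.H161R3.Inv
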