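import Pool.Agent.H161R3.InvGram
import Pool.Agent.H161R3.InvCount
import Pool.Agent.H161R3.InvTri

set_option autoImplicit false

namespace Pool.Agent.H161R3.Inv

open Finset

/-- numbers of inversions making `D` acyclic -/
def invSet {V : Type} [DecidableEq V] (D : V → V → Prop) : Set ℕ :=
  {k : ℕ | ∃ X : Fin k → Finset V, ∃ f : V → ℕ, ∀ u v,
        ((D u v ∧ Even (Finset.univ.filter (fun i => u ∈ X i ∧ v ∈ X i)).card) ∨
         (D v u ∧ Odd (Finset.univ.filter (fun i => u ∈ X i ∧ v ∈ X i)).card)) → f u < f v}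

/-- ranks of matrices representing `D` -/
def tmrSet {V : Type} [Fintype V] (D : V → V → Prop) : Set ℕ :=
  {r : ℕ | ∃ f : V → ℕ, Function.Injective f ∧
          ∃ M : Matrix V V (ZMod 2), M.IsSymm ∧
            (∀ u v, u ≠ v → (M u v = 1 ↔ ((D u v ∧ f v < f u) ∨ (D v u ∧ f u < f v)))) ∧
            M.rank = r}

def IsTour {V : Type} (D : V → V → Prop) : Prop :=
  (∀ u, ¬ D u u) ∧ ∀ u v, u ≠ v → (D u v ↔ ¬ D v u)

def Rep {V : Type} (D : V → V → Prop) (f : V → ℕ) (M : V → V → ZMod 2) : Prop :=
  ∀ u v, u ≠ v → (M u v = 1 ↔ ((D u v ∧ f v < f u) ∨ (D v u ∧ f u < f v)))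

section
variable {V : Type} [DecidableEq V]

lemma sum_ind {k : ℕ} (X : Fin k → Finset V) (u v : V) :
    ∑ i, (if u ∈ X i then (1 : ZMod 2) else 0) * (if v ∈ X i then (1 : ZMod 2) else 0) =
      ((Finset.univ.filter (fun i => u ∈ X i ∧ v ∈ X i)).card : ZMod 2) := by
  rw [Finset.card_filter, Nat.cast_sum]
  refine Finset.sum_congr rfl fun i _ => ?_
  by_cases h1 : u ∈ X i <;> by_cases h2 : v ∈ X i <;> simp [h1, h2]

lemma rep_of_mem {D : V → V → Prop} (hD : IsTour D) {k : ℕ} (h : k ∈ invSet D) :
    ∃ f : V → ℕ, Function.Injective f ∧ ∃ N : V → V → ZMod 2, G k N ∧ Rep D f N := by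
  obtain ⟨X, f, hf⟩ := h
  refine ⟨f, ?_, fun u v => ((Finset.univ.filter (fun i => u ∈ X i ∧ v ∈ X i)).card : ZMod 2),
    ⟨fun i u => if u ∈ X i then 1 else 0, fun u v => (sum_ind X u v).symm⟩, ?_⟩
  · intro u v huv
    by_contra hne
    rcases Nat.even_or_odd (Finset.univ.filter (fun i => u ∈ X i ∧ v ∈ X i)).card with he | ho
    · by_cases hd : D u v
      · have := hf u v (Or.inl ⟨hd, he⟩); omega
      · have hd' : D v u := by
          by_contra hh
          exact hd ((hD.2 u v hne).2 hh)
        have he' : Even (Finset.univ.filter (fun i => v ∈ X i ∧ u ∈ X i)).card := by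
          simpa [and_comm] using he
        have := hf v u (Or.inl ⟨hd', he'⟩); omega
    · by_cases hd : D u v
      · have ho' : Odd (Finset.univ.filter (fun i => v ∈ X i ∧ u ∈ X i)).card := by
          simpa [and_comm] using ho
        have := hf v u (Or.inr ⟨hd, ho'⟩); omega
      · have hd' : D v u := by
          by_contra hh
          exact hd ((hD.2 u v hne).2 hh)
        have := hf u v (Or.inr ⟨hd', ho⟩); omega
  · intro u v hne
    rw [ZMod.natCast_eq_one_iff_odd]
    constructor
    · intro ho
      by_cases hd : D u v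
      · have ho' : Odd (Finset.univ.filter (fun i => v ∈ X i ∧ u ∈ X i)).card := by
          simpa [and_comm] using ho
        exact Or.inl ⟨hd, hf v u (Or.inr ⟨hd, ho'⟩)⟩
      · have hd' : D v u := by
          by_contra hh
          exact hd ((hD.2 u v hne).2 hh)
        exact Or.inr ⟨hd', hf u v (Or.inr ⟨hd', ho⟩)⟩
    · rintro (⟨hd, hlt⟩ | ⟨hd, hlt⟩)
      · by_contra hno
        rw [Nat.not_odd_iff_even] at hno
        have := hf u v (Or.inl ⟨hd, hno⟩); omega
      · by_contra hno
        rw [Nat.not_odd_iff_even] at hno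
        have hno' : Even (Finset.univ.filter (fun i => v ∈ X i ∧ u ∈ X i)).card := by
          simpa [and_comm] using hno
        have := hf v u (Or.inl ⟨hd, hno'⟩); omega

lemma mem_of_rep [Fintype V] {D : V → V → Prop} (hD : IsTour D) {k : ℕ} {f : V → ℕ}
    (hf : Function.Injective f) {N : V → V → ZMod 2} (hG : G k N) (hR : Rep D f N) :
    k ∈ invSet D := by
  obtain ⟨x, hx⟩ := hG
  refine ⟨fun i => Finset.univ.filter fun u => x i u = 1, f, ?_⟩
  intro u v h
  have hsum : N u v = ((Finset.univ.filter (fun i : Fin k => u ∈ (Finset.univ.filter fun u => x i u = 1) ∧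
      v ∈ (Finset.univ.filter fun u => x i u = 1))).card : ZMod 2) := by
    rw [← sum_ind, hx]
    refine Finset.sum_congr rfl fun i _ => ?_
    simp only [Finset.mem_filter, Finset.mem_univ, true_and]
    have : ∀ p q : ZMod 2, p * q = (if p = 1 then 1 else 0) * (if q = 1 then 1 else 0) := by decide
    exact this _ _
  have hne : u ≠ v := by
    rintro rfl
    rcases h with h | h
    · exact hD.1 u h.1
    · exact hD.1 u h.1
  have hfne : f u ≠ f v := fun e => hne (hf e)
  have hR' := hR u v hne
  rw [hsum, ZMod.natCast_eq_one_iff_odd] at hR'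
  rcases h with ⟨hd, he⟩ | ⟨hd, ho⟩
  · by_contra hlt
    have : f v < f u := by omega
    have := hR'.2 (Or.inl ⟨hd, this⟩)
    exact (Nat.not_odd_iff_even.2 he) this
  · rcases hR'.1 ho with ⟨hd', _⟩ | ⟨_, hlt⟩
    · exact absurd hd ((hD.2 u v hne).1 hd')
    · exact hlt

omit [DecidableEq V] in
lemma G_rank [Fintype V] {k : ℕ} {N : V → V → ZMod 2} (h : G k N) :
    (Matrix.of N).rank ≤ k ∧ (Matrix.of N).IsSymm := by
  obtain ⟨x, hx⟩ := h
  constructor
  · have : Matrix.of N = (Matrix.of fun (u : V) (i : Fin k) => x i u) *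
        (Matrix.of fun (i : Fin k) (v : V) => x i v) := by
      ext u v
      simp [Matrix.mul_apply, hx]
    rw [this]
    refine (Matrix.rank_mul_le_left _ _).trans ?_
    simpa using Matrix.rank_le_card_width (Matrix.of fun (u : V) (i : Fin k) => x i u)
  · ext u v
    simp [hx, mul_comm]

/-- if the inversion number is even then it is the minimum rank. -/
lemma inv_eq_tmr [Fintype V] {D : V → V → Prop} (hD : IsTour D) (hne : (invSet D).Nonempty)
    (he : Even (sInf (invSet D))) : sInf (invSet D) = sInf (tmrSet D) := by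
  have hmem := Nat.sInf_mem hne
  obtain ⟨f, hf, N, hG, hR⟩ := rep_of_mem hD hmem
  obtain ⟨hr, hs⟩ := G_rank hG
  have hmem2 : (Matrix.of N).rank ∈ tmrSet D := ⟨f, hf, Matrix.of N, hs, hR, rfl⟩
  have h1 : sInf (tmrSet D) ≤ sInf (invSet D) := (Nat.sInf_le hmem2).trans hr
  refine le_antisymm ?_ h1
  by_contra hlt
  push Not at hlt
  obtain ⟨s, hs'⟩ := he
  obtain ⟨f', hf', M, hM, hR', hrk⟩ := Nat.sInf_mem (⟨_, hmem2⟩ : (tmrSet D).Nonempty)
  have hs1 : 1 ≤ s := by omega
  have hG' : G (2 * (s - 1) + 1) M := gram_of_rank (s - 1) M hM (by omega)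
  have := Nat.sInf_le (mem_of_rep hD hf' hG' hR')
  omega

end

/-- difference between the order `f` and the natural order -/
def diff {n : ℕ} (f : Fin n → ℕ) (u v : Fin n) : ZMod 2 :=
  if (u < v ∧ f v < f u) ∨ (v < u ∧ f u < f v) then 1 else 0

/-- the tournament obtained from the natural order by flipping the pairs with entry `1` -/
def tourM {n : ℕ} (M : Fin n → Fin n → ZMod 2) (u v : Fin n) : Prop :=
  (u < v ∧ M u v = 0) ∨ (v < u ∧ M u v = 1)

lemma isTour_tourM {n : ℕ} {M : Fin n → Fin n → ZMod 2} (hM : ∀ u v, M u v = M v u) :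
    IsTour (tourM M) := by
  constructor
  · intro u h
    rcases h with h | h <;> exact lt_irrefl _ h.1
  · intro u v hne
    unfold tourM
    rw [hM v u]
    rcases lt_or_gt_of_ne hne with h | h
    · have h' : ¬ v < u := not_lt.2 h.le
      simp only [h, h', true_and, false_and, or_false, false_or]
      have : ∀ p : ZMod 2, p = 0 ↔ ¬ p = 1 := by decide
      exact this _
    · have h' : ¬ u < v := not_lt.2 h.le
      simp only [h, h', true_and, false_and, or_false, false_or]
      have : ∀ p : ZMod 2, p = 1 ↔ ¬ p = 0 := by decide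
      exact this _

lemma rep_iff {n : ℕ} {M : Fin n → Fin n → ZMod 2} (hM : ∀ u v, M u v = M v u) {f : Fin n → ℕ}
    (hf : Function.Injective f) (N : Fin n → Fin n → ZMod 2) :
    Rep (tourM M) f N ↔ ∀ u v, u ≠ v → N u v = M u v + diff f u v := by
  unfold Rep
  refine forall_congr' fun u => forall_congr' fun v => imp_congr_right fun hne => ?_
  have hfne : f u ≠ f v := fun e => hne (hf e)
  unfold tourM diff
  rw [hM v u]
  rcases lt_or_gt_of_ne hne with h | h <;> rcases lt_or_gt_of_ne hfne with h2 | h2
  · have h' : ¬ v < u := not_lt.2 h.le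
    have h2' : ¬ f v < f u := not_lt.2 h2.le
    simp only [h, h', h2, h2', true_and, false_and, and_false, and_true, or_false, false_or, if_false]
    have : ∀ p q : ZMod 2, (p = 1 ↔ q = 1) ↔ p = q + 0 := by decide
    exact this _ _
  · have h' : ¬ v < u := not_lt.2 h.le
    have h2' : ¬ f u < f v := not_lt.2 h2.le
    simp only [h, h', h2, h2', true_and, false_and, and_false, and_true, or_false, false_or, if_true]
    have : ∀ p q : ZMod 2, (p = 1 ↔ q = 0) ↔ p = q + 1 := by decide
    exact this _ _
  · have h' : ¬ u < v := not_lt.2 h.le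
    have h2' : ¬ f v < f u := not_lt.2 h2.le
    simp only [h, h', h2, h2', true_and, false_and, and_false, and_true, or_false, false_or, if_true]
    have : ∀ p q : ZMod 2, (p = 1 ↔ q = 0) ↔ p = q + 1 := by decide
    exact this _ _
  · have h' : ¬ u < v := not_lt.2 h.le
    have h2' : ¬ f u < f v := not_lt.2 h2.le
    simp only [h, h', h2, h2', true_and, false_and, and_false, and_true, or_false, false_or, if_false]
    have : ∀ p q : ZMod 2, (p = 1 ↔ q = 1) ↔ p = q + 0 := by decide
    exact this _ _

lemma mem_tourM_iff {n : ℕ} {M : Fin n → Fin n → ZMod 2} (hM : ∀ u v, M u v = M v u) (k : ℕ) :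
    k ∈ invSet (tourM M) ↔ ∃ f : Fin n → ℕ, Function.Injective f ∧ ∃ N : Fin n → Fin n → ZMod 2,
      G k N ∧ ∀ u v, u ≠ v → N u v = M u v + diff f u v := by
  constructor
  · intro h
    obtain ⟨f, hf, N, hG, hR⟩ := rep_of_mem (isTour_tourM hM) h
    exact ⟨f, hf, N, hG, (rep_iff hM hf N).1 hR⟩
  · rintro ⟨f, hf, N, hG, hR⟩
    exact mem_of_rep (isTour_tourM hM) hf hG ((rep_iff hM hf N).2 hR)

lemma nonempty_invSet {n : ℕ} {M : Fin n → Fin n → ZMod 2} (hM : ∀ u v, M u v = M v u) :
    (invSet (tourM M)).Nonempty := by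
  refine ⟨2 * n + 1, ?_⟩
  rw [mem_tourM_iff hM]
  refine ⟨fun i => i.val, Fin.val_injective, M, ?_, ?_⟩
  · have hs : (Matrix.of M).IsSymm := by
      ext u v; simp [hM u v]
    have hr : (Matrix.of M).rank ≤ 2 * n + 1 := by
      have := Matrix.rank_le_width (Matrix.of M)
      omega
    exact gram_of_rank n (Matrix.of M) hs hr
  · intro u v _
    have : diff (fun i : Fin n => i.val) u v = 0 := by
      unfold diff
      rw [if_neg]
      rintro (⟨h1, h2⟩ | ⟨h1, h2⟩)
      · exact absurd (Fin.lt_def.1 h1) (not_lt.2 h2.le)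
      · exact absurd (Fin.lt_def.1 h1) (not_lt.2 h2.le)
    rw [this, add_zero]

/-- parity repair -/
lemma parity {n : ℕ} {M : Fin n → Fin n → ZMod 2} (hM : ∀ u v, M u v = M v u) {b : ℕ}
    (hb : Even b) (hle : b ≤ sInf (invSet (tourM M))) :
    ∃ a : Fin n → ZMod 2, Even (sInf (invSet (tourM (fun u v => M u v + a u * a v)))) ∧
      b ≤ sInf (invSet (tourM (fun u v => M u v + a u * a v))) := by
  rcases Nat.even_or_odd (sInf (invSet (tourM M))) with he | ho
  · refine ⟨fun _ => 0, ?_, ?_⟩
    · simpa using he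
    · simpa using hle
  · obtain ⟨s, hs⟩ := ho
    have hmem := Nat.sInf_mem (nonempty_invSet hM)
    rw [hs, mem_tourM_iff hM] at hmem
    obtain ⟨f, hf, N, hG, hN⟩ := hmem
    obtain ⟨a, ha⟩ := G_pred hG
    have hMa : ∀ u v, M u v + a u * a v = M v u + a v * a u := fun u v => by rw [hM, mul_comm]
    have h1 : 2 * s ∈ invSet (tourM (fun u v => M u v + a u * a v)) := by
      rw [mem_tourM_iff hMa]
      refine ⟨f, hf, _, ha, fun u v hne => ?_⟩
      rw [hN u v hne]; ring
    have h2 := Nat.sInf_mem (nonempty_invSet hMa)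
    rw [mem_tourM_iff hMa] at h2
    obtain ⟨f', hf', N', hG', hN'⟩ := h2
    have h3 : sInf (invSet (tourM (fun u v => M u v + a u * a v))) + 1 ∈ invSet (tourM M) := by
      rw [mem_tourM_iff hM]
      refine ⟨f', hf', _, G_succ hG' a, fun u v hne => ?_⟩
      rw [hN' u v hne]
      have : ∀ p q r : ZMod 2, p + q + r + q = p + r := by decide
      exact this _ _ _
    have h4 := Nat.sInf_le h3
    have h5 := Nat.sInf_le h1
    have h6 : sInf (invSet (tourM (fun u v => M u v + a u * a v))) = 2 * s := by omega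
    refine ⟨a, ?_, ?_⟩
    · rw [h6]; exact even_two_mul s
    · rw [h6]
      obtain ⟨t, ht⟩ := hb
      omega

/-- rank function of an injective map to `ℕ` -/
lemma exists_rankfn {n : ℕ} (f : Fin n → ℕ) :
    ∃ g : Fin n → Fin n, ∀ u v, g u < g v ↔ f u < f v := by
  refine ⟨fun u => ⟨(Finset.univ.filter fun w => f w < f u).card, ?_⟩, ?_⟩
  · have : (Finset.univ.filter fun w => f w < f u).card < (Finset.univ : Finset (Fin n)).card := by
      apply Finset.card_lt_card
      rw [Finset.filter_ssubset]
      exact ⟨u, Finset.mem_univ _, lt_irrefl _⟩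
    simpa using this
  · intro u v
    rw [Fin.lt_def]
    constructor
    · intro h
      by_contra hlt
      push Not at hlt
      have : (Finset.univ.filter fun w => f w < f v) ⊆ (Finset.univ.filter fun w => f w < f u) := by
        intro w hw
        simp only [Finset.mem_filter, Finset.mem_univ, true_and] at hw ⊢
        omega
      have := Finset.card_le_card this
      simp only at h
      omega
    · intro h
      show (Finset.univ.filter fun w => f w < f u).card < (Finset.univ.filter fun w => f w < f v).card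
      apply Finset.card_lt_card
      refine ⟨?_, ?_⟩
      · intro w hw
        simp only [Finset.mem_filter, Finset.mem_univ, true_and] at hw ⊢
        omega
      · intro hss
        have := hss (show u ∈ (Finset.univ.filter fun w => f w < f v) by simpa using h)
        simp at this

/-- symmetric matrices of the form `G k` are low. -/
lemma low_of_G {n k r : ℕ} (hk : k ≤ r) {N : Fin n → Fin n → ZMod 2} (hG : G k N)
    (m : Sym2 (Fin n) → ZMod 2) (hm : ∀ u v, m s(u, v) = N u v) : m ∈ LowSet n r := by
  classical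
  obtain ⟨x, hx⟩ := hG
  obtain ⟨κ, a, ha, hspan, hli⟩ := exists_linearIndependent' (ZMod 2) (fun u : Fin n => fun i => x i u)
  have : Fintype κ := by
    have : Finite κ := Finite.of_injective a ha
    exact Fintype.ofFinite κ
  have hcard : Fintype.card κ ≤ k := by
    have := hli.fintype_card_le_finrank
    simpa using this
  simp only [LowSet, Finset.mem_filter, Finset.mem_univ, true_and]
  refine ⟨Finset.univ.image a, ?_, ?_⟩
  · refine Finset.card_image_le.trans ?_
    rw [Finset.card_univ]
    omega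
  · intro j
    have hj : (fun i => x i j) ∈ Submodule.span (ZMod 2) (Set.range ((fun u : Fin n => fun i => x i u) ∘ a)) := by
      rw [hspan]
      exact Submodule.subset_span ⟨j, rfl⟩
    rw [Submodule.mem_span_range_iff_exists_fun] at hj
    obtain ⟨c, hc⟩ := hj
    refine ⟨fun i => if h : ∃ κ', a κ' = i then c h.choose else 0, fun l => ?_⟩
    rw [Finset.sum_image (fun p _ q _ h => ha h)]
    have h1 : ∀ p : κ, (if h : ∃ κ', a κ' = a p then c h.choose else 0) = c p := by
      intro p
      have hex : ∃ κ', a κ' = a p := ⟨p, rfl⟩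
      rw [dif_pos hex, ha hex.choose_spec]
    simp only [h1]
    rw [hm, hx]
    have h2 : ∀ i, x i j = ∑ p, c p * x i (a p) := by
      intro i
      have := congrFun hc i
      simp only [Finset.sum_apply, Pi.smul_apply, Function.comp_apply, smul_eq_mul] at this
      exact this.symm
    simp only [hm, hx, h2]
    simp only [Finset.sum_mul, Finset.mul_sum]
    rw [Finset.sum_comm]
    refine Finset.sum_congr rfl fun p _ => Finset.sum_congr rfl fun i _ => ?_
    ring

end Pool.Agent.H161R3.Inv
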