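import Mathlib

set_option autoImplicit false

namespace Pool.Agent.H161R3.NonSep

open Finset

/-- König's theorem in the form needed: either a matching with `n` edges between `L` and `R`, or a
vertex cover with fewer than `n` vertices. -/
lemma konig {V : Type} [Fintype V] [DecidableEq V] (r : V → V → Prop) (L R : Finset V) (n : ℕ) :
    (∃ a b : Fin n → V, Function.Injective a ∧ Function.Injective b ∧ (∀ i, a i ∈ L) ∧
      (∀ i, b i ∈ R) ∧ ∀ i, r (a i) (b i)) ∨
    ∃ A B : Finset V, A.card + B.card < n ∧ ∀ x ∈ L, ∀ y ∈ R, r x y → x ∈ A ∨ y ∈ B := by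
  classical
  by_cases hL : L.card < n
  · right
    exact ⟨L, ∅, by simpa using hL, fun x hx _ _ _ => Or.inl hx⟩
  push Not at hL
  set d := L.card - n with hd
  let t : {x // x ∈ L} → Finset (V ⊕ Fin d) := fun x =>
    (R.filter fun y => r x.1 y).disjSum Finset.univ
  by_cases hall : ∀ s : Finset {x // x ∈ L}, s.card ≤ (s.biUnion t).card
  · left
    obtain ⟨f, hf, hft⟩ := (Finset.all_card_le_biUnion_card_iff_exists_injective t).1 hall
    -- the good elements
    set S : Finset {x // x ∈ L} := Finset.univ.filter fun x => (f x).isLeft with hS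
    have hSc : n ≤ S.card := by
      have h1 : S.card + (Finset.univ.filter fun x => ¬ (f x).isLeft = true).card = L.card := by
        rw [Finset.card_filter_add_card_filter_not, Finset.card_univ]
        exact Fintype.card_coe L
      have h2 : (Finset.univ.filter fun x => ¬ (f x).isLeft = true).card ≤ d := by
        have : ((Finset.univ.filter fun x => ¬ (f x).isLeft = true).image f).card ≤
            ((Finset.univ : Finset (Fin d)).image (Sum.inr : Fin d → V ⊕ Fin d)).card := by
          apply Finset.card_le_card
          intro z hz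
          rw [Finset.mem_image] at hz
          obtain ⟨x, hx, rfl⟩ := hz
          simp only [Finset.mem_filter, Finset.mem_univ, true_and] at hx
          rw [Finset.mem_image]
          cases h : f x with
          | inl y => rw [h] at hx; simp at hx
          | inr j => exact ⟨j, Finset.mem_univ _, rfl⟩
        rw [Finset.card_image_of_injective _ hf, Finset.card_image_of_injective _ Sum.inr_injective,
          Finset.card_univ, Fintype.card_fin] at this
        exact this
      omega
    obtain ⟨S', hS', hc⟩ := Finset.exists_subset_card_eq hSc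
    let e := S'.equivFinOfCardEq hc
    have hleft : ∀ i : Fin n, (f (e.symm i).1).isLeft := by
      intro i
      have := hS' (e.symm i).2
      simpa [hS] using this
    refine ⟨fun i => (e.symm i).1.1, fun i => (f (e.symm i).1).getLeft (hleft i), ?_, ?_, ?_, ?_, ?_⟩
    · intro i j hij
      have : (e.symm i).1 = (e.symm j).1 := Subtype.ext hij
      exact e.symm.injective (Subtype.ext this)
    · intro i j hij
      have h1 : f (e.symm i).1 = f (e.symm j).1 := by
        rw [← Sum.inl_getLeft _ (hleft i), ← Sum.inl_getLeft _ (hleft j)]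
        exact congrArg _ hij
      exact e.symm.injective (Subtype.ext (hf h1))
    · intro i; exact (e.symm i).1.2
    · intro i
      have := hft (e.symm i).1
      rw [← Sum.inl_getLeft _ (hleft i)] at this
      simp only [t, Finset.inl_mem_disjSum, Finset.mem_filter] at this
      exact this.1
    · intro i
      have := hft (e.symm i).1
      rw [← Sum.inl_getLeft _ (hleft i)] at this
      simp only [t, Finset.inl_mem_disjSum, Finset.mem_filter] at this
      exact this.2
  · right
    push Not at hall
    obtain ⟨s, hs⟩ := hall
    have hne : s.Nonempty := by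
      rw [Finset.nonempty_iff_ne_empty]
      rintro rfl
      simp at hs
    let Ns : Finset V := R.filter fun y => ∃ x ∈ s, r x.1 y
    have hcard : Ns.card + d ≤ (s.biUnion t).card := by
      have h1 : (Ns.disjSum (Finset.univ : Finset (Fin d))).card = Ns.card + d := by
        rw [Finset.card_disjSum, Finset.card_univ, Fintype.card_fin]
      rw [← h1]
      apply Finset.card_le_card
      intro z hz
      rw [Finset.mem_biUnion]
      cases z with
      | inl y =>
        simp only [Finset.inl_mem_disjSum, Ns, Finset.mem_filter] at hz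
        obtain ⟨hy, x, hx, hr⟩ := hz
        refine ⟨x, hx, ?_⟩
        simp only [t, Finset.inl_mem_disjSum, Finset.mem_filter]
        exact ⟨hy, hr⟩
      | inr j =>
        obtain ⟨x, hx⟩ := hne
        refine ⟨x, hx, ?_⟩
        simp [t]
    let s' : Finset V := s.image Subtype.val
    have hs'c : s'.card = s.card := Finset.card_image_of_injective _ Subtype.val_injective
    have hs'L : s' ⊆ L := by
      intro x hx
      simp only [s', Finset.mem_image] at hx
      obtain ⟨y, _, rfl⟩ := hx
      exact y.2
    refine ⟨L \ s', Ns, ?_, ?_⟩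
    · have := Finset.card_sdiff_add_card_eq_card hs'L
      omega
    · intro x hx y hy hr
      by_cases hxs : x ∈ s'
      · right
        simp only [s', Finset.mem_image] at hxs
        obtain ⟨z, hz, rfl⟩ := hxs
        simp only [Ns, Finset.mem_filter]
        exact ⟨hy, z, hz, hr⟩
      · left
        exact Finset.mem_sdiff.2 ⟨hx, hxs⟩

/-- The main theorem. -/
theorem main (t n m : ℕ) (hn : 0 < n) (hm : (t + 1) * (n - 1) + 2 ≤ m) (c : Fin m → Fin m → Fin t) :
    ∃ k : Fin t, ∃ a b : Fin n → Fin m,
      Function.Injective a ∧ Function.Injective b ∧ (∀ i j, a i < b j) ∧ ∀ i, c (a i) (b i) = k := by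
  classical
  by_contra hcon
  push Not at hcon
  -- covers
  have hcov : ∀ (k : Fin t) (p : ℕ), ∃ C : Finset (Fin m), C.card ≤ n - 1 ∧
      ∀ x y : Fin m, x.val < p → p ≤ y.val → c x y = k → x ∈ C ∨ y ∈ C := by
    intro k p
    rcases konig (fun x y => c x y = k) (Finset.univ.filter fun x : Fin m => x.val < p)
      (Finset.univ.filter fun y : Fin m => p ≤ y.val) n with h | h
    · obtain ⟨a, b, ha, hb, haL, hbR, hab⟩ := h
      exfalso
      obtain ⟨i, hi⟩ := hcon k a b ha hb (fun i j => by
        have h1 := haL i
        have h2 := hbR j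
        simp only [Finset.mem_filter, Finset.mem_univ, true_and] at h1 h2
        exact Fin.lt_def.2 (by omega))
      exact hi (hab i)
    · obtain ⟨A, B, hAB, hc⟩ := h
      refine ⟨A ∪ B, ?_, ?_⟩
      · have := Finset.card_union_le A B
        omega
      · intro x y hx hy hxy
        rcases hc x (by simpa using hx) y (by simpa using hy) hxy with h | h
        · exact Or.inl (Finset.mem_union_left _ h)
        · exact Or.inr (Finset.mem_union_right _ h)
  choose C hC1 hC2 using hcov
  -- I p v
  let I : ℕ → Fin m → Finset (Fin t) := fun p v => Finset.univ.filter fun k => v ∈ C k p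
  have hbudget : ∀ p, ∑ v, (I p v).card ≤ t * (n - 1) := by
    intro p
    have : ∑ v, (I p v).card = ∑ k, (C k p).card := by
      simp only [I, Finset.card_filter]
      rw [Finset.sum_comm]
      refine Finset.sum_congr rfl fun k _ => ?_
      simp
    rw [this]
    calc ∑ k, (C k p).card ≤ ∑ _k : Fin t, (n - 1) := Finset.sum_le_sum fun k _ => hC1 k p
      _ = t * (n - 1) := by simp
  have hcross : ∀ p, ∀ x y : Fin m, x.val < p → p ≤ y.val → c x y ∈ I p x ∪ I p y := by
    intro p x y hx hy
    rw [Finset.mem_union]
    rcases hC2 (c x y) p x y hx hy rfl with h | h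
    · exact Or.inl (by simpa [I] using h)
    · exact Or.inr (by simpa [I] using h)
  -- P p: all left vertices covered
  let P : ℕ → Prop := fun p => ∀ v : Fin m, v.val < p → (I p v).Nonempty
  have hP0 : P 0 := fun v hv => absurd hv (Nat.not_lt_zero _)
  have hPm : ¬ P m := by
    intro h
    have h1 : ∑ _v : Fin m, 1 ≤ ∑ v, (I m v).card :=
      Finset.sum_le_sum fun v _ => Finset.card_pos.2 (h v v.2)
    have h2 := hbudget m
    simp only [Finset.sum_const, Finset.card_univ, Fintype.card_fin, smul_eq_mul, mul_one] at h1
    have : (t + 1) * (n - 1) = t * (n - 1) + (n - 1) := by ring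
    omega
  obtain ⟨p, hp, hPp, hPp1⟩ : ∃ p, p < m ∧ P p ∧ ¬ P (p + 1) := by
    by_contra hno
    push Not at hno
    have : ∀ q, q ≤ m → P q := by
      intro q
      induction q with
      | zero => intro _; exact hP0
      | succ q ih => intro hq; exact hno q (by omega) (ih (by omega))
    exact hPm (this m le_rfl)
  have hR : ∀ w : Fin m, p < w.val → (I (p + 1) w).Nonempty := by
    intro w hw
    simp only [P] at hPp1
    push Not at hPp1
    obtain ⟨v, hv, hIv⟩ := hPp1
    have := hcross (p + 1) v w hv hw
    have h0 : I (p + 1) v = ∅ := by simpa using hIv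
    rw [h0, Finset.empty_union] at this
    exact ⟨_, this⟩
  set W : Finset (Fin m) := Finset.univ.erase ⟨p, hp⟩ with hW
  have hWc : W.card = m - 1 := by
    rw [hW, Finset.card_erase_of_mem (Finset.mem_univ _), Finset.card_univ, Fintype.card_fin]
  have hWm : ∀ v ∈ W, v.val < p ∨ p < v.val := by
    intro v hv
    rw [hW, Finset.mem_erase] at hv
    have : v.val ≠ p := fun h => hv.1 (Fin.ext h)
    omega
  have hsub : ∀ (q : ℕ) (T : Finset (Fin m)), (∀ v ∈ T, (I q v).Nonempty) → T.card ≤ t * (n - 1) := by
    intro q T hT
    calc T.card = ∑ _v ∈ T, 1 := by simp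
      _ ≤ ∑ v ∈ T, (I q v).card := Finset.sum_le_sum fun v hv => Finset.card_pos.2 (hT v hv)
      _ ≤ ∑ v, (I q v).card := Finset.sum_le_sum_of_subset (Finset.subset_univ _)
      _ ≤ t * (n - 1) := hbudget q
  have hexp : (t + 1) * (n - 1) = t * (n - 1) + (n - 1) := by ring
  by_cases c1 : ∃ a : Fin m, a.val < p ∧ (I p a).card = 1 ∧ I (p + 1) a = ∅
  · obtain ⟨a, ha, hIa, hIa'⟩ := c1
    obtain ⟨i, hi⟩ := Finset.card_eq_one.1 hIa
    -- Q
    let Q : Finset (Fin m) := W.filter fun v => p < v.val ∧ Disjoint (I p v) (I (p + 1) v)
    have hQ : Q.card ≤ n - 1 := by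
      refine le_trans (Finset.card_le_card ?_) (hC1 i (p + 1))
      intro v hv
      simp only [Q, Finset.mem_filter] at hv
      obtain ⟨_, hpv, hdis⟩ := hv
      have h1 := hcross p a v ha hpv.le
      have h2 := hcross (p + 1) a v (by omega) hpv
      rw [hIa', Finset.empty_union] at h2
      rw [hi, Finset.mem_union, Finset.mem_singleton] at h1
      rcases h1 with h1 | h1
      · rw [h1] at h2
        simpa [I] using h2
      · exact absurd h2 (Finset.disjoint_left.1 hdis h1)
    have hrest : (W \ Q).card ≤ t * (n - 1) := by
      apply hsub p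
      intro v hv
      rw [Finset.mem_sdiff] at hv
      rcases hWm v hv.1 with h | h
      · exact hPp v h
      · by_contra hne
        apply hv.2
        simp only [Q, Finset.mem_filter]
        refine ⟨hv.1, h, ?_⟩
        rw [Finset.not_nonempty_iff_eq_empty.1 hne]
        exact Finset.disjoint_empty_left _
    have h3 : W.card ≤ (W \ Q).card + Q.card := by
      have := Finset.card_sdiff_add_card_eq_card (show Q ⊆ W from Finset.filter_subset _ _)
      omega
    omega
  by_cases c2 : ∃ b : Fin m, p < b.val ∧ (I (p + 1) b).card = 1 ∧ I p b = ∅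
  · obtain ⟨b, hb, hIb, hIb'⟩ := c2
    obtain ⟨j, hj⟩ := Finset.card_eq_one.1 hIb
    let Q : Finset (Fin m) := W.filter fun v => v.val < p ∧ Disjoint (I p v) (I (p + 1) v)
    have hQ : Q.card ≤ n - 1 := by
      refine le_trans (Finset.card_le_card ?_) (hC1 j p)
      intro v hv
      simp only [Q, Finset.mem_filter] at hv
      obtain ⟨_, hpv, hdis⟩ := hv
      have h1 := hcross p v b hpv hb.le
      have h2 := hcross (p + 1) v b (by omega) hb
      rw [hIb', Finset.union_empty] at h1
      rw [hj, Finset.mem_union, Finset.mem_singleton] at h2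
      rcases h2 with h2 | h2
      · exact absurd h2 (Finset.disjoint_left.1 hdis h1)
      · rw [h2] at h1
        simpa [I] using h1
    have hrest : (W \ Q).card ≤ t * (n - 1) := by
      apply hsub (p + 1)
      intro v hv
      rw [Finset.mem_sdiff] at hv
      rcases hWm v hv.1 with h | h
      · by_contra hne
        apply hv.2
        simp only [Q, Finset.mem_filter]
        refine ⟨hv.1, h, ?_⟩
        rw [Finset.not_nonempty_iff_eq_empty.1 hne]
        exact Finset.disjoint_empty_right _
      · exact hR v h
    have h3 : W.card ≤ (W \ Q).card + Q.card := by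
      have := Finset.card_sdiff_add_card_eq_card (show Q ⊆ W from Finset.filter_subset _ _)
      omega
    omega
  · push Not at c1 c2
    have h2 : ∀ v ∈ W, 2 ≤ (I p v).card + (I (p + 1) v).card := by
      intro v hv
      rcases hWm v hv with h | h
      · have h1 := Finset.card_pos.2 (hPp v h)
        have h3 := c1 v h
        by_cases h4 : (I p v).card = 1
        · have := h3 h4
          have := Finset.card_pos.2 (by simpa using this : (I (p + 1) v).Nonempty)
          omega
        · omega
      · have h1 := Finset.card_pos.2 (hR v h)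
        have h3 := c2 v h
        by_cases h4 : (I (p + 1) v).card = 1
        · have := h3 h4
          have := Finset.card_pos.2 (by simpa using this : (I p v).Nonempty)
          omega
        · omega
    have h5 : 2 * W.card ≤ 2 * (t * (n - 1)) := by
      calc 2 * W.card = ∑ _v ∈ W, 2 := by simp [mul_comm]
        _ ≤ ∑ v ∈ W, ((I p v).card + (I (p + 1) v).card) := Finset.sum_le_sum h2
        _ ≤ ∑ v, ((I p v).card + (I (p + 1) v).card) :=
          Finset.sum_le_sum_of_subset (Finset.subset_univ _)
        _ = ∑ v, (I p v).card + ∑ v, (I (p + 1) v).card := Finset.sum_add_distrib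
        _ ≤ 2 * (t * (n - 1)) := by
          have := hbudget p
          have := hbudget (p + 1)
          omega
    omega

end Pool.Agent.H161R3.NonSep
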