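import Pool.Agent.H161R3.ORGreedy

set_option autoImplicit false

namespace Pool.Agent.H161R3.OR2

open Finset Pool.Agent.H161R3.OR

section greedy

variable {n : ℕ}

open Classical in
/-- delay caused by class `b` -/
noncomputable def mb (R w : ℕ) (FB : ℕ → ℕ → Prop) (h : Fin n → ℕ) (M : Fin n → Fin n)
    (cls : Fin n → ℕ) (b : ℕ) (u : Fin n) : ℕ :=
  (Finset.univ.filter fun u' : Fin n => u ≤ u' ∧ u' < M u' ∧ cls u' = b ∧
    Blocked R w FB h M u').sup fun u' => R * R - R * (u'.val - u.val)

variable (R w : ℕ) (FB : ℕ → ℕ → Prop) (h : Fin n → ℕ) (M : Fin n → Fin n) (cls : Fin n → ℕ)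

lemma mb_le (b : ℕ) (u : Fin n) : mb R w FB h M cls b u ≤ R * R := by
  unfold mb
  refine Finset.sup_le fun u' _ => Nat.sub_le _ _

/-- one step without a new blocked vertex -/
lemma mb_step (b : ℕ) (u v : Fin n) (huv : v.val = u.val + 1) :
    mb R w FB h M cls b v - R ≤ mb R w FB h M cls b u := by
  classical
  rw [Nat.sub_le_iff_le_add]
  unfold mb
  refine Finset.sup_le fun u' hu' => ?_
  simp only [Finset.mem_filter, Finset.mem_univ, true_and] at hu'
  obtain ⟨h1, h3, h4, h5⟩ := hu'
  have hmem : u' ∈ (Finset.univ.filter fun u' : Fin n => u ≤ u' ∧ u' < M u' ∧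
      cls u' = b ∧ Blocked R w FB h M u') := by
    simp only [Finset.mem_filter, Finset.mem_univ, true_and]
    refine ⟨?_, h3, h4, h5⟩
    rw [Fin.le_def] at h1 ⊢; omega
  have h6 := Finset.le_sup (f := fun u' : Fin n => R * R - R * (u'.val - u.val)) hmem
  rw [Fin.le_def] at h1
  have h7 : u'.val - u.val = (u'.val - v.val) + 1 := by omega
  rw [h7, Nat.mul_add, Nat.mul_one] at h6
  omega

/-- a step with a new blocked vertex of class `b` -/
lemma mb_blocked (u v : Fin n) (huv : v.val = u.val + 1)
    (hu : u < M u) (hb : Blocked R w FB h M u)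
    (hGS : ∀ u1 u2 : Fin n, u1 < u2 → u2.val ≤ u1.val + R → u1 < M u1 →
      u2 < M u2 → cls u1 = cls u2 → Blocked R w FB h M u1 → Blocked R w FB h M u2 → False) :
    (mb R w FB h M cls (cls u) v - R) + R * R ≤ mb R w FB h M cls (cls u) u := by
  classical
  have h0 : mb R w FB h M cls (cls u) v - R = 0 := by
    rw [Nat.sub_eq_zero_iff_le]
    unfold mb
    refine Finset.sup_le fun u' hu' => ?_
    simp only [Finset.mem_filter, Finset.mem_univ, true_and] at hu'
    obtain ⟨h1, h3, h4, h5⟩ := hu'
    rw [Fin.le_def] at h1
    by_cases hle : u'.val ≤ u.val + R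
    · exact (hGS u u' (Fin.lt_def.2 (by omega)) hle hu h3 h4.symm hb h5).elim
    · have : R ≤ u'.val - v.val := by omega
      have h8 : R * R ≤ R * (u'.val - v.val) := Nat.mul_le_mul_left _ this
      omega
  rw [h0, zero_add]
  unfold mb
  have hmem : u ∈ (Finset.univ.filter fun u' : Fin n => u ≤ u' ∧ u' < M u' ∧
      cls u' = cls u ∧ Blocked R w FB h M u') := by
    simp only [Finset.mem_filter, Finset.mem_univ, true_and]
    exact ⟨le_rfl, hu, hb⟩
  have h6 := Finset.le_sup (f := fun u' : Fin n => R * R - R * (u'.val - u.val)) hmem
  simpa using h6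

lemma mb_self (u : Fin n) (hu : u < M u) (hb : Blocked R w FB h M u) :
    R * R ≤ mb R w FB h M cls (cls u) u := by
  classical
  unfold mb
  have hmem : u ∈ (Finset.univ.filter fun u' : Fin n => u ≤ u' ∧ u' < M u' ∧
      cls u' = cls u ∧ Blocked R w FB h M u') := by
    simp only [Finset.mem_filter, Finset.mem_univ, true_and]
    exact ⟨le_rfl, hu, hb⟩
  have h6 := Finset.le_sup (f := fun u' : Fin n => R * R - R * (u'.val - u.val)) hmem
  simpa using h6

/-- The greedy placement from right to left. -/
theorem greedy (k : ℕ) (hw : w = k * R + 1) (hM : ∀ u, M (M u) = u) (hM' : ∀ u, M u ≠ u)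
    (hcls : ∀ u, cls u < k) (hhR : ∀ u, R ≤ h u)
    (hh : ∀ u v : Fin n, v.val = u.val + 1 → h u + 1 ≤ h v)
    (hsymm : ∀ p p', FB p p' → FB p' p)
    (hFB : ∀ p' c, R * R ≤ c → ∃ p, c - R * R ≤ p ∧ p ≤ c ∧ ¬ FB p p')
    (hGS : ∀ u1 u2 : Fin n, u1 < u2 → u2.val ≤ u1.val + R → u1 < M u1 →
      u2 < M u2 → cls u1 = cls u2 → Blocked R w FB h M u1 → Blocked R w FB h M u2 → False) :
    ∃ P : Fin n → ℕ, StrictMono P ∧ (∀ u, P u < w * (h u + 1)) ∧ ∀ u, ¬ FB (P u) (P (M u)) := by
  classical
  set lag : Fin n → ℕ := fun u => ∑ b ∈ Finset.range k, mb R w FB h M cls b u with hlag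
  have hlagle : ∀ u, lag u ≤ k * (R * R) := by
    intro u
    calc lag u ≤ ∑ _b ∈ Finset.range k, R * R := Finset.sum_le_sum fun b _ => mb_le R w FB h M cls b u
      _ = k * (R * R) := by simp
  have hkw : k * (R * R) ≤ R * w := by rw [hw]; nlinarith
  have key : ∀ m : ℕ, m ≤ n → ∃ P : Fin n → ℕ,
      (∀ u v : Fin n, n - m ≤ u.val → u < v → P u < P v) ∧
      (∀ u : Fin n, n - m ≤ u.val → P u ≤ w * h u + (w - 1) ∧ w * h u + (w - 1) ≤ P u + lag u) ∧
      (∀ u : Fin n, n - m ≤ u.val → n - m ≤ (M u).val → ¬ FB (P u) (P (M u))) := by
    intro m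
    induction m with
    | zero =>
      intro _
      refine ⟨fun _ => 0, ?_, ?_, ?_⟩
      · intro u v hu; have := u.2; omega
      · intro u hu; have := u.2; omega
      · intro u hu; have := u.2; omega
    | succ m ih =>
      intro hm
      obtain ⟨P, hP1, hP2, hP3⟩ := ih (by omega)
      -- the new vertex
      have hun : n - (m + 1) < n := by omega
      set u : Fin n := ⟨n - (m + 1), hun⟩ with hu
      have hnm : n - m = u.val + 1 := by simp only [hu]; omega
      have htop : ∀ v : Fin n, w * R ≤ w * h v := fun v => Nat.mul_le_mul_left _ (hhR v)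
      have hRw : R * w = w * R := Nat.mul_comm _ _
      -- the candidate
      obtain ⟨c, S, hc1, hc2, hc3, hc4, hc5⟩ : ∃ c S : ℕ, c ≤ w * h u + (w - 1) ∧
          (∀ v : Fin n, u < v → c < P v) ∧ w * h u + (w - 1) ≤ c + S ∧ S ≤ lag u ∧
          (u < M u → Blocked R w FB h M u → S + R * R ≤ lag u) := by
        have hself : u < M u → Blocked R w FB h M u → 0 + R * R ≤ lag u := by
          intro h1 h2
          rw [zero_add]
          refine (mb_self R w FB h M cls u h1 h2).trans ?_
          exact Finset.single_le_sum (f := fun b => mb R w FB h M cls b u) (fun _ _ => Nat.zero_le _)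
            (Finset.mem_range.2 (hcls u))
        by_cases hlast : u.val + 1 < n
        · set v : Fin n := ⟨u.val + 1, hlast⟩ with hv
          have hvu : v.val = u.val + 1 := rfl
          obtain ⟨hv1, hv2⟩ := hP2 v (by omega)
          have hlv := hlagle v
          have hafter : ∀ c, c < P v → ∀ v' : Fin n, u < v' → c < P v' := by
            intro c hc v' hv'
            rcases eq_or_ne v v' with rfl | hne
            · exact hc
            · have : v < v' := by
                rw [Fin.lt_def] at hv' ⊢
                have : v.val ≠ v'.val := fun e => hne (Fin.ext e)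
                omega
              exact hc.trans (hP1 v v' (by omega) this)
          have hh0 := hh u v hvu
          have hmul : w * h u + w ≤ w * h v := by
            have := Nat.mul_le_mul_left w hh0
            rw [Nat.mul_add, Nat.mul_one] at this
            exact this
          have hPv : 1 ≤ P v := by
            have := htop u
            omega
          set S := ∑ b ∈ Finset.range k, (mb R w FB h M cls b v - R) with hS
          have hS1 : lag v ≤ S + k * R := by
            have : lag v ≤ ∑ b ∈ Finset.range k, ((mb R w FB h M cls b v - R) + R) :=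
              Finset.sum_le_sum fun b _ => by omega
            rw [Finset.sum_add_distrib] at this
            simpa using this
          have hS2 : S ≤ lag u := Finset.sum_le_sum fun b _ => mb_step R w FB h M cls b u v hvu
          refine ⟨min (w * h u + (w - 1)) (P v - 1), S, min_le_left _ _, ?_, ?_, hS2, ?_⟩
          · refine hafter _ ?_
            have := min_le_right (w * h u + (w - 1)) (P v - 1)
            omega
          · rcases min_cases (w * h u + (w - 1)) (P v - 1) with ⟨e, _⟩ | ⟨e, _⟩
            · rw [e]; omega
            · rw [e]; omega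
          · intro h1 h2
            have hb := mb_blocked R w FB h M cls u v hvu h1 h2 hGS
            have hmem : cls u ∈ Finset.range k := Finset.mem_range.2 (hcls u)
            rw [hS, hlag]
            simp only
            rw [← Finset.add_sum_erase _ _ hmem, ← Finset.add_sum_erase (Finset.range k)
              (fun b => mb R w FB h M cls b u) hmem]
            have h3 : ∑ b ∈ (Finset.range k).erase (cls u), (mb R w FB h M cls b v - R) ≤
                ∑ b ∈ (Finset.range k).erase (cls u), mb R w FB h M cls b u :=
              Finset.sum_le_sum fun b _ => mb_step R w FB h M cls b u v hvu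
            omega
        · refine ⟨w * h u + (w - 1), 0, le_rfl, ?_, le_rfl, Nat.zero_le _, hself⟩
          intro v hv
          rw [Fin.lt_def] at hv
          have := v.2
          omega
      have hlu := hlagle u
      have htu := htop u
      -- division facts
      have hw0 : 0 < w := by omega
      have hdiv1 : ∀ x a : ℕ, x ≤ w * a + (w - 1) → x / w ≤ a := by
        intro x a hx
        rw [Nat.div_le_iff_le_mul hw0]
        rw [Nat.mul_comm]; omega
      have hdiv2 : ∀ x a : ℕ, w * a ≤ x + w * R → a ≤ x / w + R := by
        intro x a hx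
        have : a = (w * a) / w := (Nat.mul_div_cancel_left a hw0).symm
        rw [this, ← Nat.add_mul_div_left x R hw0]
        exact Nat.div_le_div_right hx
      -- choose the position of u
      obtain ⟨p, hp1, hp2, hp3⟩ : ∃ p, p ≤ c ∧ w * h u + (w - 1) ≤ p + lag u ∧
          (u < M u → ¬ FB p (P (M u))) := by
        by_cases hbl : u < M u ∧ Blocked R w FB h M u
        · have h5 := hc5 hbl.1 hbl.2
          obtain ⟨p, h1, h2, h3⟩ := hFB (P (M u)) c (by omega)
          exact ⟨p, h2, by omega, fun _ => h3⟩
        · refine ⟨c, le_rfl, by omega, fun hlt hfb => hbl ⟨hlt, c, P (M u), hfb, ?_, ?_, ?_, ?_⟩⟩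
          · exact hdiv1 _ _ hc1
          · exact hdiv2 _ _ (by omega)
          · exact hdiv1 _ _ (hP2 (M u) (by rw [Fin.lt_def] at hlt; omega)).1
          · refine hdiv2 _ _ ?_
            have h6 := (hP2 (M u) (by rw [Fin.lt_def] at hlt; omega)).2
            have h7 := hlagle (M u)
            omega
      refine ⟨Function.update P u p, ?_, ?_, ?_⟩
      · intro a b ha hab
        by_cases hau : a = u
        · subst hau
          rw [Function.update_self, Function.update_of_ne (ne_of_gt hab)]
          exact lt_of_le_of_lt hp1 (hc2 b hab)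
        · have ha' : n - m ≤ a.val := by
            have : a.val ≠ u.val := fun e => hau (Fin.ext e)
            simp only [hu] at this
            omega
          have hbu : b ≠ u := by
            intro e
            rw [e, Fin.lt_def] at hab
            omega
          rw [Function.update_of_ne hau, Function.update_of_ne hbu]
          exact hP1 a b ha' hab
      · intro a ha
        by_cases hau : a = u
        · subst hau
          rw [Function.update_self]
          exact ⟨hp1.trans hc1, hp2⟩
        · have ha' : n - m ≤ a.val := by
            have : a.val ≠ u.val := fun e => hau (Fin.ext e)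
            simp only [hu] at this
            omega
          rw [Function.update_of_ne hau]
          exact hP2 a ha'
      · intro a ha hMa
        have hval : ∀ a : Fin n, n - (m + 1) ≤ a.val → a ≠ u → n - m ≤ a.val := by
          intro a ha hau
          have : a.val ≠ u.val := fun e => hau (Fin.ext e)
          simp only [hu] at this
          omega
        by_cases hau : a = u
        · rw [hau] at hMa ⊢
          have hMu := hM' u
          rw [Function.update_self, Function.update_of_ne hMu]
          refine hp3 ?_
          have := hval (M u) hMa hMu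
          rw [Fin.lt_def]; omega
        · by_cases hMau : M a = u
          · have hMu : M u = a := by rw [← hMau, hM]
            rw [hMau, Function.update_self, Function.update_of_ne hau]
            intro hfb
            have hlt : u < M u := by
              rw [hMu, Fin.lt_def]
              have := hval a ha hau
              omega
            refine hp3 hlt ?_
            rw [hMu]
            exact hsymm _ _ hfb
          · rw [Function.update_of_ne hau, Function.update_of_ne hMau]
            exact hP3 a (hval a ha hau) (hval (M a) hMa hMau)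
  obtain ⟨P, hP1, hP2, hP3⟩ := key n le_rfl
  refine ⟨P, fun u v huv => hP1 u v (by omega) huv, fun u => ?_, fun u => hP3 u (by omega) (by omega)⟩
  have h1 := (hP2 u (by omega)).1
  have hw0 : 0 < w := by omega
  rw [Nat.mul_add, Nat.mul_one]
  omega

end greedy

end Pool.Agent.H161R3.OR2
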