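import Pool.Agent.H161R3.ORShift

set_option autoImplicit false

namespace Pool.Agent.H161R3.OR

open Finset

/-- The embedding theorem: a graph whose complement has small degrees contains every quasirandom
ordered matching with few parts. -/
theorem embed {n N : ℕ} (k R q T Λ X : ℕ) (G : SimpleGraph (Fin N)) (M : Fin n → Fin n)
    (hM : ∀ u, M (M u) = u) (hM' : ∀ u, M u ≠ u) (part : Fin n → ℕ) (hpart : ∀ u, part u < k)
    (hmono : Monotone part) (hne : ∀ u, part (M u) ≠ part u)
    (hq0 : 0 < q) (hq : n ≤ R * R * q) (hN : T * (k * R + 1) * q ≤ N)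
    (hT : R + n + X + k * X + k * (R + 1) ≤ T)
    (hdeg : ∀ x : Fin N, ∀ S : Finset (Fin N), (∀ y ∈ S, x ≠ y ∧ ¬ G.Adj x y) → S.card < n)
    (hΛ : ∀ d, (LamSet M R d).card ≤ Λ)
    (hcount : k * k * (T * (((k * R + 1) * (R + 1) * (R * R * (R + 1))) *
      (R * (((k * R + 1) * (R + 1) * (R * R * (R + 1))) * (Λ * 1))))) < X * X) :
    ∃ f : Fin n → Fin N, StrictMono f ∧ ∀ u, G.Adj (f u) (f (M u)) := by
  classical
  set w := k * R + 1 with hw
  have hw0 : 0 < w := by omega
  -- full blue pairs
  let FB : ℕ → ℕ → Prop := fun p p' => p < T * w ∧ p' < T * w ∧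
    ∀ x y : Fin N, x.val / q = p → y.val / q = p' → ¬ G.Adj x y
  have hsymm : ∀ p p', FB p p' → FB p' p := by
    rintro p p' ⟨h1, h2, h3⟩
    exact ⟨h2, h1, fun x y hx hy hadj => h3 y x hy hx hadj.symm⟩
  let Fs : ℕ → Finset ℕ := fun p => (Finset.range (T * w)).filter fun p' => FB p p'
  have hvN : ∀ p j, p < T * w → j < q → p * q + j < N := by
    intro p j hp hj
    have : (p + 1) * q ≤ T * w * q := Nat.mul_le_mul_right _ hp
    rw [Nat.add_mul, Nat.one_mul] at this
    omega
  have hFs : ∀ p, (Fs p).card ≤ R * R := by
    intro p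
    by_cases hp : p < T * w
    · by_contra hlt
      push Not at hlt
      -- the vertex
      let x0 : Fin N := ⟨p * q, by simpa using hvN p 0 hp hq0⟩
      have hx0 : x0.val / q = p := Nat.mul_div_cancel _ hq0
      -- remove p itself
      let Fs' := (Fs p).erase p
      let S : Finset (Fin N) := Finset.univ.filter fun y => y.val / q ∈ Fs'
      have hS1 : ∀ y ∈ S, x0 ≠ y ∧ ¬ G.Adj x0 y := by
        intro y hy
        simp only [S, Finset.mem_filter, Finset.mem_univ, true_and, Fs', Finset.mem_erase, Fs,
          Finset.mem_range] at hy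
        obtain ⟨h1, -, h2⟩ := hy
        refine ⟨?_, h2.2.2 x0 y hx0 rfl⟩
        rintro rfl
        exact h1 hx0
      have hS2 : Fs'.card * q ≤ S.card := by
        have hinj : ((Fs' ×ˢ Finset.range q).image fun z : ℕ × ℕ => z.1 * q + z.2).card = Fs'.card * q := by
          rw [Finset.card_image_of_injOn, Finset.card_product, Finset.card_range]
          rintro ⟨a, b⟩ h1 ⟨c, d⟩ h2 h3
          simp only [Finset.coe_product, Set.mem_prod, Finset.mem_coe, Finset.mem_range] at h1 h2
          simp only at h3
          have e1 : (a * q + b) / q = a := by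
            rw [Nat.add_comm, Nat.add_mul_div_right _ _ hq0, Nat.div_eq_of_lt h1.2, zero_add]
          have e2 : (c * q + d) / q = c := by
            rw [Nat.add_comm, Nat.add_mul_div_right _ _ hq0, Nat.div_eq_of_lt h2.2, zero_add]
          have e3 : a = c := by rw [← e1, h3, e2]
          subst e3
          have : b = d := by omega
          rw [this]
        rw [← hinj, ← Finset.card_image_of_injective S Fin.val_injective]
        apply Finset.card_le_card
        intro z hz
        simp only [Finset.mem_image, Finset.mem_product, Finset.mem_range] at hz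
        obtain ⟨⟨a, b⟩, ⟨h1, h2⟩, rfl⟩ := hz
        have ha : a < T * w := by
          have := Finset.mem_of_mem_erase h1
          simp only [Fs, Finset.mem_filter, Finset.mem_range] at this
          exact this.1
        rw [Finset.mem_image]
        refine ⟨⟨a * q + b, hvN a b ha h2⟩, ?_, rfl⟩
        simp only [S, Finset.mem_filter, Finset.mem_univ, true_and]
        have e1 : (a * q + b) / q = a := by
          rw [Nat.add_comm, Nat.add_mul_div_right _ _ hq0, Nat.div_eq_of_lt h2, zero_add]
        rw [e1]; exact h1
      have hS3 := hdeg x0 S hS1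
      have hS4 : (Fs p).card - 1 ≤ Fs'.card := Finset.pred_card_le_card_erase
      have h5 : R * R ≤ Fs'.card := by omega
      have h6 := Nat.mul_le_mul_right q h5
      omega
    · have : Fs p = ∅ := by
        apply Finset.filter_eq_empty_iff.2
        intro p' _ hfb
        exact hp hfb.1
      rw [this]; simp
  have hFB : ∀ p' c, R * R ≤ c → ∃ p, c - R * R ≤ p ∧ p ≤ c ∧ ¬ FB p p' := by
    intro p' c hc
    by_contra hcon
    push Not at hcon
    have hsub : Finset.Icc (c - R * R) c ⊆ Fs p' := by
      intro p hp
      rw [Finset.mem_Icc] at hp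
      have := hcon p hp.1 hp.2
      simp only [Fs, Finset.mem_filter, Finset.mem_range]
      exact ⟨this.1, hsymm _ _ this⟩
    have h1 := Finset.card_le_card hsub
    have h2 := hFs p'
    rw [Nat.card_Icc] at h1
    omega
  -- the relation W
  let W : ℕ → Finset ℕ := fun r => (Finset.Icc (w * (r - R)) (w * r + (w - 1))).biUnion fun p =>
    (Fs p).biUnion fun p' => Finset.Icc (p' / w) (p' / w + R)
  have hW : ∀ r, (W r).card ≤ w * (R + 1) * (R * R * (R + 1)) := by
    intro r
    refine (Finset.card_biUnion_le_card_mul _ _ (R * R * (R + 1)) fun p _ => ?_).trans ?_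
    · refine (Finset.card_biUnion_le_card_mul _ _ (R + 1) fun p' _ => ?_).trans ?_
      · rw [Nat.card_Icc]; omega
      · exact Nat.mul_le_mul_right _ (hFs p)
    · refine Nat.mul_le_mul_right _ ?_
      rw [Nat.card_Icc]
      have h1 : w * r ≤ w * (r - R) + w * R := by
        rw [← Nat.mul_add]
        exact Nat.mul_le_mul_left _ (by omega)
      rw [Nat.mul_add, Nat.mul_one]
      omega
  have hTh : ∀ α β, α < X → β < X → ∀ u, home R part α β u < T := by
    intro α β hα hβ u
    have h1 : part u * β ≤ k * X := Nat.mul_le_mul (hpart u).le hβ.le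
    have h2 : part u * (R + 1) ≤ k * (R + 1) := Nat.mul_le_mul_right _ (hpart u).le
    have h3 := u.2
    unfold home
    omega
  obtain ⟨α, β, hα, hβ, hgood⟩ := exists_shift k R T _ Λ X M part hpart hne hTh W hW hΛ hcount
  have hBW : ∀ u, Blocked R w FB (home R part α β) M u →
      home R part α β (M u) ∈ W (home R part α β u) := by
    rintro u ⟨p, p', hfb, h1, h2, h3, h4⟩
    simp only [W, Finset.mem_biUnion]
    refine ⟨p, ?_, p', ?_, ?_⟩
    · rw [Finset.mem_Icc]
      constructor
      · have : home R part α β u - R ≤ p / w := Nat.sub_le_iff_le_add.2 h2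
        refine (Nat.mul_le_mul_left w this).trans ?_
        exact Nat.mul_div_le p w
      · have : p < w * (p / w + 1) := Nat.lt_mul_div_succ p hw0
        have h5 : w * (p / w + 1) ≤ w * (home R part α β u + 1) :=
          Nat.mul_le_mul_left _ (Nat.succ_le_succ h1)
        rw [Nat.mul_add w (home R part α β u), Nat.mul_one] at h5
        omega
    · simp only [Fs, Finset.mem_filter, Finset.mem_range]
      exact ⟨hfb.2.1, hfb⟩
    · rw [Finset.mem_Icc]; exact ⟨h3, h4⟩
  have hpm : ∀ u v : Fin n, v.val = u.val + 1 → part u ≤ part v := by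
    intro u v huv
    exact hmono (by rw [Fin.le_def]; omega)
  obtain ⟨P, hP1, hP2, hP3⟩ := greedy R w FB (home R part α β) M part k hw hM hM' hpart
    (fun u => by unfold home; omega)
    (fun u v huv hp => by unfold home; rw [hp]; omega)
    (fun u v huv hp => by
      have h1 : part u + 1 ≤ part v := by
        have := hpm u v huv
        omega
      have h2 : part u * β ≤ part v * β := Nat.mul_le_mul_right _ (by omega)
      have h3 : (part u + 1) * (R + 1) ≤ part v * (R + 1) := Nat.mul_le_mul_right _ h1
      rw [Nat.add_mul, Nat.one_mul] at h3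
      unfold home
      omega)
    hsymm hFB
    (fun u1 u2 h1 h2 h3 h4 h5 h6 h7 h8 => hgood u1 u2 h1 h2 h3 h4 h5 h6 (hBW u1 h7) (hBW u2 h8))
  -- positions are in range
  have hPT : ∀ u, P u < T * w := by
    intro u
    have h1 := hP2 u
    have h2 := hTh α β hα hβ u
    have h3 : w * (home R part α β u + 1) ≤ w * T := Nat.mul_le_mul_left _ h2
    rw [Nat.mul_comm T w]
    omega
  -- choose the vertices of each edge
  have hchoose : ∀ u : Fin n, ∃ xy : Fin N × Fin N, xy.1.val / q = P u ∧ xy.2.val / q = P (M u) ∧
      G.Adj xy.1 xy.2 := by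
    intro u
    have := hP3 u
    simp only [FB] at this
    push Not at this
    obtain ⟨x, y, hx, hy, hadj⟩ := this (hPT u) (hPT (M u))
    exact ⟨(x, y), hx, hy, hadj⟩
  choose e he1 he2 he3 using hchoose
  refine ⟨fun u => if u < M u then (e u).1 else (e (M u)).2, ?_, ?_⟩
  · have hdiv : ∀ u, (if u < M u then (e u).1 else (e (M u)).2).val / q = P u := by
      intro u
      by_cases h : u < M u
      · rw [if_pos h]; exact he1 u
      · rw [if_neg h, he2, hM]
    intro u v huv
    have h1 := hP1 huv
    rw [← hdiv u, ← hdiv v] at h1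
    rw [Fin.lt_def]
    by_contra hle
    push Not at hle
    have := Nat.div_le_div_right (c := q) hle
    omega
  · intro u
    simp only
    rw [hM]
    by_cases h : u < M u
    · rw [if_pos h, if_neg (not_lt.2 h.le)]
      exact he3 u
    · have h' : M u < u := lt_of_le_of_ne (not_lt.1 h) (hM' u)
      rw [if_neg h, if_pos h']
      have := he3 (M u)
      exact this.symm

end Pool.Agent.H161R3.OR
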