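import Pool.Agent.H161R3.ORTransfer
import Pool.Agent.H161R3.OREmbed

set_option autoImplicit false

namespace Pool.Agent.H161R3.OR

open Finset

/-- a clique contains an ordered copy of everything -/
lemma clique_embed {m N : ℕ} (S : Finset (Fin N)) (hS : m ≤ S.card) :
    ∃ f : Fin m → Fin N, StrictMono f ∧ ∀ i, f i ∈ S := by
  refine ⟨fun i => S.orderEmbOfFin rfl (Fin.castLE hS i), ?_, fun i => Finset.orderEmbOfFin_mem _ _ _⟩
  intro i j hij
  exact (S.orderEmbOfFin rfl).strictMono (by rw [Fin.lt_def] at hij ⊢; exact hij)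

theorem dichotomy {n N : ℕ} (k R q T Λ X : ℕ) (M : Fin n → Fin n)
    (hM : ∀ u, M (M u) = u) (hM' : ∀ u, M u ≠ u) (part : Fin n → ℕ) (hpart : ∀ u, part u < k)
    (hmono : Monotone part) (hne : ∀ u, part (M u) ≠ part u)
    (hq0 : 0 < q) (hq : n ≤ R * R * q) (hN : T * (k * R + 1) * q ≤ N)
    (hT : R + n + X + k * X + k * (R + 1) ≤ T)
    (hΛ : ∀ d, (LamSet M R d).card ≤ Λ)
    (hcount : k * k * (T * (((k * R + 1) * (R + 1) * (R * R * (R + 1))) *
      (R * (((k * R + 1) * (R + 1) * (R * R * (R + 1))) * (Λ * 1))))) < X * X)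
    (G : SimpleGraph (Fin N)) :
    (∃ f : Fin n → Fin N, StrictMono f ∧ ∀ u, G.Adj (f u) (f (M u))) ∨
    (∃ f : Fin 3 → Fin N, StrictMono f ∧ ∀ i j, i ≠ j → ¬ G.Adj (f i) (f j)) := by
  classical
  by_cases hred : ∃ S : Finset (Fin N), n ≤ S.card ∧ ∀ y ∈ S, ∀ z ∈ S, y ≠ z → G.Adj y z
  · left
    obtain ⟨S, hS, hclq⟩ := hred
    obtain ⟨f, hf, hfS⟩ := clique_embed S hS
    exact ⟨f, hf, fun u => hclq _ (hfS u) _ (hfS (M u)) fun e => hM' u (hf.injective e).symm⟩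
  by_cases htri : ∃ x y z : Fin N, x ≠ y ∧ x ≠ z ∧ y ≠ z ∧ ¬ G.Adj x y ∧ ¬ G.Adj x z ∧ ¬ G.Adj y z
  · right
    obtain ⟨x, y, z, h1, h2, h3, h4, h5, h6⟩ := htri
    have hcard : ({x, y, z} : Finset (Fin N)).card = 3 := Finset.card_eq_three.2 ⟨x, y, z, h1, h2, h3, rfl⟩
    obtain ⟨f, hf, hfS⟩ := clique_embed (m := 3) {x, y, z} hcard.ge
    refine ⟨f, hf, fun i j hij hadj => ?_⟩
    have hne' : f i ≠ f j := fun e => hij (hf.injective e)
    have hi := hfS i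
    have hj := hfS j
    simp only [Finset.mem_insert, Finset.mem_singleton] at hi hj
    rcases hi with hi | hi | hi <;> rcases hj with hj | hj | hj <;> rw [hi, hj] at hadj hne'
    · exact hne' rfl
    · exact h4 hadj
    · exact h5 hadj
    · exact h4 hadj.symm
    · exact hne' rfl
    · exact h6 hadj
    · exact h5 hadj.symm
    · exact h6 hadj.symm
    · exact hne' rfl
  · left
    refine embed k R q T Λ X G M hM hM' part hpart hmono hne hq0 hq hN hT ?_ hΛ hcount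
    intro x S hS
    by_contra hlt
    push Not at hlt
    refine hred ⟨S, hlt, fun y hy z hz hyz => ?_⟩
    by_contra hadj
    exact htri ⟨x, y, z, (hS y hy).1, (hS z hz).1, hyz, (hS y hy).2, (hS z hz).2, hadj⟩

/-- the root parameter -/
def rt (n : ℕ) : ℕ := Nat.findGreatest (fun R => R ^ 17 ≤ n) n

lemma rt_le (n : ℕ) : rt n ^ 17 ≤ n := by
  unfold rt
  exact Nat.findGreatest_spec (P := fun R => R ^ 17 ≤ n) (m := 0) (Nat.zero_le n) (by simp)

lemma rt_lt (n : ℕ) : n < (rt n + 1) ^ 17 := by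
  by_contra hle
  push Not at hle
  have h1 : rt n + 1 ≤ n := (Nat.le_self_pow (by norm_num) _).trans hle
  have h2 : rt n + 1 ≤ rt n := Nat.le_findGreatest h1 hle
  omega

lemma le_rt (n B : ℕ) (h : B ^ 17 ≤ n) : B ≤ rt n := by
  have h1 : B ≤ n := (Nat.le_self_pow (by norm_num) _).trans h
  exact Nat.le_findGreatest h1 h

/-- the counting hypothesis of the embedding theorem -/
lemma numeric (k n R : ℕ) (hR : 1 ≤ R) (hRn : R ^ 17 ≤ n)
    (hbig : 96 * (k * k) * (k + 1) ^ 3 < R ^ 2) :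
    k * k * ((R + n + n + k * n + k * (R + 1)) * (((k * R + 1) * (R + 1) * (R * R * (R + 1))) *
      (R * (((k * R + 1) * (R + 1) * (R * R * (R + 1))) * (((R + 1) * R ^ 3) * 1))))) < n * n := by
  have hRn1 : R ≤ n := (Nat.le_self_pow (by norm_num) _).trans hRn
  have hn0 : 0 < n := by omega
  have h1 : R + n + n + k * n + k * (R + 1) ≤ 3 * (k + 1) * n := by
    have : k * (R + 1) ≤ k * (2 * n) := Nat.mul_le_mul_left _ (by omega)
    nlinarith
  have h2 : (k * R + 1) * (R + 1) * (R * R * (R + 1)) ≤ 4 * (k + 1) * R ^ 5 := by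
    have e1 : k * R + 1 ≤ (k + 1) * R := by nlinarith
    have e2 : R + 1 ≤ 2 * R := by omega
    calc (k * R + 1) * (R + 1) * (R * R * (R + 1)) ≤ ((k + 1) * R) * (2 * R) * (R * R * (2 * R)) := by
          gcongr
      _ = 4 * (k + 1) * R ^ 5 := by ring
  have h3 : (R + 1) * R ^ 3 ≤ 2 * R ^ 4 := by
    have : R + 1 ≤ 2 * R := by omega
    calc (R + 1) * R ^ 3 ≤ (2 * R) * R ^ 3 := Nat.mul_le_mul_right _ this
      _ = 2 * R ^ 4 := by ring
  calc k * k * ((R + n + n + k * n + k * (R + 1)) * (((k * R + 1) * (R + 1) * (R * R * (R + 1))) *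
      (R * (((k * R + 1) * (R + 1) * (R * R * (R + 1))) * (((R + 1) * R ^ 3) * 1)))))
      ≤ k * k * ((3 * (k + 1) * n) * ((4 * (k + 1) * R ^ 5) *
      (R * ((4 * (k + 1) * R ^ 5) * ((2 * R ^ 4) * 1))))) := by gcongr
    _ = (96 * (k * k) * (k + 1) ^ 3) * (n * R ^ 15) := by ring
    _ < R ^ 2 * (n * R ^ 15) := by
        apply Nat.mul_lt_mul_of_pos_right hbig
        positivity
    _ = n * R ^ 17 := by ring
    _ ≤ n * n := Nat.mul_le_mul_left _ hRn

/-- quasirandom matchings have small ordered Ramsey number versus the triangle -/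
theorem good_ramsey (k n R : ℕ) (hR : 1 ≤ R) (hRn : R ^ 17 ≤ n)
    (hbig : 96 * (k * k) * (k + 1) ^ 3 < R ^ 2) (M : Fin n → Fin n) (hM : IsInv M)
    (hP : HasPart k M) (hΛ : ∀ d, (LamSet M R d).card ≤ (R + 1) * R ^ 3) :
    ∃ N : ℕ, N * R ≤ 6 * (k + 1) ^ 2 * (n * n) ∧ ∀ G : SimpleGraph (Fin N),
    (∃ f : Fin n → Fin N, StrictMono f ∧ ∀ u, G.Adj (f u) (f (M u))) ∨
    (∃ f : Fin 3 → Fin N, StrictMono f ∧ ∀ i j, i ≠ j → ¬ G.Adj (f i) (f j)) := by
  obtain ⟨P, h1, h2, h3⟩ := hP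
  have hRn1 : R ≤ n := (Nat.le_self_pow (by norm_num) _).trans hRn
  have hRn2 : R * R ≤ n := by
    calc R * R = R ^ 2 := by ring
      _ ≤ R ^ 17 := Nat.pow_le_pow_right hR (by norm_num)
      _ ≤ n := hRn
  have hRR : 0 < R * R := Nat.mul_pos hR hR
  refine ⟨(R + n + n + k * n + k * (R + 1)) * (k * R + 1) * (n / (R * R) + 1), ?_, fun G =>
    dichotomy k R (n / (R * R) + 1) (R + n + n + k * n + k * (R + 1)) ((R + 1) * R ^ 3) n M hM.1 hM.2
      P h2 h1 h3 (Nat.succ_pos _) (Nat.lt_mul_div_succ n hRR).le le_rfl le_rfl hΛ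
      (numeric k n R hR hRn hbig) G⟩
  have e1 : R + n + n + k * n + k * (R + 1) ≤ 3 * (k + 1) * n := by
    have : k * (R + 1) ≤ k * (2 * n) := Nat.mul_le_mul_left _ (by omega)
    nlinarith
  have e2 : k * R + 1 ≤ (k + 1) * R := by nlinarith
  have e3 : (n / (R * R) + 1) * (R * R) ≤ 2 * n := by
    have := Nat.div_mul_le_self n (R * R)
    rw [Nat.add_mul, Nat.one_mul]
    omega
  calc (R + n + n + k * n + k * (R + 1)) * (k * R + 1) * (n / (R * R) + 1) * R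
      ≤ (3 * (k + 1) * n) * ((k + 1) * R) * (n / (R * R) + 1) * R := by gcongr
    _ = 3 * (k + 1) ^ 2 * n * ((n / (R * R) + 1) * (R * R)) := by ring
    _ ≤ 3 * (k + 1) ^ 2 * n * (2 * n) := Nat.mul_le_mul_left _ e3
    _ = 6 * (k + 1) ^ 2 * (n * n) := by ring

lemma choose_bound (R t : ℕ) (hRt : 2 * t ≤ R ^ 3) :
    R ^ (3 * t) ≤ 2 ^ t * t.factorial * (R ^ 3).choose t := by
  have h1 : (R ^ 3 + 1 - t) ^ t ≤ t.factorial * (R ^ 3).choose t := by
    have h3 := Nat.pow_le_choose (α := ℚ) t (R ^ 3)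
    rw [div_le_iff₀ (by positivity)] at h3
    have h2 : (((R ^ 3 + 1 - t) ^ t : ℕ) : ℚ) ≤ ((t.factorial * (R ^ 3).choose t : ℕ) : ℚ) := by
      rw [Nat.cast_mul, mul_comm]
      exact_mod_cast h3
    exact_mod_cast h2
  have h2 : R ^ 3 ≤ 2 * (R ^ 3 + 1 - t) := by omega
  calc R ^ (3 * t) = (R ^ 3) ^ t := by rw [pow_mul]
    _ ≤ (2 * (R ^ 3 + 1 - t)) ^ t := Nat.pow_le_pow_left h2 _
    _ = 2 ^ t * (R ^ 3 + 1 - t) ^ t := by rw [Nat.mul_pow]
    _ ≤ 2 ^ t * (t.factorial * (R ^ 3).choose t) := Nat.mul_le_mul_left _ h1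
    _ = _ := by ring

lemma bad_numeric (k n R t a e c F D : ℕ) (hR : 1 ≤ R) (hn : 1 ≤ n)
    (key : a * c ≤ (n + 1) ^ k * ((2 * n * (R + 1)) * ((16 * R) ^ t * (k * (e * n ^ k)))))
    (hc : R ^ (3 * t) ≤ F * c) (hnR : n ≤ D * R ^ 17) (s : ℕ)
    (hs : 17 * (2 * k + 1) + (t + 1) + 2 = s) (hst : s = 3 * t) :
    a * R ^ 2 ≤ (F * 2 ^ k * 4 * 16 ^ t * k * D ^ (2 * k + 1)) * e := by
  have e2 : a * R ^ (3 * t) ≤ (F * 2 ^ k * 4 * 16 ^ t * k *
      D ^ (2 * k + 1)) * e * (R ^ (17 * (2 * k + 1)) * R ^ (t + 1)) := by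
    calc a * R ^ (3 * t) ≤ a * (F * c) := Nat.mul_le_mul_left _ hc
      _ = F * (a * c) := by ring
      _ ≤ F * ((n + 1) ^ k * ((2 * n * (R + 1)) * ((16 * R) ^ t * (k * (e * n ^ k))))) :=
            Nat.mul_le_mul_left _ key
      _ ≤ F * ((2 * n) ^ k * ((2 * n * (2 * R)) * ((16 * R) ^ t * (k * (e * n ^ k))))) := by
          have h1 : n + 1 ≤ 2 * n := by omega
          have h2 : R + 1 ≤ 2 * R := by omega
          gcongr
      _ = F * 2 ^ k * 4 * 16 ^ t * k * e * R ^ (t + 1) * n ^ (2 * k + 1) := by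
          rw [Nat.mul_pow, Nat.mul_pow, pow_succ n (2 * k), pow_succ R t, two_mul k, pow_add n k k]; ring
      _ ≤ F * 2 ^ k * 4 * 16 ^ t * k * e * R ^ (t + 1) *
            (D * R ^ 17) ^ (2 * k + 1) := Nat.mul_le_mul_left _ (Nat.pow_le_pow_left hnR _)
      _ = _ := by
          rw [Nat.mul_pow, ← pow_mul R 17]
          generalize R ^ (17 * (2 * k + 1)) = z
          generalize D ^ (2 * k + 1) = z'
          generalize R ^ (t + 1) = z''
          ring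
  rw [← hst, ← hs, pow_add, pow_add] at e2
  have hpos : 0 < R ^ (17 * (2 * k + 1)) * R ^ (t + 1) := Nat.mul_pos (Nat.pow_pos hR) (Nat.pow_pos hR)
  generalize R ^ (17 * (2 * k + 1)) * R ^ (t + 1) = z at *
  generalize F * 2 ^ k * 4 * 16 ^ t * k * D ^ (2 * k + 1) = w at *
  have e4 : z * (a * R ^ 2) ≤ z * (w * e) := by
    calc z * (a * R ^ 2) = a * (z * R ^ 2) := by ring
      _ ≤ w * e * z := e2
      _ = z * (w * e) := by ring
  exact Nat.le_of_mul_le_mul_left e4 hpos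

/-- the bad fraction -/
theorem bad_fraction_aux (k N R t : ℕ) (hk : 1 ≤ k) (ht : t = 17 * k + 10) (hN : 2 * k + 8 * t ≤ N)
    (hnR : N + 1 < (R + 1) ^ 17) (hRt : 2 * t ≤ R)
    (A : Finset (Fin (N + 1) → Fin (N + 1))) (hA : ∀ M ∈ A, M ∈ EE N k ∧
      ∃ d : ℤ, (R + 1) * R ^ 3 < (LamSet M R d).card) :
    A.card * R ^ 2 ≤ ((2 ^ t * t.factorial) * 2 ^ k * 4 * 16 ^ t * k *
      (2 ^ 17) ^ (2 * k + 1)) * (EE N k).card := by
  have hR1 : 1 ≤ R := by omega
  have hR3 : R ≤ R ^ 3 := Nat.le_self_pow (by norm_num) _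
  have hn2 : N + 1 ≤ 2 ^ 17 * R ^ 17 := by
    calc N + 1 ≤ (R + 1) ^ 17 := hnR.le
      _ ≤ (2 * R) ^ 17 := Nat.pow_le_pow_left (by omega) _
      _ = 2 ^ 17 * R ^ 17 := by rw [Nat.mul_pow]
  exact bad_numeric k (N + 1) R t A.card (EE N k).card ((R ^ 3).choose t) (2 ^ t * t.factorial)
    (2 ^ 17) hR1 (Nat.succ_pos _) (bad_exact hk (by omega) R t (R ^ 3) (by omega) A hA)
    (choose_bound R t (by omega)) hn2 (3 * t) (by omega) rfl

/-- the bad fraction -/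
theorem bad_fraction (k : ℕ) (hk : 1 ≤ k) : ∃ C B : ℕ, ∀ N : ℕ, B ≤ N →
    ∀ A : Finset (Fin (N + 1) → Fin (N + 1)), (∀ M ∈ A, M ∈ EE N k ∧
      ∃ d : ℤ, (rt (N + 1) + 1) * rt (N + 1) ^ 3 < (LamSet M (rt (N + 1)) d).card) →
    A.card * rt (N + 1) ^ 2 ≤ C * (EE N k).card := by
  refine ⟨(2 ^ (17 * k + 10) * (17 * k + 10).factorial) * 2 ^ k * 4 * 16 ^ (17 * k + 10) * k *
    (2 ^ 17) ^ (2 * k + 1), 2 * k + 8 * (17 * k + 10) + (2 * (17 * k + 10)) ^ 17, ?_⟩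
  intro N hN A hA
  exact bad_fraction_aux k N (rt (N + 1)) (17 * k + 10) hk rfl ((Nat.le_add_right _ _).trans hN)
    (rt_lt _) (le_rt _ _ ((Nat.le_add_left _ _).trans (hN.trans (Nat.le_succ _)))) A hA

/-- there are matchings -/
theorem exact_pos {N k : ℕ} (hk : 2 ≤ k) (hN : 2 * k ≤ N) (hodd : N % 2 = 1) : 0 < (EE N k).card := by
  classical
  have h1 := transfer (N := N) (k := k) (by omega) hN
  have h2 : 0 < (NN N k).card := by
    rw [Finset.card_pos]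
    refine ⟨fun x => Fin.rev x, ?_⟩
    simp only [NN, Finset.mem_filter, Finset.mem_univ, true_and]
    refine ⟨⟨fun u => Fin.rev_rev u, fun u h => ?_⟩, fun x => if 2 * x.val < N + 1 then 0 else 1,
      ?_, ?_, ?_⟩
    · have := congrArg Fin.val h
      rw [Fin.val_rev] at this
      omega
    · intro x y hxy
      rw [Fin.le_def] at hxy
      simp only
      split_ifs <;> omega
    · intro x
      simp only
      split_ifs <;> omega
    · intro x
      simp only [Fin.val_rev]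
      have := x.2
      split_ifs <;> omega
  by_contra h3
  have h4 : (EE N k).card = 0 := by omega
  rw [h4] at h1
  simp only [Nat.zero_mul, Nat.mul_zero] at h1
  omega

end Pool.Agent.H161R3.OR
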