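import Pool.Agent.H161R3.OQMoment
import Pool.Agent.H161R3.OQEmbed
import Pool.Agent.H161R3.ORMain

set_option autoImplicit false

namespace Pool.Agent.H161R3.OR2

open Finset Pool.Agent.H161R3.OR

theorem dichotomy {n N : ℕ} (R m q T Λ X X' : ℕ) (M : Fin n → Fin n)
    (hM : ∀ u, M (M u) = u) (hM' : ∀ u, M u ≠ u) (hm : R < m)
    (hq0 : 0 < q) (hq : n ≤ R * R * q) (hN : T * (4 * R + 1) * q ≤ N)
    (hT : R + n + X + (n / m) * X' ≤ T)
    (hshort : ∀ u1 u2 : Fin n, u1 < u2 → u2.val ≤ u1.val + R → u1 < M u1 → u2 < M u2 →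
      (M u1).val < u1.val + m → (M u2).val < u2.val + m → False)
    (hΛ : ∀ g d : ℤ, -(T : ℤ) ≤ g → g < T → -(T : ℤ) ≤ d → d < T → (LamY (YY m g d) M R).card ≤ Λ)
    (hcount : T * (((4 * R + 1) * (R + 1) * (R * R * (R + 1))) *
      (R * (((4 * R + 1) * (R + 1) * (R * R * (R + 1))) * (Λ * 1)))) < X * X')
    (G : SimpleGraph (Fin N)) :
    (∃ f : Fin n → Fin N, StrictMono f ∧ ∀ u, G.Adj (f u) (f (M u))) ∨
    (∃ f : Fin 3 → Fin N, StrictMono f ∧ ∀ i j, i ≠ j → ¬ G.Adj (f i) (f j)) := by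
  classical
  by_cases hred : ∃ S : Finset (Fin N), n ≤ S.card ∧ ∀ y ∈ S, ∀ z ∈ S, y ≠ z → G.Adj y z
  · left
    obtain ⟨S, hS, hclq⟩ := hred
    obtain ⟨f, hf, hfS⟩ := clique_embed S hS
    exact ⟨f, hf, fun u => hclq _ (hfS u) _ (hfS (M u)) fun e => hM' u (hf.injective e).symm⟩
  by_cases htri : ∃ x y z : Fin N, x ≠ y ∧ x ≠ z ∧ y ≠ z ∧ ¬ G.Adj x y ∧ ¬ G.Adj x z ∧ ¬ G.Adj y z
  · right
    obtain ⟨x, y, z, h1, h2, h3, h4, h5, h6⟩ := htri
    have hcard : ({x, y, z} : Finset (Fin N)).card = 3 := Finset.card_eq_three.2 ⟨x, y, z, h1, h2, h3, rfl⟩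
    obtain ⟨f, hf, hfS⟩ := clique_embed (m := 3) {x, y, z} hcard.ge
    refine ⟨f, hf, fun i j hij hadj => ?_⟩
    have hne' : f i ≠ f j := fun e => hij (hf.injective e)
    have hi := hfS i
    have hj := hfS j
    simp only [Finset.mem_insert, Finset.mem_singleton] at hi hj
    rcases hi with hi | hi | hi <;> rcases hj with hj | hj | hj <;> rw [hi, hj] at hadj hne'
    · exact hne' rfl
    · exact h4 hadj
    · exact h5 hadj
    · exact h4 hadj.symm
    · exact hne' rfl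
    · exact h6 hadj
    · exact h5 hadj.symm
    · exact h6 hadj.symm
    · exact hne' rfl
  · left
    refine embed R m q T Λ X X' G M hM hM' hm hq0 hq hN hT ?_ hshort hΛ hcount
    intro x S hS
    by_contra hlt
    push Not at hlt
    refine hred ⟨S, hlt, fun y hy z hz hyz => ?_⟩
    by_contra hadj
    exact htri ⟨x, y, z, (hS y hy).1, (hS z hz).1, hyz, (hS y hy).2, (hS z hz).2, hadj⟩

/-- the root parameter -/
def rt (n : ℕ) : ℕ := Nat.findGreatest (fun R => R ^ 34 ≤ n) n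

lemma rt_le (n : ℕ) : rt n ^ 34 ≤ n := by
  unfold rt
  exact Nat.findGreatest_spec (P := fun R => R ^ 34 ≤ n) (m := 0) (Nat.zero_le n) (by simp)

lemma rt_lt (n : ℕ) : n < (rt n + 1) ^ 34 := by
  by_contra hle
  push Not at hle
  have h1 : rt n + 1 ≤ n := (Nat.le_self_pow (by norm_num) _).trans hle
  have h2 : rt n + 1 ≤ rt n := Nat.le_findGreatest h1 hle
  omega

lemma le_rt (n B : ℕ) (h : B ^ 34 ≤ n) : B ≤ rt n := by
  have h1 : B ≤ n := (Nat.le_self_pow (by norm_num) _).trans h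
  exact Nat.le_findGreatest h1 h

lemma T_le (n R : ℕ) (hRn : R ≤ n) : R + n + n + (n / R ^ 16) * R ^ 16 ≤ 4 * n := by
  have := Nat.div_mul_le_self n (R ^ 16)
  omega

/-- the counting hypothesis of the embedding theorem -/
lemma numeric (n R : ℕ) (hR : 3200 < R) (hRn : R ^ 34 ≤ n) :
    (R + n + n + (n / R ^ 16) * R ^ 16) * (((4 * R + 1) * (R + 1) * (R * R * (R + 1))) *
      (R * (((4 * R + 1) * (R + 1) * (R * R * (R + 1))) * (((R + 1) * R ^ 3) * 1)))) < n * R ^ 16 := by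
  have hR1 : 1 ≤ R := by omega
  have hRn1 : R ≤ n := (Nat.le_self_pow (by norm_num) _).trans hRn
  have h1 := T_le n R hRn1
  have h2 : (4 * R + 1) * (R + 1) * (R * R * (R + 1)) ≤ 20 * R ^ 5 := by
    calc (4 * R + 1) * (R + 1) * (R * R * (R + 1)) ≤ (5 * R) * (2 * R) * (R * R * (2 * R)) := by
          have e1 : 4 * R + 1 ≤ 5 * R := by omega
          have e2 : R + 1 ≤ 2 * R := by omega
          gcongr
      _ = 20 * R ^ 5 := by ring
  have h3 : (R + 1) * R ^ 3 ≤ 2 * R ^ 4 := by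
    have : R + 1 ≤ 2 * R := by omega
    calc (R + 1) * R ^ 3 ≤ (2 * R) * R ^ 3 := Nat.mul_le_mul_right _ this
      _ = 2 * R ^ 4 := by ring
  have hn0 : 0 < n := by omega
  calc (R + n + n + (n / R ^ 16) * R ^ 16) * (((4 * R + 1) * (R + 1) * (R * R * (R + 1))) *
      (R * (((4 * R + 1) * (R + 1) * (R * R * (R + 1))) * (((R + 1) * R ^ 3) * 1))))
      ≤ (4 * n) * ((20 * R ^ 5) * (R * ((20 * R ^ 5) * ((2 * R ^ 4) * 1)))) := by gcongr
    _ = 3200 * (n * R ^ 15) := by ring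
    _ < R * (n * R ^ 15) := by
        apply Nat.mul_lt_mul_of_pos_right hR
        positivity
    _ = n * R ^ 16 := by ring

/-- the index set -/
noncomputable def II (n : ℕ) : Finset (ℤ × ℤ) :=
  Finset.Ico (-(4 * n : ℤ)) (4 * n) ×ˢ Finset.Ico (-(4 * n : ℤ)) (4 * n)

lemma II_card (n : ℕ) : (II n).card = 64 * (n * n) := by
  unfold II
  rw [Finset.card_product, Int.card_Ico]
  have : (4 * (n : ℤ) - -(4 * n : ℤ)).toNat = 8 * n := by omega
  rw [this]; ring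

/-- no two close short edges -/
def ShortBad {n : ℕ} (R m : ℕ) (M : Fin n → Fin n) : Prop :=
  ∃ u1 u2 : Fin n, u1 < u2 ∧ u2.val ≤ u1.val + R ∧ u1 < M u1 ∧ u2 < M u2 ∧
      (M u1).val < u1.val + m ∧ (M u2).val < u2.val + m

/-- large class -/
def LamBad {n : ℕ} (R : ℕ) (M : Fin n → Fin n) : Prop :=
  ∃ i ∈ II n, (R + 1) * R ^ 3 < (LamY (YY (R ^ 16) i.1 i.2) M R).card

/-- quasirandom matchings have small ordered Ramsey number versus the triangle -/
theorem good_ramsey (n R : ℕ) (hR : 3200 < R) (hRn : R ^ 34 ≤ n) (M : Fin n → Fin n) (hM : IsInv M)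
    (hs : ¬ ShortBad R (R ^ 16) M) (hl : ¬ LamBad R M) :
    ∃ N : ℕ, N * R ≤ 40 * (n * n) ∧ ∀ G : SimpleGraph (Fin N),
    (∃ f : Fin n → Fin N, StrictMono f ∧ ∀ u, G.Adj (f u) (f (M u))) ∨
    (∃ f : Fin 3 → Fin N, StrictMono f ∧ ∀ i j, i ≠ j → ¬ G.Adj (f i) (f j)) := by
  have hR1 : 1 ≤ R := by omega
  have hRn1 : R ≤ n := (Nat.le_self_pow (by norm_num) _).trans hRn
  have hRn2 : R * R ≤ n := by
    calc R * R = R ^ 2 := by ring
      _ ≤ R ^ 34 := Nat.pow_le_pow_right hR1 (by norm_num)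
      _ ≤ n := hRn
  have hRR : 0 < R * R := Nat.mul_pos hR1 hR1
  have hT := T_le n R hRn1
  have hm : R < R ^ 16 := by
    calc R = R * 1 := (Nat.mul_one R).symm
      _ < R * R ^ 15 := Nat.mul_lt_mul_of_pos_left (Nat.one_lt_pow (by norm_num) (by omega)) (by omega)
      _ = R ^ 16 := by ring
  refine ⟨(R + n + n + (n / R ^ 16) * R ^ 16) * (4 * R + 1) * (n / (R * R) + 1), ?_, fun G =>
    dichotomy R (R ^ 16) (n / (R * R) + 1) (R + n + n + (n / R ^ 16) * R ^ 16) ((R + 1) * R ^ 3) n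
      (R ^ 16) M hM.1 hM.2 hm (Nat.succ_pos _) (Nat.lt_mul_div_succ n hRR).le le_rfl le_rfl ?_ ?_
      (numeric n R hR hRn) G⟩
  · have e3 : (n / (R * R) + 1) * (R * R) ≤ 2 * n := by
      have := Nat.div_mul_le_self n (R * R)
      rw [Nat.add_mul, Nat.one_mul]
      omega
    calc (R + n + n + (n / R ^ 16) * R ^ 16) * (4 * R + 1) * (n / (R * R) + 1) * R
        ≤ (4 * n) * (5 * R) * (n / (R * R) + 1) * R := by
          have e1 : 4 * R + 1 ≤ 5 * R := by omega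
          gcongr
      _ = 20 * n * ((n / (R * R) + 1) * (R * R)) := by ring
      _ ≤ 20 * n * (2 * n) := Nat.mul_le_mul_left _ e3
      _ = 40 * (n * n) := by ring
  · intro u1 u2 h1 h2 h3 h4 h5 h6
    exact hs ⟨u1, u2, h1, h2, h3, h4, h5, h6⟩
  · intro g d hg1 hg2 hd1 hd2
    by_contra hlt
    push Not at hlt
    refine hl ⟨(g, d), ?_, hlt⟩
    unfold II
    have hT' : ((R + n + n + (n / R ^ 16) * R ^ 16 : ℕ) : ℤ) ≤ 4 * n := by exact_mod_cast hT
    rw [Finset.mem_product, Finset.mem_Ico, Finset.mem_Ico]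
    simp only
    refine ⟨⟨?_, ?_⟩, ?_, ?_⟩ <;> linarith

/-- all matchings -/
noncomputable def AM (n : ℕ) : Finset (Fin n → Fin n) := MP (fun u : Fin n => u.val)

lemma mem_AM {n : ℕ} (M : Fin n → Fin n) : M ∈ AM n ↔ IsInv M := by
  unfold AM MP
  simp only [Finset.mem_filter, Finset.mem_univ, true_and]
  constructor
  · intro h; exact h.1
  · intro h
    exact ⟨h, fun u e => h.2 u (Fin.ext e)⟩

lemma bad1_numeric (n R a c F p t D : ℕ) (hR : 1 ≤ R) (hnR : n ≤ D * R ^ 34)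
    (key : a * c ≤ (64 * (n * n) * (R + 1)) * ((16 * R) ^ t * p)) (hc : R ^ (3 * t) ≤ F * c)
    (hs : 34 * 2 + (t + 1) + 1 = 3 * t) :
    a * R ≤ (F * 64 * 2 * 16 ^ t * D ^ 2) * p := by
  have e2 : a * R ^ (3 * t) ≤ (F * 64 * 2 * 16 ^ t * D ^ 2) * p * (R ^ (34 * 2) * R ^ (t + 1)) := by
    calc a * R ^ (3 * t) ≤ a * (F * c) := Nat.mul_le_mul_left _ hc
      _ = F * (a * c) := by ring
      _ ≤ F * ((64 * (n * n) * (R + 1)) * ((16 * R) ^ t * p)) := Nat.mul_le_mul_left _ key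
      _ ≤ F * ((64 * ((D * R ^ 34) * (D * R ^ 34)) * (2 * R)) * ((16 * R) ^ t * p)) := by
          have h2 : R + 1 ≤ 2 * R := by omega
          gcongr
      _ = _ := by
          rw [Nat.mul_pow 16 R t, pow_mul R 34 2, pow_succ R t]
          generalize R ^ 34 = z
          generalize R ^ t = z'
          generalize 16 ^ t = z''
          ring
  rw [← hs, pow_add, pow_add, pow_one] at e2
  have hpos : 0 < R ^ (34 * 2) * R ^ (t + 1) := Nat.mul_pos (Nat.pow_pos hR) (Nat.pow_pos hR)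
  generalize R ^ (34 * 2) * R ^ (t + 1) = z at *
  generalize F * 64 * 2 * 16 ^ t * D ^ 2 = w at *
  have e4 : z * (a * R) ≤ z * (w * p) := by
    calc z * (a * R) = a * (z * R) := by ring
      _ ≤ w * p * z := e2
      _ = z * (w * p) := by ring
  exact Nat.le_of_mul_le_mul_left e4 hpos

/-- the bad fraction -/
theorem bad1_aux (t D : ℕ) (ht : t = 35) (hD : D = 2 ^ 34) (n : ℕ) (hn : 400 ≤ rt n)
    (A : Finset (Fin n → Fin n)) (hA : ∀ M ∈ A, M ∈ AM n ∧ LamBad (rt n) M) :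
    A.card * rt n ≤ ((2 ^ t * t.factorial) * 64 * 2 * 16 ^ t * D ^ 2) * (AM n).card := by
  have h1 := rt_le n
  have h2 := rt_lt n
  have hR1 : 1 ≤ rt n := by omega
  have h3 : rt n ≤ n := (Nat.le_self_pow (by norm_num) _).trans h1
  have hnR : n ≤ D * rt n ^ 34 := by
    rw [hD]
    calc n ≤ (rt n + 1) ^ 34 := h2.le
      _ ≤ (2 * rt n) ^ 34 := Nat.pow_le_pow_left (by omega) _
      _ = _ := Nat.mul_pow _ _ _
  have hR3 : rt n ≤ rt n ^ 3 := Nat.le_self_pow (by norm_num) _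
  have key := bad_bound (II n) (fun u : Fin n => u.val) (rt n) t (rt n ^ 3)
    (fun i => YY (rt n ^ 16) i.1 i.2) (fun i => YY_unique _ _ _) (by omega) (by omega) A
    (fun M hM => ⟨(hA M hM).1, (hA M hM).2⟩)
  rw [II_card] at key
  exact bad1_numeric n (rt n) A.card ((rt n ^ 3).choose t) (2 ^ t * t.factorial) (AM n).card t D
    hR1 hnR key (choose_bound (rt n) t (by omega)) (by omega)

/-- the bad fraction -/
theorem bad1 : ∃ C : ℕ, ∀ n : ℕ, 400 ≤ rt n →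
    ∀ A : Finset (Fin n → Fin n), (∀ M ∈ A, M ∈ AM n ∧ LamBad (rt n) M) →
    A.card * rt n ≤ C * (AM n).card := by
  obtain ⟨t, ht⟩ : ∃ t : ℕ, t = 35 := ⟨_, rfl⟩
  obtain ⟨D, hD⟩ : ∃ D : ℕ, D = 2 ^ 34 := ⟨_, rfl⟩
  exact ⟨_, fun n hn A hA => bad1_aux t D ht hD n hn A hA⟩

theorem bad2 (n : ℕ) (hn : 400 ≤ rt n) (A : Finset (Fin n → Fin n))
    (hA : ∀ M ∈ A, M ∈ AM n ∧ ShortBad (rt n) (rt n ^ 16) M) :
    A.card * rt n ≤ 16 * (AM n).card := by
  have h1 := rt_le n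
  have hR1 : 1 ≤ rt n := by omega
  have h3 : rt n ≤ n := (Nat.le_self_pow (by norm_num) _).trans h1
  have key := short_bound (fun u : Fin n => u.val) (rt n) (rt n ^ 16) (by omega) A
    (fun M hM => ⟨(hA M hM).1, (hA M hM).2⟩)
  have key' : A.card * rt n ^ 34 ≤ (rt n * (rt n ^ 16 * rt n ^ 16)) * (16 * (AM n).card) :=
    (Nat.mul_le_mul_left _ h1).trans key
  have e : rt n ^ 33 * (A.card * rt n) ≤ rt n ^ 33 * (16 * (AM n).card) := by
    calc rt n ^ 33 * (A.card * rt n) = A.card * rt n ^ 34 := by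
          rw [pow_succ (rt n) 33]; ring
      _ ≤ (rt n * (rt n ^ 16 * rt n ^ 16)) * (16 * (AM n).card) := key'
      _ = rt n ^ 33 * (16 * (AM n).card) := by
          have : rt n ^ 33 = rt n * (rt n ^ 16 * rt n ^ 16) := by ring
          rw [this]
  exact Nat.le_of_mul_le_mul_left e (Nat.pow_pos hR1)

lemma AM_pos (m : ℕ) : 0 < (AM (2 * m)).card := by
  rw [Finset.card_pos]
  refine ⟨fun x => Fin.rev x, ?_⟩
  rw [mem_AM]
  refine ⟨fun u => Fin.rev_rev u, fun u h => ?_⟩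
  have := congrArg Fin.val h
  rw [Fin.val_rev] at this
  have := u.2
  omega

end Pool.Agent.H161R3.OR2
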