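import Pool.Agent.H161R3.OQGreedy

set_option autoImplicit false

namespace Pool.Agent.H161R3.OR2

open Finset Pool.Agent.H161R3.OR

open Classical in
/-- lower end vertices `u` for which a later lower end vertex `v ≤ u + R` has `Y u (M u) (M v)` -/
noncomputable def LamY {n : ℕ} (Y : Fin n → Fin n → Fin n → Prop) (M : Fin n → Fin n) (R : ℕ) :
    Finset (Fin n) :=
  Finset.univ.filter fun u => ∃ v : Fin n, u < v ∧ v.val ≤ u.val + R ∧ u < M u ∧ v < M v ∧
    Y u (M u) (M v)

/-- the relation forced by two coincidences -/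
def YY {n : ℕ} (m : ℕ) (g d : ℤ) (u y z : Fin n) : Prop :=
  ∃ β : ℕ, u.val / m < y.val / m ∧
    ((y.val : ℤ) - u.val) + (((y.val / m : ℕ) : ℤ) - ((u.val / m : ℕ) : ℤ)) * β = g ∧
    ((z.val : ℤ) - y.val) + (((z.val / m : ℕ) : ℤ) - ((y.val / m : ℕ) : ℤ)) * β = d

lemma YY_unique {n : ℕ} (m : ℕ) (g d : ℤ) (u y z z' : Fin n) (h : YY m g d u y z)
    (h' : YY m g d u y z') : z = z' := by
  obtain ⟨β, h1, h2, h3⟩ := h
  obtain ⟨β', _, h2', h3'⟩ := h'
  have hβ : (β : ℤ) = β' := by
    have h4 : (((y.val / m : ℕ) : ℤ) - ((u.val / m : ℕ) : ℤ)) * ((β : ℤ) - β') = 0 := by linarith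
    have h5 : (((y.val / m : ℕ) : ℤ) - ((u.val / m : ℕ) : ℤ)) ≠ 0 := by
      have : ((u.val / m : ℕ) : ℤ) < ((y.val / m : ℕ) : ℤ) := by exact_mod_cast h1
      omega
    rcases mul_eq_zero.1 h4 with h | h
    · exact absurd h h5
    · linarith
  rw [← hβ] at h3'
  have h6 : (z.val : ℤ) + ((z.val / m : ℕ) : ℤ) * β = (z'.val : ℤ) + ((z'.val / m : ℕ) : ℤ) * β := by
    linarith
  have h7 : z.val + (z.val / m) * β = z'.val + (z'.val / m) * β := by exact_mod_cast h6
  apply Fin.ext
  rcases Nat.lt_trichotomy z.val z'.val with h | h | h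
  · have := Nat.mul_le_mul_right β (Nat.div_le_div_right (c := m) h.le)
    omega
  · exact h
  · have := Nat.mul_le_mul_right β (Nat.div_le_div_right (c := m) h.le)
    omega

/-- home block of a vertex -/
def home {n : ℕ} (R m : ℕ) (α β : ℕ) (u : Fin n) : ℕ := R + u.val + α + (u.val / m) * β

/-- class of a lower end vertex -/
def cls {n : ℕ} (m : ℕ) (M : Fin n → Fin n) (u : Fin n) : ℕ :=
  (if (M u).val < u.val + m then 0 else 1) + 2 * ((u.val / m) % 2)

lemma cls_lt {n : ℕ} (m : ℕ) (M : Fin n → Fin n) (u : Fin n) : cls m M u < 4 := by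
  unfold cls
  split_ifs <;> omega

lemma same_cell {m a b R : ℕ} (hm : R < m) (hab : a < b) (hR : b ≤ a + R)
    (h : (a / m) % 2 = (b / m) % 2) : a / m = b / m := by
  have h1 : a / m ≤ b / m := Nat.div_le_div_right hab.le
  have h2 : b / m ≤ a / m + 1 := by
    rw [← Nat.add_div_right a (by omega : 0 < m)]
    exact Nat.div_le_div_right (by omega)
  omega

/-- existence of good shifts -/
theorem exists_shift {n : ℕ} (R m T E Λ X X' : ℕ) (M : Fin n → Fin n) (hm : R < m)
    (hT : ∀ α β, α < X → β < X' → ∀ u : Fin n, home R m α β u < T)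
    (W : ℕ → Finset ℕ) (hW : ∀ r, (W r).card ≤ E)
    (hshort : ∀ u1 u2 : Fin n, u1 < u2 → u2.val ≤ u1.val + R → u1 < M u1 → u2 < M u2 →
      (M u1).val < u1.val + m → (M u2).val < u2.val + m → False)
    (hΛ : ∀ g d : ℤ, -(T : ℤ) ≤ g → g < T → -(T : ℤ) ≤ d → d < T → (LamY (YY m g d) M R).card ≤ Λ)
    (hcount : T * (E * (R * (E * (Λ * 1)))) < X * X') :
    ∃ α β, α < X ∧ β < X' ∧ ∀ u1 u2 : Fin n, u1 < u2 → u2.val ≤ u1.val + R →
      u1 < M u1 → u2 < M u2 → cls m M u1 = cls m M u2 →
      home R m α β (M u1) ∈ W (home R m α β u1) →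
      home R m α β (M u2) ∈ W (home R m α β u2) → False := by
  classical
  by_contra hcon
  push Not at hcon
  let Sol : ℕ → ℕ → Fin n → Finset (ℕ × ℕ) := fun r c u =>
    (Finset.range X ×ˢ Finset.range X').filter fun x =>
      R + u.val + x.1 + (u.val / m) * x.2 = r ∧
      R + (M u).val + x.1 + ((M u).val / m) * x.2 = c ∧ u.val / m < (M u).val / m
  have hSol : ∀ r c u, (Sol r c u).card ≤ 1 := by
    intro r c u
    rw [Finset.card_le_one]
    intro x hx y hy
    simp only [Sol, Finset.mem_filter, Finset.mem_product, Finset.mem_range] at hx hy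
    obtain ⟨-, h1, h2, h3⟩ := hx
    obtain ⟨-, h4, h5, -⟩ := hy
    generalize u.val / m = a at *
    generalize (M u).val / m = b at *
    have e1 : (x.1 : ℤ) + a * x.2 = y.1 + a * y.2 := by
      have : (x.1 + a * x.2 : ℕ) = y.1 + a * y.2 := by omega
      exact_mod_cast this
    have e2 : (x.1 : ℤ) + b * x.2 = y.1 + b * y.2 := by
      have : (x.1 + b * x.2 : ℕ) = y.1 + b * y.2 := by omega
      exact_mod_cast this
    have e3 : ((a : ℤ) - b) * ((x.2 : ℤ) - y.2) = 0 := by linarith
    have e4 : (a : ℤ) - b ≠ 0 := by omega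
    have e5 : (x.2 : ℤ) - y.2 = 0 := by
      rcases mul_eq_zero.1 e3 with h | h
      · exact absurd h e4
      · exact h
    have e6 : x.2 = y.2 := by omega
    have e7 : x.1 = y.1 := by
      rw [e6] at e1
      have : (x.1 : ℤ) = y.1 := by linarith
      exact_mod_cast this
    exact Prod.ext e7 e6
  let S : Finset (ℕ × ℕ) :=
    (Finset.range T).biUnion fun r => ((W r).filter fun c => c < T).biUnion fun c =>
      (Finset.Icc 1 R).biUnion fun ρ => ((W (r + ρ)).filter fun c2 => c2 < T).biUnion fun c2 =>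
        (LamY (YY m ((c : ℤ) - r) ((c2 : ℤ) - c)) M R).biUnion fun u => Sol r c u
  have hS : S.card ≤ T * (E * (R * (E * (Λ * 1)))) := by
    refine (Finset.card_biUnion_le_card_mul _ _ (E * (R * (E * (Λ * 1)))) fun r hr => ?_).trans ?_
    · refine (Finset.card_biUnion_le_card_mul _ _ (R * (E * (Λ * 1))) fun c hc => ?_).trans ?_
      · refine (Finset.card_biUnion_le_card_mul _ _ (E * (Λ * 1)) fun ρ _ => ?_).trans ?_
        · refine (Finset.card_biUnion_le_card_mul _ _ (Λ * 1) fun c2 hc2 => ?_).trans ?_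
          · refine (Finset.card_biUnion_le_card_mul _ _ 1 fun u _ => hSol r c u).trans ?_
            rw [Finset.mem_range] at hr
            rw [Finset.mem_filter] at hc hc2
            exact Nat.mul_le_mul_right _ (hΛ _ _ (by omega) (by omega) (by omega) (by omega))
          · exact Nat.mul_le_mul_right _ ((Finset.card_filter_le _ _).trans (hW _))
        · simp
      · exact Nat.mul_le_mul_right _ ((Finset.card_filter_le _ _).trans (hW _))
    · simp
  have hsub : Finset.range X ×ˢ Finset.range X' ⊆ S := by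
    rintro ⟨α, β⟩ hx
    simp only [Finset.mem_product, Finset.mem_range] at hx
    obtain ⟨u1, u2, h12, hR, hl1, hl2, hc, hw1, hw2⟩ := hcon α β hx.1 hx.2
    have h12' := h12
    rw [Fin.lt_def] at h12'
    have hpar : (u1.val / m) % 2 = (u2.val / m) % 2 := by
      unfold cls at hc
      split_ifs at hc <;> omega
    have hcell := same_cell hm h12' hR hpar
    have hlong1 : u1.val / m < (M u1).val / m ∧ u2.val / m < (M u2).val / m := by
      have hlong : ∀ u : Fin n, ¬ (M u).val < u.val + m → u.val / m < (M u).val / m := by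
        intro u hu
        have : (u.val + m) / m ≤ (M u).val / m := Nat.div_le_div_right (not_lt.1 hu)
        rw [Nat.add_div_right _ (by omega : 0 < m)] at this
        exact this
      have h0 : ¬ ((M u1).val < u1.val + m ∧ (M u2).val < u2.val + m) := by
        rintro ⟨h1, h2⟩
        exact hshort u1 u2 h12 hR hl1 hl2 h1 h2
      unfold cls at hc
      by_cases hs1 : (M u1).val < u1.val + m
      · by_cases hs2 : (M u2).val < u2.val + m
        · exact absurd ⟨hs1, hs2⟩ h0
        · rw [if_pos hs1, if_neg hs2] at hc; omega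
      · by_cases hs2 : (M u2).val < u2.val + m
        · rw [if_neg hs1, if_pos hs2] at hc; omega
        · exact ⟨hlong u1 hs1, hlong u2 hs2⟩
    simp only [S, Finset.mem_biUnion]
    refine ⟨home R m α β u1, ?_, home R m α β (M u1), ?_,
      u2.val - u1.val, ?_, home R m α β (M u2), ?_, u1, ?_, ?_⟩
    · exact Finset.mem_range.2 (hT α β hx.1 hx.2 u1)
    · exact Finset.mem_filter.2 ⟨hw1, hT α β hx.1 hx.2 _⟩
    · rw [Finset.mem_Icc]; omega
    · have : home R m α β u1 + (u2.val - u1.val) = home R m α β u2 := by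
        unfold home
        rw [hcell]
        omega
      rw [this]; exact Finset.mem_filter.2 ⟨hw2.1, hT α β hx.1 hx.2 _⟩
    · simp only [LamY, Finset.mem_filter, Finset.mem_univ, true_and]
      refine ⟨u2, h12, hR, hl1, hl2, β, hlong1.1, ?_, ?_⟩
      · unfold home
        push_cast
        ring
      · unfold home
        push_cast
        ring
    · simp only [Sol, Finset.mem_filter, Finset.mem_product, Finset.mem_range]
      exact ⟨hx, rfl, rfl, hlong1.1⟩
  have := Finset.card_le_card hsub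
  rw [Finset.card_product, Finset.card_range, Finset.card_range] at this
  omega

end Pool.Agent.H161R3.OR2
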