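import Pool.Agent.H161R3.ORSwitch
import Pool.Agent.H161R3.OQShift

set_option autoImplicit false

namespace Pool.Agent.H161R3.OR2

open Finset Pool.Agent.H161R3.OR

/-- counting matchings for which every vertex of a separated list lies in `LamSet` -/
theorem lam_bound {n : ℕ} (P : Fin n → ℕ) (R : ℕ) (Y : Fin n → Fin n → Fin n → Prop)
    (hY : ∀ u y z z', Y u y z → Y u y z' → z = z') (L : List (Fin n)) :
    ∀ (l : List (Fin n × Fin n)),
    L.Pairwise (fun u u' => u.val + R < u'.val ∨ u'.val + R < u.val) →
    (∀ q ∈ l, ∀ u ∈ L, q.1.val < u.val ∨ u.val + R < q.1.val) → (l.map Prod.fst).Nodup →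
    (∀ q ∈ l, q.1 < q.2) → 4 * (l.length + 2 * L.length) ≤ n → 0 < n →
    (∀ A : Finset (Fin n → Fin n), (∀ M ∈ A, M ∈ Sat P l ∧ ∀ u ∈ L, u ∈ LamY Y M R) →
      A.card * n ^ (l.length + L.length) ≤
        (16 * R) ^ L.length * (4 ^ l.length * (MP P).card)) := by
  classical
  induction L with
  | nil =>
    intro l _ _ hnd hlt hn _ A hA
    have h1 := sat_bound P l hnd hlt (by simpa using hn)
    have h2 : A.card ≤ (Sat P l).card := Finset.card_le_card fun M hM => (hA M hM).1
    simp only [List.length_nil, Nat.add_zero, pow_zero, one_mul]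
    exact (Nat.mul_le_mul_right _ h2).trans h1
  | cons u L ih =>
    intro l hL hl hnd hlt hn hn0 A hA
    rw [List.pairwise_cons] at hL
    obtain ⟨hL1, hL2⟩ := hL
    rw [List.length_cons] at hn ⊢
    let g : Fin n → Fin n := fun y => if h : ∃ z : Fin n, Y u y z then h.choose else y
    have hg : ∀ y z : Fin n, Y u y z → g y = z := by
      intro y z h
      have hex : ∃ z : Fin n, Y u y z := ⟨z, h⟩
      have h2 := hex.choose_spec
      show (if h : ∃ z : Fin n, Y u y z then h.choose else y) = z
      rw [dif_pos hex]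
      exact hY u y _ _ h2 h
    let Wu : Finset (Fin n) := univ.filter fun w => u < w ∧ w.val ≤ u.val + R
    have hWu : Wu.card ≤ R := by
      have h1 : (Wu.image Fin.val).card = Wu.card := Finset.card_image_of_injective _ Fin.val_injective
      rw [← h1]
      have h2 : Wu.image Fin.val ⊆ Finset.Ioc u.val (u.val + R) := by
        intro x hx
        rw [Finset.mem_image] at hx
        obtain ⟨w, hw, rfl⟩ := hx
        simp only [Wu, Finset.mem_filter, Finset.mem_univ, true_and, Fin.lt_def] at hw
        rw [Finset.mem_Ioc]; exact hw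
      refine (Finset.card_le_card h2).trans ?_
      rw [Nat.card_Ioc]; omega
    let Aw : Fin n × Fin n → Finset (Fin n → Fin n) := fun wv =>
      A.filter fun M => M u = wv.2 ∧ M wv.1 = g wv.2 ∧ u < wv.2 ∧ wv.1 < g wv.2
    have hsub : A ⊆ (Wu ×ˢ (univ : Finset (Fin n))).biUnion Aw := by
      intro M hM
      obtain ⟨hM1, hM2⟩ := hA M hM
      have hu := hM2 u List.mem_cons_self
      simp only [LamY, Finset.mem_filter, Finset.mem_univ, true_and] at hu
      obtain ⟨w, h1, h2, h3, h4, h5⟩ := hu
      have hgw : g (M u) = M w := hg _ _ h5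
      rw [Finset.mem_biUnion]
      refine ⟨(w, M u), ?_, ?_⟩
      · rw [Finset.mem_product]
        refine ⟨?_, Finset.mem_univ _⟩
        simp only [Wu, Finset.mem_filter, Finset.mem_univ, true_and]
        exact ⟨h1, h2⟩
      · simp only [Aw, Finset.mem_filter]
        exact ⟨hM, trivial, hgw.symm, h3, by rw [hgw]; exact h4⟩
    have hterm : ∀ wv ∈ Wu ×ˢ (univ : Finset (Fin n)),
        (Aw wv).card * n ^ (l.length + 2 + L.length) ≤
          (16 * R) ^ L.length * (4 ^ (l.length + 2) * (MP P).card) := by
      rintro ⟨w, v⟩ hwv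
      rw [Finset.mem_product] at hwv
      have hw := hwv.1
      simp only [Wu, Finset.mem_filter, Finset.mem_univ, true_and, Fin.lt_def] at hw
      by_cases hlt' : u < v ∧ w < g v
      · have key := ih ((u, v) :: (w, g v) :: l) hL2 ?_ ?_ ?_ ?_ hn0 (Aw (w, v)) ?_
        · simpa [List.length_cons] using key
        · intro q hq u' hu'
          have h1 := hL1 u' hu'
          rw [List.mem_cons, List.mem_cons] at hq
          rcases hq with rfl | rfl | hq
          · simp only
            omega
          · simp only
            omega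
          · exact hl q hq u' (List.mem_cons_of_mem _ hu')
        · rw [List.map_cons, List.map_cons, List.nodup_cons, List.nodup_cons]
          refine ⟨?_, ?_, hnd⟩
          · rw [List.mem_cons, not_or]
            refine ⟨?_, ?_⟩
            · simp only
              intro e
              rw [← e] at hw
              omega
            · intro hmem
              rw [List.mem_map] at hmem
              obtain ⟨q, hq, e⟩ := hmem
              have := hl q hq u List.mem_cons_self
              simp only at e
              rw [e] at this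
              omega
          · intro hmem
            rw [List.mem_map] at hmem
            obtain ⟨q, hq, e⟩ := hmem
            have := hl q hq u List.mem_cons_self
            simp only at e
            rw [e] at this
            omega
        · intro q hq
          rw [List.mem_cons, List.mem_cons] at hq
          rcases hq with rfl | rfl | hq
          · exact hlt'.1
          · exact hlt'.2
          · exact hlt q hq
        · simp only [List.length_cons]
          omega
        · intro M hM
          simp only [Aw, Finset.mem_filter] at hM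
          obtain ⟨hM0, hM1, hM2, -, -⟩ := hM
          obtain ⟨hM3, hM4⟩ := hA M hM0
          refine ⟨?_, fun u' hu' => hM4 u' (List.mem_cons_of_mem _ hu')⟩
          simp only [Sat, Finset.mem_filter] at hM3 ⊢
          refine ⟨hM3.1, ?_⟩
          intro p hp
          rw [List.mem_cons, List.mem_cons] at hp
          rcases hp with rfl | rfl | hp
          · exact hM1
          · exact hM2
          · exact hM3.2 p hp
      · have : Aw (w, v) = ∅ := by
          apply Finset.filter_eq_empty_iff.2
          intro M _ hM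
          exact hlt' ⟨hM.2.2.1, hM.2.2.2⟩
        rw [this]; simp
    have hcard : A.card * n ^ (l.length + 2 + L.length) ≤
        R * n * ((16 * R) ^ L.length * (4 ^ (l.length + 2) * (MP P).card)) := by
      calc A.card * n ^ (l.length + 2 + L.length)
          ≤ (∑ wv ∈ Wu ×ˢ (univ : Finset (Fin n)), (Aw wv).card) * n ^ (l.length + 2 + L.length) :=
            Nat.mul_le_mul_right _ ((Finset.card_le_card hsub).trans Finset.card_biUnion_le)
        _ = ∑ wv ∈ Wu ×ˢ (univ : Finset (Fin n)), (Aw wv).card * n ^ (l.length + 2 + L.length) :=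
            Finset.sum_mul _ _ _
        _ ≤ ∑ _wv ∈ Wu ×ˢ (univ : Finset (Fin n)),
              (16 * R) ^ L.length * (4 ^ (l.length + 2) * (MP P).card) := Finset.sum_le_sum hterm
        _ = (Wu ×ˢ (univ : Finset (Fin n))).card *
              ((16 * R) ^ L.length * (4 ^ (l.length + 2) * (MP P).card)) := by
            rw [Finset.sum_const, smul_eq_mul]
        _ ≤ _ := by
            apply Nat.mul_le_mul_right
            rw [Finset.card_product, Finset.card_univ, Fintype.card_fin]
            exact Nat.mul_le_mul_right _ hWu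
    have h1 : n * (A.card * n ^ (l.length + (L.length + 1))) ≤
        n * ((16 * R) ^ (L.length + 1) * (4 ^ l.length * (MP P).card)) := by
      calc n * (A.card * n ^ (l.length + (L.length + 1)))
          = A.card * n ^ (l.length + 2 + L.length) := by ring
        _ ≤ R * n * ((16 * R) ^ L.length * (4 ^ (l.length + 2) * (MP P).card)) := hcard
        _ = n * ((16 * R) ^ (L.length + 1) * (4 ^ l.length * (MP P).card)) := by ring
    exact Nat.le_of_mul_le_mul_left h1 hn0

/-- moment bound -/
theorem moment {n : ℕ} (P : Fin n → ℕ) (R : ℕ) (Y : Fin n → Fin n → Fin n → Prop)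
    (hY : ∀ u y z z', Y u y z → Y u y z' → z = z') (c t L' : ℕ) (hn : 8 * t ≤ n) (hn0 : 0 < n)
    (A : Finset (Fin n → Fin n)) (hA : ∀ M ∈ A, M ∈ MP P ∧
      L' ≤ ((LamY Y M R).filter fun u => u.val % (R + 1) = c).card) :
    A.card * L'.choose t ≤ (16 * R) ^ t * (MP P).card := by
  classical
  let S : (Fin n → Fin n) → Finset (Fin n) := fun M =>
    (LamY Y M R).filter fun u => u.val % (R + 1) = c
  let TT : Finset (Finset (Fin n)) := powersetCard t (univ : Finset (Fin n))
  have h1 : A.card * L'.choose t ≤ ∑ M ∈ A, (TT.filter fun s => s ⊆ S M).card := by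
    rw [← smul_eq_mul, ← Finset.sum_const]
    refine Finset.sum_le_sum fun M hM => ?_
    have h2 : powersetCard t (S M) ⊆ TT.filter fun s => s ⊆ S M := by
      intro s hs
      rw [Finset.mem_powersetCard] at hs
      rw [Finset.mem_filter, Finset.mem_powersetCard]
      exact ⟨⟨Finset.subset_univ _, hs.2⟩, hs.1⟩
    refine le_trans ?_ (Finset.card_le_card h2)
    rw [Finset.card_powersetCard]
    exact Nat.choose_le_choose _ (hA M hM).2
  have h2 : ∑ M ∈ A, (TT.filter fun s => s ⊆ S M).card =
      ∑ s ∈ TT, (A.filter fun M => s ⊆ S M).card := by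
    exact Finset.sum_card_bipartiteAbove_eq_sum_card_bipartiteBelow (fun M s => s ⊆ S M)
  have h3 : ∀ s ∈ TT, (A.filter fun M => s ⊆ S M).card * n ^ t ≤ (16 * R) ^ t * (MP P).card := by
    intro s hs
    rw [Finset.mem_powersetCard] at hs
    by_cases hc : ∀ u ∈ s, u.val % (R + 1) = c
    · have hpw : s.toList.Pairwise (fun u u' => u.val + R < u'.val ∨ u'.val + R < u.val) := by
        refine (Finset.nodup_toList s).pairwise_of_forall_ne ?_
        intro a ha b hb hab
        have h4 := hc a (Finset.mem_toList.1 ha)
        have h5 := hc b (Finset.mem_toList.1 hb)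
        have h6 : a.val ≠ b.val := fun e => hab (Fin.ext e)
        have h7 := Nat.div_add_mod a.val (R + 1)
        have h8 := Nat.div_add_mod b.val (R + 1)
        rw [h4] at h7
        rw [h5] at h8
        rcases Nat.lt_trichotomy (a.val / (R + 1)) (b.val / (R + 1)) with h | h | h
        · left
          have : (R + 1) * (a.val / (R + 1) + 1) ≤ (R + 1) * (b.val / (R + 1)) :=
            Nat.mul_le_mul_left _ h
          rw [Nat.mul_add, Nat.mul_one] at this
          omega
        · exfalso
          rw [h] at h7
          omega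
        · right
          have : (R + 1) * (b.val / (R + 1) + 1) ≤ (R + 1) * (a.val / (R + 1)) :=
            Nat.mul_le_mul_left _ h
          rw [Nat.mul_add, Nat.mul_one] at this
          omega
      have key := lam_bound P R Y hY s.toList [] hpw (by simp) (by simp) (by simp)
        (by rw [Finset.length_toList, hs.2]; simp; omega) hn0 (A.filter fun M => s ⊆ S M) ?_
      · rw [Finset.length_toList, hs.2] at key
        simpa using key
      · intro M hM
        rw [Finset.mem_filter] at hM
        refine ⟨by rw [sat_nil]; exact (hA M hM.1).1, fun u hu => ?_⟩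
        have := hM.2 (Finset.mem_toList.1 hu)
        exact (Finset.mem_filter.1 this).1
    · have : (A.filter fun M => s ⊆ S M) = ∅ := by
        apply Finset.filter_eq_empty_iff.2
        intro M _ hM
        apply hc
        intro u hu
        exact (Finset.mem_filter.1 (hM hu)).2
      rw [this]; simp
  have h4 : n ^ t * (A.card * L'.choose t) ≤ n ^ t * ((16 * R) ^ t * (MP P).card) := by
    calc n ^ t * (A.card * L'.choose t) ≤ n ^ t * ∑ s ∈ TT, (A.filter fun M => s ⊆ S M).card := by
          rw [← h2]; exact Nat.mul_le_mul_left _ h1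
      _ = ∑ s ∈ TT, (A.filter fun M => s ⊆ S M).card * n ^ t := by
          rw [Nat.mul_comm, Finset.sum_mul]
      _ ≤ ∑ _s ∈ TT, (16 * R) ^ t * (MP P).card := Finset.sum_le_sum h3
      _ = TT.card * ((16 * R) ^ t * (MP P).card) := by rw [Finset.sum_const, smul_eq_mul]
      _ ≤ _ := by
          apply Nat.mul_le_mul_right
          rw [Finset.card_powersetCard, Finset.card_univ, Fintype.card_fin]
          exact Nat.choose_le_pow _ _
  exact Nat.le_of_mul_le_mul_left h4 (Nat.pow_pos hn0)

/-- the number of matchings for which some `LamY` is large -/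
theorem bad_bound {n : ℕ} {ι : Type} (I : Finset ι) (P : Fin n → ℕ) (R t L' : ℕ)
    (Y : ι → Fin n → Fin n → Fin n → Prop)
    (hY : ∀ i u y z z', Y i u y z → Y i u y z' → z = z') (hn : 8 * t ≤ n) (hn0 : 0 < n)
    (A : Finset (Fin n → Fin n)) (hA : ∀ M ∈ A, M ∈ MP P ∧
      ∃ i ∈ I, (R + 1) * L' < (LamY (Y i) M R).card) :
    A.card * L'.choose t ≤ (I.card * (R + 1)) * ((16 * R) ^ t * (MP P).card) := by
  classical
  let Adc : ι × ℕ → Finset (Fin n → Fin n) := fun dc =>
    A.filter fun M => L' ≤ ((LamY (Y dc.1) M R).filter fun u => u.val % (R + 1) = dc.2).card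
  have hsub : A ⊆ (I ×ˢ Finset.range (R + 1)).biUnion Adc := by
    intro M hM
    obtain ⟨h1, i, hi, hd⟩ := hA M hM
    rw [Finset.mem_biUnion]
    have hex : ∃ c ∈ Finset.range (R + 1),
        L' < ((LamY (Y i) M R).filter fun u => u.val % (R + 1) = c).card := by
      refine Finset.exists_lt_card_fiber_of_mul_lt_card_of_maps_to (f := fun u : Fin n => u.val % (R + 1)) ?_ ?_
      · intro u _
        rw [Finset.mem_range]
        exact Nat.mod_lt _ (Nat.succ_pos _)
      · rw [Finset.card_range]; exact hd
    obtain ⟨c, hc, hc'⟩ := hex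
    refine ⟨(i, c), Finset.mem_product.2 ⟨hi, hc⟩, ?_⟩
    simp only [Adc, Finset.mem_filter]
    exact ⟨hM, hc'.le⟩
  have hterm : ∀ dc ∈ I ×ˢ Finset.range (R + 1), (Adc dc).card * L'.choose t ≤
      (16 * R) ^ t * (MP P).card := by
    rintro ⟨d, c⟩ _
    refine moment P R (Y d) (hY d) c t L' hn hn0 _ ?_
    intro M hM
    simp only [Adc, Finset.mem_filter] at hM
    exact ⟨(hA M hM.1).1, hM.2⟩
  calc A.card * L'.choose t ≤ (∑ dc ∈ I ×ˢ Finset.range (R + 1), (Adc dc).card) * L'.choose t :=
        Nat.mul_le_mul_right _ ((Finset.card_le_card hsub).trans Finset.card_biUnion_le)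
    _ = ∑ dc ∈ I ×ˢ Finset.range (R + 1), (Adc dc).card * L'.choose t := Finset.sum_mul _ _ _
    _ ≤ ∑ _dc ∈ I ×ˢ Finset.range (R + 1), (16 * R) ^ t * (MP P).card := Finset.sum_le_sum hterm
    _ = (I ×ˢ Finset.range (R + 1)).card * ((16 * R) ^ t * (MP P).card) := by
        rw [Finset.sum_const, smul_eq_mul]
    _ = _ := by
        rw [Finset.card_product, Finset.card_range]

/-- matchings with two close short edges -/
theorem short_bound {n : ℕ} (P : Fin n → ℕ) (R m : ℕ) (hn : 8 ≤ n)
    (A : Finset (Fin n → Fin n)) (hA : ∀ M ∈ A, M ∈ MP P ∧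
      ∃ u1 u2 : Fin n, u1 < u2 ∧ u2.val ≤ u1.val + R ∧ u1 < M u1 ∧ u2 < M u2 ∧
      (M u1).val < u1.val + m ∧ (M u2).val < u2.val + m) :
    A.card * n ≤ (R * (m * m)) * (16 * (MP P).card) := by
  classical
  let Win : ℕ → Fin n → Finset (Fin n) := fun r u => univ.filter fun w => u < w ∧ w.val ≤ u.val + r
  have hWin : ∀ r u, (Win r u).card ≤ r := by
    intro r u
    have h1 : ((Win r u).image Fin.val).card = (Win r u).card :=
      Finset.card_image_of_injective _ Fin.val_injective
    rw [← h1]
    have h2 : (Win r u).image Fin.val ⊆ Finset.Ioc u.val (u.val + r) := by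
      intro x hx
      rw [Finset.mem_image] at hx
      obtain ⟨w, hw, rfl⟩ := hx
      simp only [Win, Finset.mem_filter, Finset.mem_univ, true_and, Fin.lt_def] at hw
      rw [Finset.mem_Ioc]; exact hw
    refine (Finset.card_le_card h2).trans ?_
    rw [Nat.card_Ioc]; omega
  let B : Fin n → Fin n → Fin n → Fin n → Finset (Fin n → Fin n) := fun u1 u2 y1 y2 =>
    A.filter fun M => M u1 = y1 ∧ M u2 = y2
  have hB : ∀ u1 u2 y1 y2 : Fin n, u1 < u2 → u1 < y1 → u2 < y2 →
      (B u1 u2 y1 y2).card * n ^ 2 ≤ 16 * (MP P).card := by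
    intro u1 u2 y1 y2 h1 h2 h3
    have key := sat_bound P [(u1, y1), (u2, y2)] (by simp [ne_of_lt h1]) (by
      intro q hq
      simp only [List.mem_cons, List.not_mem_nil, or_false] at hq
      rcases hq with rfl | rfl
      · exact h2
      · exact h3) (by simpa using hn)
    simp only [List.length_cons, List.length_nil] at key
    refine le_trans (Nat.mul_le_mul_right _ (Finset.card_le_card ?_)) key
    intro M hM
    simp only [B, Finset.mem_filter] at hM
    simp only [Sat, Finset.mem_filter, List.mem_cons, List.not_mem_nil, or_false]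
    refine ⟨(hA M hM.1).1, ?_⟩
    rintro p (rfl | rfl)
    · exact hM.2.1
    · exact hM.2.2
  have hsub : A ⊆ (univ : Finset (Fin n)).biUnion fun u1 => (Win R u1).biUnion fun u2 =>
      (Win m u1).biUnion fun y1 => (Win m u2).biUnion fun y2 => B u1 u2 y1 y2 := by
    intro M hM
    obtain ⟨h1, u1, u2, h2, h3, h4, h5, h6, h7⟩ := hA M hM
    simp only [Finset.mem_biUnion]
    refine ⟨u1, Finset.mem_univ _, u2, ?_, M u1, ?_, M u2, ?_, ?_⟩
    · simp only [Win, Finset.mem_filter, Finset.mem_univ, true_and]; exact ⟨h2, h3⟩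
    · simp only [Win, Finset.mem_filter, Finset.mem_univ, true_and]; exact ⟨h4, h6.le⟩
    · simp only [Win, Finset.mem_filter, Finset.mem_univ, true_and]; exact ⟨h5, h7.le⟩
    · exact Finset.mem_filter.2 ⟨hM, rfl, rfl⟩
  have hcard : A.card * n ^ 2 ≤ n * (R * (m * (m * (16 * (MP P).card)))) := by
    calc A.card * n ^ 2 ≤ (∑ u1 : Fin n, ∑ u2 ∈ Win R u1, ∑ y1 ∈ Win m u1, ∑ y2 ∈ Win m u2,
          (B u1 u2 y1 y2).card) * n ^ 2 := by
          apply Nat.mul_le_mul_right
          refine (Finset.card_le_card hsub).trans ?_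
          refine Finset.card_biUnion_le.trans (Finset.sum_le_sum fun u1 _ => ?_)
          refine Finset.card_biUnion_le.trans (Finset.sum_le_sum fun u2 _ => ?_)
          refine Finset.card_biUnion_le.trans (Finset.sum_le_sum fun y1 _ => ?_)
          exact Finset.card_biUnion_le
      _ = ∑ u1 : Fin n, ∑ u2 ∈ Win R u1, ∑ y1 ∈ Win m u1, ∑ y2 ∈ Win m u2,
          (B u1 u2 y1 y2).card * n ^ 2 := by
          simp only [Finset.sum_mul]
      _ ≤ ∑ _u1 : Fin n, R * (m * (m * (16 * (MP P).card))) := by
          refine Finset.sum_le_sum fun u1 _ => ?_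
          refine (Finset.sum_le_card_nsmul _ _ (m * (m * (16 * (MP P).card))) fun u2 hu2 => ?_).trans ?_
          · refine (Finset.sum_le_card_nsmul _ _ (m * (16 * (MP P).card)) fun y1 hy1 => ?_).trans ?_
            · refine (Finset.sum_le_card_nsmul _ _ (16 * (MP P).card) fun y2 hy2 => ?_).trans ?_
              · simp only [Win, Finset.mem_filter, Finset.mem_univ, true_and] at hu2 hy1 hy2
                exact hB u1 u2 y1 y2 hu2.1 hy1.1 hy2.1
              · rw [smul_eq_mul]; exact Nat.mul_le_mul_right _ (hWin m u2)
            · rw [smul_eq_mul]; exact Nat.mul_le_mul_right _ (hWin m u1)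
          · rw [smul_eq_mul]; exact Nat.mul_le_mul_right _ (hWin R u1)
      _ = _ := by simp
  have hn0 : 0 < n := by omega
  have h1 : n * (A.card * n) ≤ n * ((R * (m * m)) * (16 * (MP P).card)) := by
    calc n * (A.card * n) = A.card * n ^ 2 := by ring
      _ ≤ n * (R * (m * (m * (16 * (MP P).card)))) := hcard
      _ = _ := by ring
  exact Nat.le_of_mul_le_mul_left h1 hn0

end Pool.Agent.H161R3.OR2
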