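import Pool.Agent.H161R3.ORGreedy

set_option autoImplicit false

namespace Pool.Agent.H161R3.OR

open Finset

open Classical in
/-- lower end vertices `u` for which a later lower end vertex `v ≤ u + R` has `M v - M u = d` -/
noncomputable def LamSet {n : ℕ} (M : Fin n → Fin n) (R : ℕ) (d : ℤ) : Finset (Fin n) :=
  Finset.univ.filter fun u => ∃ v : Fin n, u < v ∧ v.val ≤ u.val + R ∧ u < M u ∧ v < M v ∧
    ((M v).val : ℤ) - ((M u).val : ℤ) = d

/-- home block of a vertex -/
def home {n : ℕ} (R : ℕ) (part : Fin n → ℕ) (α β : ℕ) (u : Fin n) : ℕ :=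
  R + u.val + α + part u * β + part u * (R + 1)

/-- existence of good shifts -/
theorem exists_shift {n : ℕ} (k R T E Λ X : ℕ) (M : Fin n → Fin n) (part : Fin n → ℕ)
    (hpart : ∀ u, part u < k) (hne : ∀ u, part (M u) ≠ part u)
    (hT : ∀ α β, α < X → β < X → ∀ u, home R part α β u < T)
    (W : ℕ → Finset ℕ) (hW : ∀ r, (W r).card ≤ E)
    (hΛ : ∀ d, (LamSet M R d).card ≤ Λ)
    (hcount : k * k * (T * (E * (R * (E * (Λ * 1))))) < X * X) :
    ∃ α β, α < X ∧ β < X ∧ ∀ u1 u2 : Fin n, u1 < u2 → u2.val ≤ u1.val + R → part u1 = part u2 →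
      u1 < M u1 → u2 < M u2 → part (M u1) = part (M u2) →
      home R part α β (M u1) ∈ W (home R part α β u1) →
      home R part α β (M u2) ∈ W (home R part α β u2) → False := by
  classical
  by_contra hcon
  push Not at hcon
  let Sol : ℕ × ℕ → ℕ → ℕ → Fin n → Finset (ℕ × ℕ) := fun ab r c u =>
    (Finset.range X ×ˢ Finset.range X).filter fun x =>
      R + u.val + x.1 + ab.1 * x.2 + ab.1 * (R + 1) = r ∧
      R + (M u).val + x.1 + ab.2 * x.2 + ab.2 * (R + 1) = c ∧ ab.1 ≠ ab.2
  have hSol : ∀ ab r c u, (Sol ab r c u).card ≤ 1 := by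
    intro ab r c u
    rw [Finset.card_le_one]
    intro x hx y hy
    simp only [Sol, Finset.mem_filter, Finset.mem_product, Finset.mem_range] at hx hy
    obtain ⟨-, h1, h2, h3⟩ := hx
    obtain ⟨-, h4, h5, -⟩ := hy
    have e1 : (x.1 : ℤ) + ab.1 * x.2 = y.1 + ab.1 * y.2 := by
      have : (x.1 + ab.1 * x.2 : ℕ) = y.1 + ab.1 * y.2 := by omega
      exact_mod_cast this
    have e2 : (x.1 : ℤ) + ab.2 * x.2 = y.1 + ab.2 * y.2 := by
      have : (x.1 + ab.2 * x.2 : ℕ) = y.1 + ab.2 * y.2 := by omega
      exact_mod_cast this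
    have e3 : ((ab.1 : ℤ) - ab.2) * ((x.2 : ℤ) - y.2) = 0 := by linarith
    have e4 : (ab.1 : ℤ) - ab.2 ≠ 0 := by
      intro h; apply h3; omega
    have e5 : (x.2 : ℤ) - y.2 = 0 := by
      rcases mul_eq_zero.1 e3 with h | h
      · exact absurd h e4
      · exact h
    have e6 : x.2 = y.2 := by omega
    have e7 : x.1 = y.1 := by
      rw [e6] at e1
      have : (x.1 : ℤ) = y.1 := by linarith
      exact_mod_cast this
    exact Prod.ext e7 e6
  let S : Finset (ℕ × ℕ) := (Finset.range k ×ˢ Finset.range k).biUnion fun ab =>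
    (Finset.range T).biUnion fun r => (W r).biUnion fun c => (Finset.Icc 1 R).biUnion fun ρ =>
      (W (r + ρ)).biUnion fun c2 => (LamSet M R ((c2 : ℤ) - c)).biUnion fun u => Sol ab r c u
  have hS : S.card ≤ k * k * (T * (E * (R * (E * (Λ * 1))))) := by
    refine (Finset.card_biUnion_le_card_mul _ _ (T * (E * (R * (E * (Λ * 1))))) fun ab _ => ?_).trans ?_
    · refine (Finset.card_biUnion_le_card_mul _ _ (E * (R * (E * (Λ * 1)))) fun r _ => ?_).trans ?_
      · refine (Finset.card_biUnion_le_card_mul _ _ (R * (E * (Λ * 1))) fun c _ => ?_).trans ?_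
        · refine (Finset.card_biUnion_le_card_mul _ _ (E * (Λ * 1)) fun ρ _ => ?_).trans ?_
          · refine (Finset.card_biUnion_le_card_mul _ _ (Λ * 1) fun c2 _ => ?_).trans ?_
            · refine (Finset.card_biUnion_le_card_mul _ _ 1 fun u _ => hSol ab r c u).trans ?_
              exact Nat.mul_le_mul_right _ (hΛ _)
            · exact Nat.mul_le_mul_right _ (hW _)
          · simp
        · exact Nat.mul_le_mul_right _ (hW _)
      · simp
    · simp
  have hsub : Finset.range X ×ˢ Finset.range X ⊆ S := by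
    rintro ⟨α, β⟩ hx
    simp only [Finset.mem_product, Finset.mem_range] at hx
    obtain ⟨u1, u2, h12, hR, hp, hl1, hl2, hpM, hw1, hw2⟩ := hcon α β hx.1 hx.2
    simp only [S, Finset.mem_biUnion]
    refine ⟨(part u1, part (M u1)), ?_, home R part α β u1, ?_, home R part α β (M u1), hw1,
      u2.val - u1.val, ?_, home R part α β (M u2), ?_, u1, ?_, ?_⟩
    · simp only [Finset.mem_product, Finset.mem_range]
      exact ⟨hpart _, hpart _⟩
    · exact Finset.mem_range.2 (hT α β hx.1 hx.2 u1)
    · rw [Fin.lt_def] at h12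
      rw [Finset.mem_Icc]; omega
    · have : home R part α β u1 + (u2.val - u1.val) = home R part α β u2 := by
        unfold home
        rw [hp]
        rw [Fin.lt_def] at h12
        omega
      rw [this]; exact hw2.1
    · simp only [LamSet, Finset.mem_filter, Finset.mem_univ, true_and]
      refine ⟨u2, h12, hR, hl1, hl2, ?_⟩
      unfold home
      rw [hpM]
      push_cast
      ring
    · simp only [Sol, Finset.mem_filter, Finset.mem_product, Finset.mem_range]
      refine ⟨hx, rfl, rfl, ?_⟩
      exact fun e => hne u1 e.symm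
  have := Finset.card_le_card hsub
  rw [Finset.card_product, Finset.card_range] at this
  omega

end Pool.Agent.H161R3.OR
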