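import Mathlib

set_option autoImplicit false

namespace Pool.Agent.H161R3.OR

open Finset

/-- `M` is a fixed point free involution -/
def IsInv {n : ℕ} (M : Fin n → Fin n) : Prop := (∀ u, M (M u) = u) ∧ ∀ u, M u ≠ u

open Classical in
/-- matchings all of whose edges join different parts -/
noncomputable def MP {n : ℕ} (P : Fin n → ℕ) : Finset (Fin n → Fin n) :=
  Finset.univ.filter fun M => IsInv M ∧ ∀ u, P (M u) ≠ P u

/-- new matching -/
def sw {n : ℕ} (M : Fin n → Fin n) (u v x y : Fin n) : Fin n → Fin n := fun a =>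
  if a = u then x else if a = x then u else if a = v then y else if a = y then v else M a

/-- undoing -/
def unsw {n : ℕ} (M : Fin n → Fin n) (u v : Fin n) : Fin n → Fin n := fun a =>
  if a = u then v else if a = v then u else if a = M u then M v else if a = M v then M u else M a

section
variable {n : ℕ} {M : Fin n → Fin n} {u v x y : Fin n}

lemma sw_spec (hM : IsInv M) (huv : M u = v) (hxy : M x = y) (hxu : x ≠ u) (hxv : x ≠ v) :
    IsInv (sw M u v x y) ∧ sw M u v x y u = x ∧ sw M u v x y v = y ∧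
      unsw (sw M u v x y) u v = M := by
  obtain ⟨h1, h2⟩ := hM
  have hvu : M v = u := by rw [← huv, h1]
  have hyx : M y = x := by rw [← hxy, h1]
  have huv' : u ≠ v := fun e => h2 u (by rw [huv, ← e])
  have hxy' : x ≠ y := fun e => h2 x (by rw [hxy, ← e])
  have hyu : y ≠ u := fun e => hxv (by rw [← hyx, e, huv])
  have hyv : y ≠ v := fun e => hxu (by rw [← hyx, e, hvu])
  have e1 : sw M u v x y u = x := by simp [sw]
  have e2 : sw M u v x y x = u := by simp [sw, hxu]
  have e3 : sw M u v x y v = y := by simp [sw, huv'.symm, hxv.symm]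
  have e4 : sw M u v x y y = v := by simp [sw, hyu, hxy'.symm, hyv]
  have e5 : ∀ a, a ≠ u → a ≠ x → a ≠ v → a ≠ y → sw M u v x y a = M a := by
    intro a ha1 ha2 ha3 ha4; simp [sw, ha1, ha2, ha3, ha4]
  have e6 : ∀ a, a ≠ u → a ≠ x → a ≠ v → a ≠ y → M a ≠ u ∧ M a ≠ x ∧ M a ≠ v ∧ M a ≠ y := by
    intro a ha1 ha2 ha3 ha4
    refine ⟨?_, ?_, ?_, ?_⟩ <;> intro e
    · exact ha3 (by rw [← h1 a, e, huv])
    · exact ha4 (by rw [← h1 a, e, hxy])
    · exact ha1 (by rw [← h1 a, e, hvu])
    · exact ha2 (by rw [← h1 a, e, hyx])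
  refine ⟨⟨?_, ?_⟩, e1, e3, ?_⟩
  · intro a
    by_cases ha1 : a = u
    · rw [ha1, e1, e2]
    by_cases ha2 : a = x
    · rw [ha2, e2, e1]
    by_cases ha3 : a = v
    · rw [ha3, e3, e4]
    by_cases ha4 : a = y
    · rw [ha4, e4, e3]
    obtain ⟨b1, b2, b3, b4⟩ := e6 a ha1 ha2 ha3 ha4
    rw [e5 a ha1 ha2 ha3 ha4, e5 (M a) b1 b2 b3 b4, h1]
  · intro a
    by_cases ha1 : a = u
    · rw [ha1, e1]; exact hxu
    by_cases ha2 : a = x
    · rw [ha2, e2]; exact hxu.symm
    by_cases ha3 : a = v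
    · rw [ha3, e3]; exact hyv
    by_cases ha4 : a = y
    · rw [ha4, e4]; exact hyv.symm
    rw [e5 a ha1 ha2 ha3 ha4]; exact h2 a
  · funext a
    unfold unsw
    rw [e1, e3]
    by_cases ha1 : a = u
    · rw [if_pos ha1, ha1, huv]
    by_cases ha3 : a = v
    · rw [if_neg ha1, if_pos ha3, ha3, hvu]
    by_cases ha2 : a = x
    · rw [if_neg ha1, if_neg ha3, if_pos ha2, ha2, hxy]
    by_cases ha4 : a = y
    · rw [if_neg ha1, if_neg ha3, if_neg ha2, if_pos ha4, ha4, hyx]
    rw [if_neg ha1, if_neg ha3, if_neg ha2, if_neg ha4, e5 a ha1 ha2 ha3 ha4]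

lemma sw_other {a : Fin n} (h1 : a ≠ u) (h2 : a ≠ x) (h3 : a ≠ v) (h4 : a ≠ y) :
    sw M u v x y a = M a := by simp [sw, h1, h2, h3, h4]

lemma sw_part (P : Fin n → ℕ) (hM : IsInv M) (hP : ∀ a, P (M a) ≠ P a) (huv : M u = v) (hxy : M x = y)
    (hxu : x ≠ u) (hxv : x ≠ v) (h1 : P u ≠ P x) (h2 : P v ≠ P y) (a : Fin n) :
    P (sw M u v x y a) ≠ P a := by
  obtain ⟨hI, e1, e3, -⟩ := sw_spec hM huv hxy hxu hxv
  have e2 : sw M u v x y x = u := by
    have h := hI.1 u
    rw [e1] at h
    exact h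
  have e4 : sw M u v x y y = v := by
    have h := hI.1 v
    rw [e3] at h
    exact h
  by_cases ha1 : a = u
  · rw [ha1, e1]; exact h1.symm
  by_cases ha2 : a = x
  · rw [ha2, e2]; exact h1
  by_cases ha3 : a = v
  · rw [ha3, e3]; exact h2.symm
  by_cases ha4 : a = y
  · rw [ha4, e4]; exact h2
  rw [sw_other ha1 ha2 ha3 ha4]; exact hP a

end

open Classical in
/-- matchings satisfying the constraints of a list -/
noncomputable def Sat {n : ℕ} (P : Fin n → ℕ) (l : List (Fin n × Fin n)) : Finset (Fin n → Fin n) :=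
  (MP P).filter fun M => ∀ p ∈ l, M p.1 = p.2

lemma sat_nil {n : ℕ} (P : Fin n → ℕ) : Sat P [] = MP P := by
  simp [Sat]

/-- switching -/
lemma switch {n : ℕ} (P : Fin n → ℕ) (l : List (Fin n × Fin n)) (p : Fin n × Fin n)
    (hnd : p.1 ∉ l.map Prod.fst) (hlt : ∀ q ∈ p :: l, q.1 < q.2) :
    (Sat P (p :: l)).card * (n - 2 * l.length - 2) ≤ 2 * (Sat P l).card := by
  classical
  obtain ⟨u, v⟩ := p
  let A : Finset (Fin n) := (l.map Prod.fst).toFinset ∪ (l.map Prod.snd).toFinset
  let Z : Finset (Fin n) := Finset.univ \ (A ∪ {u, v})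
  have hZ : n - 2 * l.length - 2 ≤ Z.card := by
    have h1 : A.card ≤ 2 * l.length := by
      refine (Finset.card_union_le _ _).trans ?_
      have h2 := List.toFinset_card_le (l.map Prod.fst)
      have h3 := List.toFinset_card_le (l.map Prod.snd)
      rw [List.length_map] at h2 h3
      omega
    have h2 : (A ∪ {u, v}).card ≤ A.card + 2 :=
      (Finset.card_union_le _ _).trans (Nat.add_le_add_left Finset.card_le_two _)
    have h3 : (Finset.univ \ (A ∪ {u, v})).card = n - (A ∪ {u, v}).card := by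
      rw [Finset.card_sdiff_of_subset (Finset.subset_univ _), Finset.card_univ, Fintype.card_fin]
    show _ ≤ (Finset.univ \ (A ∪ {u, v})).card
    omega
  -- elements of Z
  have hZmem : ∀ z, z ∈ Z → z ≠ u ∧ z ≠ v ∧ ∀ q ∈ l, z ≠ q.1 ∧ z ≠ q.2 := by
    intro z hz
    simp only [Z, A, Finset.mem_sdiff, Finset.mem_univ, true_and, Finset.mem_union,
      List.mem_toFinset, List.mem_map, Finset.mem_insert, Finset.mem_singleton, not_or] at hz
    refine ⟨hz.2.1, hz.2.2, fun q hq => ⟨?_, ?_⟩⟩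
    · intro e; exact hz.1.1 ⟨q, hq, e.symm⟩
    · intro e; exact hz.1.2 ⟨q, hq, e.symm⟩
  let opt : (Fin n → Fin n) → Fin n → Prop := fun M z => P u ≠ P z ∧ P v ≠ P (M z)
  let F : (Fin n → Fin n) × Fin n → (Fin n → Fin n) × Bool := fun Mz =>
    if opt Mz.1 Mz.2 then (sw Mz.1 u v Mz.2 (Mz.1 Mz.2), true)
    else (sw Mz.1 u v (Mz.1 Mz.2) Mz.2, false)
  have hmain : ((Sat P ((u, v) :: l)) ×ˢ Z).card ≤ ((Sat P l) ×ˢ (Finset.univ : Finset Bool)).card := by
    have hdata : ∀ M ∈ Sat P ((u, v) :: l), IsInv M ∧ (∀ a, P (M a) ≠ P a) ∧ M u = v ∧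
        ∀ q ∈ l, M q.1 = q.2 := by
      intro M hM
      simp only [Sat, MP, Finset.mem_filter, Finset.mem_univ, true_and, List.mem_cons] at hM
      exact ⟨hM.1.1, hM.1.2, hM.2 (u, v) (Or.inl rfl), fun q hq => hM.2 q (Or.inr hq)⟩
    refine Finset.card_le_card_of_injOn F ?_ ?_
    · rintro ⟨M, z⟩ hMz
      rw [Finset.mem_coe, Finset.mem_product] at hMz
      obtain ⟨hM, hz⟩ := hMz
      obtain ⟨hI, hP, huv, hl⟩ := hdata M hM
      obtain ⟨hzu, hzv, hzl⟩ := hZmem z hz
      have hvu : M v = u := by rw [← huv, hI.1]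
      have hMzu : M z ≠ u := fun e => hzv (by rw [← hI.1 z, e, huv])
      have hMzv : M z ≠ v := fun e => hzu (by rw [← hI.1 z, e, hvu])
      have hMzl : ∀ q ∈ l, M z ≠ q.1 ∧ M z ≠ q.2 := by
        intro q hq
        refine ⟨fun e => (hzl q hq).2 ?_, fun e => (hzl q hq).1 ?_⟩
        · rw [← hI.1 z, e, hl q hq]
        · rw [← hI.1 z, e, ← hl q hq, hI.1]
      have hul : ∀ q ∈ l, u ≠ q.1 ∧ v ≠ q.1 := by
        intro q hq
        refine ⟨?_, ?_⟩
        · rintro rfl; exact hnd (List.mem_map.2 ⟨q, hq, rfl⟩)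
        · intro e
          have h1 : M q.1 = u := by rw [← e, hvu]
          rw [hl q hq] at h1
          have h2 := hlt q (List.mem_cons_of_mem _ hq)
          have h3 := hlt (u, v) List.mem_cons_self
          simp only at h3
          rw [h1, ← e] at h2
          exact lt_asymm h2 h3
      rw [Finset.mem_coe, Finset.mem_product]
      have goal : ∀ x y, M x = y → x ≠ u → x ≠ v → P u ≠ P x → P v ≠ P y →
          (∀ q ∈ l, x ≠ q.1 ∧ y ≠ q.1) → sw M u v x y ∈ Sat P l := by
        intro x y hxy hxu hxv hPx hPy hq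
        obtain ⟨h1, h2, h3, h4⟩ := sw_spec hI huv hxy hxu hxv
        simp only [Sat, MP, Finset.mem_filter, Finset.mem_univ, true_and]
        refine ⟨⟨h1, sw_part P hI hP huv hxy hxu hxv hPx hPy⟩, fun q hql => ?_⟩
        rw [sw_other (hul q hql).1.symm (hq q hql).1.symm (hul q hql).2.symm (hq q hql).2.symm]
        exact hl q hql
      simp only [F]
      by_cases ho : opt M z
      · rw [if_pos ho]
        exact ⟨goal z (M z) rfl hzu hzv ho.1 ho.2 fun q hq => ⟨(hzl q hq).1, (hMzl q hq).1⟩,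
          Finset.mem_univ _⟩
      · rw [if_neg ho]
        have hPuv : P v ≠ P u := by rw [← huv]; exact hP u
        have hPz : P (M z) ≠ P z := hP z
        have hor : P u = P z ∨ P v = P (M z) := by
          by_contra hcon
          push Not at hcon
          exact ho hcon
        refine ⟨goal (M z) z (hI.1 z) hMzu hMzv ?_ ?_ fun q hq => ⟨(hMzl q hq).1, (hzl q hq).1⟩,
          Finset.mem_univ _⟩
        · rcases hor with e | e
          · rw [e]; exact hPz.symm
          · rw [← e]; exact hPuv.symm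
        · rcases hor with e | e
          · rw [← e]; exact hPuv
          · rw [e]; exact hPz
    · rintro ⟨M, z⟩ hMz ⟨M', z'⟩ hMz' hF
      rw [Finset.mem_coe, Finset.mem_product] at hMz hMz'
      obtain ⟨hM, hz⟩ := hMz
      obtain ⟨hM', hz'⟩ := hMz'
      simp only at hM hM' hz hz'
      obtain ⟨hI, hP, huv, hl⟩ := hdata M hM
      obtain ⟨hzu, hzv, hzl⟩ := hZmem z hz
      obtain ⟨hI', hP', huv', hl'⟩ := hdata M' hM'
      obtain ⟨hzu', hzv', hzl'⟩ := hZmem z' hz'
      have hvu : M v = u := by rw [← huv, hI.1]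
      have hMzu : M z ≠ u := fun e => hzv (by rw [← hI.1 z, e, huv])
      have hMzv : M z ≠ v := fun e => hzu (by rw [← hI.1 z, e, hvu])
      have hvu' : M' v = u := by rw [← huv', hI'.1]
      have hMzu' : M' z' ≠ u := fun e => hzv' (by rw [← hI'.1 z', e, huv'])
      have hMzv' : M' z' ≠ v := fun e => hzu' (by rw [← hI'.1 z', e, hvu'])
      obtain ⟨a1, a2, a3, a4⟩ := sw_spec hI huv (rfl : M z = M z) hzu hzv
      obtain ⟨b1, b2, b3, b4⟩ := sw_spec hI huv (hI.1 z) hMzu hMzv
      obtain ⟨c1, c2, c3, c4⟩ := sw_spec hI' huv' (rfl : M' z' = M' z') hzu' hzv'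
      obtain ⟨d1, d2, d3, d4⟩ := sw_spec hI' huv' (hI'.1 z') hMzu' hMzv'
      simp only [F] at hF
      by_cases ho : opt M z <;> by_cases ho' : opt M' z'
      · rw [if_pos ho, if_pos ho', Prod.mk.injEq] at hF
        have e1 : M = M' := by rw [← a4, hF.1, c4]
        have e2 : z = z' := by rw [← a2, hF.1, c2]
        rw [e1, e2]
      · rw [if_pos ho, if_neg ho', Prod.mk.injEq] at hF
        exact absurd hF.2 (by decide)
      · rw [if_neg ho, if_pos ho', Prod.mk.injEq] at hF
        exact absurd hF.2 (by decide)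
      · rw [if_neg ho, if_neg ho', Prod.mk.injEq] at hF
        have e1 : M = M' := by rw [← b4, hF.1, d4]
        have e2 : z = z' := by rw [← b3, hF.1, d3]
        rw [e1, e2]
  rw [Finset.card_product, Finset.card_product, Finset.card_univ, Fintype.card_bool] at hmain
  calc (Sat P ((u, v) :: l)).card * (n - 2 * l.length - 2) ≤ (Sat P ((u, v) :: l)).card * Z.card :=
        Nat.mul_le_mul_left _ hZ
    _ ≤ (Sat P l).card * 2 := hmain
    _ = 2 * (Sat P l).card := Nat.mul_comm _ _

/-- the number of matchings satisfying a list of constraints -/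
theorem sat_bound {n : ℕ} (P : Fin n → ℕ) (l : List (Fin n × Fin n)) (hnd : (l.map Prod.fst).Nodup)
    (hlt : ∀ q ∈ l, q.1 < q.2) (hn : 4 * l.length ≤ n) :
    (Sat P l).card * n ^ l.length ≤ 4 ^ l.length * (MP P).card := by
  induction l with
  | nil => simp [sat_nil]
  | cons p l ih =>
    rw [List.map_cons, List.nodup_cons] at hnd
    have h1 := switch P l p hnd.1 hlt
    have h2 := ih hnd.2
      (fun q hq => hlt q (List.mem_cons_of_mem _ hq)) (by rw [List.length_cons] at hn; omega)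
    rw [List.length_cons] at hn ⊢
    have h3 : n ≤ 2 * (n - 2 * l.length - 2) := by omega
    have h4 : (Sat P (p :: l)).card * n ≤ 4 * (Sat P l).card := by
      calc (Sat P (p :: l)).card * n ≤ (Sat P (p :: l)).card * (2 * (n - 2 * l.length - 2)) :=
            Nat.mul_le_mul_left _ h3
        _ = 2 * ((Sat P (p :: l)).card * (n - 2 * l.length - 2)) := by ring
        _ ≤ 2 * (2 * (Sat P l).card) := Nat.mul_le_mul_left _ h1
        _ = 4 * (Sat P l).card := by ring
    calc (Sat P (p :: l)).card * n ^ (l.length + 1) = ((Sat P (p :: l)).card * n) * n ^ l.length := by ring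
      _ ≤ (4 * (Sat P l).card) * n ^ l.length := Nat.mul_le_mul_right _ h4
      _ = 4 * ((Sat P l).card * n ^ l.length) := by ring
      _ ≤ 4 * (4 ^ l.length * (MP P).card) := Nat.mul_le_mul_left _ h2
      _ = 4 ^ (l.length + 1) * (MP P).card := by ring

end Pool.Agent.H161R3.OR
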