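import Pool.Agent.H161R3.ORMoment

set_option autoImplicit false

namespace Pool.Agent.H161R3.OR

open Finset

/-- the vertex order can be cut into `k` intervals without inner edges -/
def HasPart {n : ℕ} (k : ℕ) (M : Fin n → Fin n) : Prop :=
  ∃ P : Fin n → ℕ, Monotone P ∧ (∀ u, P u < k) ∧ ∀ u, P (M u) ≠ P u

/-- relabelling: `a` goes to `0`, the last vertex goes to `1` -/
def pm {N : ℕ} (a x : Fin (N + 1)) : Fin (N + 1) :=
  ⟨(if x.val = a.val then 0 else if x.val = N then 1 else if x.val < a.val then x.val + 2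
    else x.val + 1) % (N + 1), Nat.mod_lt _ (Nat.succ_pos _)⟩

/-- inverse relabelling -/
def sm {N : ℕ} (a y : Fin (N + 1)) : Fin (N + 1) :=
  ⟨(if y.val = 0 then a.val else if y.val = 1 then N else if y.val ≤ a.val + 1 then y.val - 2
    else y.val - 1) % (N + 1), Nat.mod_lt _ (Nat.succ_pos _)⟩

lemma pm_val {N : ℕ} (a x : Fin (N + 1)) (ha : a.val < N) : (pm a x).val =
    (if x.val = a.val then 0 else if x.val = N then 1 else if x.val < a.val then x.val + 2
    else x.val + 1) := by
  unfold pm
  simp only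
  apply Nat.mod_eq_of_lt
  have := x.2
  split_ifs <;> omega

lemma sm_val {N : ℕ} (a y : Fin (N + 1)) : (sm a y).val =
    (if y.val = 0 then a.val else if y.val = 1 then N else if y.val ≤ a.val + 1 then y.val - 2
    else y.val - 1) := by
  unfold sm
  simp only
  apply Nat.mod_eq_of_lt
  have := y.2
  have := a.2
  split_ifs <;> omega

lemma sm_pm {N : ℕ} (a x : Fin (N + 1)) (ha : a.val < N) : sm a (pm a x) = x := by
  apply Fin.ext
  have h1 := pm_val a x ha
  rw [sm_val]
  have := x.2
  generalize (pm a x).val = z at *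
  split_ifs at h1 <;> subst h1 <;> split_ifs <;> first | omega | contradiction

lemma pm_sm {N : ℕ} (a y : Fin (N + 1)) (ha : a.val < N) : pm a (sm a y) = y := by
  apply Fin.ext
  have h1 := sm_val a y
  rw [pm_val a _ ha]
  have := y.2
  generalize (sm a y).val = z at *
  split_ifs at h1 <;> subst h1 <;> split_ifs <;> omega

/-- move the edge of the last vertex to the front -/
def mv {N : ℕ} (M : Fin (N + 1) → Fin (N + 1)) : Fin (N + 1) → Fin (N + 1) := fun y =>
  pm (M (Fin.last N)) (M (sm (M (Fin.last N)) y))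

lemma last_lt {N : ℕ} {M : Fin (N + 1) → Fin (N + 1)} (hM : IsInv M) : (M (Fin.last N)).val < N := by
  have h1 := hM.2 (Fin.last N)
  have h2 := (M (Fin.last N)).2
  have h3 : (M (Fin.last N)).val ≠ N := fun e => h1 (Fin.ext (by rw [e, Fin.val_last]))
  omega

lemma mv_inv {N : ℕ} {M : Fin (N + 1) → Fin (N + 1)} (hM : IsInv M) : IsInv (mv M) := by
  have ha := last_lt hM
  refine ⟨fun y => ?_, fun y => ?_⟩
  · unfold mv
    rw [sm_pm _ _ ha, hM.1, pm_sm _ _ ha]
  · unfold mv
    intro h
    have := congrArg (sm (M (Fin.last N))) h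
    rw [sm_pm _ _ ha] at this
    exact hM.2 _ this

lemma mv_rec {N : ℕ} {M : Fin (N + 1) → Fin (N + 1)} (hM : IsInv M) :
    M = fun x => sm (M (Fin.last N)) (mv M (pm (M (Fin.last N)) x)) := by
  have ha := last_lt hM
  funext x
  unfold mv
  rw [sm_pm _ _ ha, sm_pm _ _ ha]

lemma mv_part {N : ℕ} {M : Fin (N + 1) → Fin (N + 1)} (hM : IsInv M) (j : ℕ) (h : HasPart j M) :
    HasPart (j + 1) (mv M) := by
  have ha := last_lt hM
  obtain ⟨P, h1, h2, h3⟩ := h
  have hMa : M (M (Fin.last N)) = Fin.last N := hM.1 _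
  refine ⟨fun y => if y.val = 0 then 0 else if y.val = 1 then 1 else
    P (sm (M (Fin.last N)) y) + 1, ?_, ?_, ?_⟩
  · intro y z hyz
    rw [Fin.le_def] at hyz
    simp only
    by_cases hy0 : y.val = 0
    · rw [if_pos hy0]; exact Nat.zero_le _
    by_cases hy1 : y.val = 1
    · rw [if_neg hy0, if_pos hy1]
      have hz0 : z.val ≠ 0 := by omega
      rw [if_neg hz0]
      split_ifs <;> omega
    · have hz0 : z.val ≠ 0 := by omega
      have hz1 : z.val ≠ 1 := by omega
      rw [if_neg hy0, if_neg hy1, if_neg hz0, if_neg hz1]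
      apply Nat.succ_le_succ
      apply h1
      rw [Fin.le_def, sm_val, sm_val]
      split_ifs <;> omega
  · intro y
    have h4 := h2 (sm (M (Fin.last N)) y)
    have h5 := h2 (Fin.last N)
    simp only
    split_ifs <;> omega
  · intro y
    simp only
    by_cases hy0 : y.val = 0
    · have e1 : sm (M (Fin.last N)) y = M (Fin.last N) := by
        apply Fin.ext; rw [sm_val, if_pos hy0]
      have e2 : (mv M y).val = 1 := by
        unfold mv
        rw [e1, hMa, pm_val _ _ ha, Fin.val_last]
        split_ifs <;> omega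
      rw [if_pos hy0, e2]; simp
    by_cases hy1 : y.val = 1
    · have e1 : sm (M (Fin.last N)) y = Fin.last N := by
        apply Fin.ext; rw [sm_val, if_neg hy0, if_pos hy1, Fin.val_last]
      have e2 : (mv M y).val = 0 := by
        unfold mv
        rw [e1, pm_val _ _ ha, if_pos rfl]
      rw [if_neg hy0, if_pos hy1, e2]; simp
    · rw [if_neg hy0, if_neg hy1]
      have hs1 : sm (M (Fin.last N)) y ≠ M (Fin.last N) := by
        intro e
        have := congrArg (pm (M (Fin.last N))) e
        rw [pm_sm _ _ ha] at this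
        apply hy0
        rw [this, pm_val _ _ ha, if_pos rfl]
      have hs2 : sm (M (Fin.last N)) y ≠ Fin.last N := by
        intro e
        have := congrArg (pm (M (Fin.last N))) e
        rw [pm_sm _ _ ha] at this
        apply hy1
        rw [this, pm_val _ _ ha, Fin.val_last]
        split_ifs <;> omega
      have hm1 : M (sm (M (Fin.last N)) y) ≠ M (Fin.last N) := by
        intro e
        apply hs2
        rw [← hM.1 (sm (M (Fin.last N)) y), e, hM.1]
      have hm2 : M (sm (M (Fin.last N)) y) ≠ Fin.last N := by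
        intro e
        apply hs1
        rw [← hM.1 (sm (M (Fin.last N)) y), e]
      have hv1 : (M (sm (M (Fin.last N)) y)).val ≠ (M (Fin.last N)).val := fun e => hm1 (Fin.ext e)
      have hv2 : (M (sm (M (Fin.last N)) y)).val ≠ N := fun e => hm2 (Fin.ext (by rw [e, Fin.val_last]))
      have hge : 2 ≤ (mv M y).val := by
        unfold mv
        rw [pm_val _ _ ha, if_neg hv1, if_neg hv2]
        split_ifs <;> omega
      rw [if_neg (by omega), if_neg (by omega)]
      have e3 : sm (M (Fin.last N)) (mv M y) = M (sm (M (Fin.last N)) y) := by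
        unfold mv
        rw [sm_pm _ _ ha]
      rw [e3]
      intro e
      exact h3 _ (Nat.succ_injective e)

/-- the first `2 i` vertices are matched consecutively -/
def Front {N : ℕ} (i : ℕ) (M : Fin (N + 1) → Fin (N + 1)) : Prop :=
  ∀ j < i, ∀ x : Fin (N + 1), x.val = 2 * j → (M x).val = 2 * j + 1

lemma front_step {N : ℕ} {M : Fin (N + 1) → Fin (N + 1)} (hM : IsInv M) (i : ℕ) (hi : 2 * i ≤ N)
    (h : Front i M) : Front (i + 1) (mv M) := by
  have ha := last_lt hM
  have hMa : M (M (Fin.last N)) = Fin.last N := hM.1 _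
  have hage : 2 * i ≤ (M (Fin.last N)).val := by
    by_contra hlt
    push Not at hlt
    rcases Nat.even_or_odd (M (Fin.last N)).val with he | ho
    · obtain ⟨r, hr⟩ := he
      have h4 := h r (by omega) (M (Fin.last N)) (by omega)
      rw [hMa, Fin.val_last] at h4
      omega
    · obtain ⟨r, hr⟩ := ho
      have h4 := h r (by omega) ⟨2 * r, by omega⟩ rfl
      have h5 : M ⟨2 * r, by omega⟩ = M (Fin.last N) := Fin.ext (by rw [h4]; omega)
      have h6 : (⟨2 * r, by omega⟩ : Fin (N + 1)) = Fin.last N := by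
        rw [← hM.1 ⟨2 * r, by omega⟩, h5, hM.1]
      have h7 := congrArg Fin.val h6
      rw [Fin.val_last] at h7
      simp only at h7
      omega
  intro j hj x hx
  rcases Nat.eq_zero_or_pos j with rfl | hj0
  · have e1 : sm (M (Fin.last N)) x = M (Fin.last N) := by
      apply Fin.ext; rw [sm_val, if_pos (by omega)]
    unfold mv
    rw [e1, hMa, pm_val _ _ ha, Fin.val_last]
    split_ifs <;> omega
  · have e1 : (sm (M (Fin.last N)) x).val = 2 * (j - 1) := by
      rw [sm_val]
      split_ifs <;> omega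
    have e2 := h (j - 1) (by omega) _ e1
    unfold mv
    rw [pm_val _ _ ha, e2]
    split_ifs <;> omega

lemma front_part {N : ℕ} {M : Fin (N + 1) → Fin (N + 1)} (i : ℕ) (hi : 2 * i ≤ N + 1)
    (h : Front i M) : ¬ HasPart i M := by
  rintro ⟨P, h1, h2, h3⟩
  have key : ∀ j, j ≤ i → ∀ x : Fin (N + 1), 2 * j ≤ x.val + 1 → j ≤ P x := by
    intro j
    induction j with
    | zero => intro _ x _; exact Nat.zero_le _
    | succ j ih =>
      intro hj x hx
      have h4 := h j (by omega) ⟨2 * j, by omega⟩ rfl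
      have h5 := ih (by omega) ⟨2 * j, by omega⟩ (by simp only; omega)
      have h6 : P ⟨2 * j, by omega⟩ ≤ P (M ⟨2 * j, by omega⟩) :=
        h1 (by rw [Fin.le_def, h4]; show 2 * j ≤ 2 * j + 1; omega)
      have h7 := h3 ⟨2 * j, by omega⟩
      have h8 : P (M ⟨2 * j, by omega⟩) ≤ P x := h1 (by rw [Fin.le_def, h4]; omega)
      omega
  have h9 := key i le_rfl (Fin.last N) (by rw [Fin.val_last]; exact hi)
  have h10 := h2 (Fin.last N)
  omega

lemma iter_inv {N : ℕ} {M : Fin (N + 1) → Fin (N + 1)} (hM : IsInv M) (i : ℕ) :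
    IsInv (mv^[i] M) := by
  induction i with
  | zero => exact hM
  | succ i ih => rw [Function.iterate_succ_apply']; exact mv_inv ih

lemma iter_front {N : ℕ} {M : Fin (N + 1) → Fin (N + 1)} (hM : IsInv M) (i : ℕ) (hi : 2 * i ≤ N) :
    Front i (mv^[i] M) := by
  induction i with
  | zero => intro j hj; omega
  | succ i ih =>
    rw [Function.iterate_succ_apply']
    exact front_step (iter_inv hM i) i (by omega) (ih (by omega))

open Classical in
/-- matchings with `k` parts -/
noncomputable def NN (N k : ℕ) : Finset (Fin (N + 1) → Fin (N + 1)) :=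
  Finset.univ.filter fun M => IsInv M ∧ HasPart k M

open Classical in
/-- matchings with exactly `k` parts -/
noncomputable def EE (N k : ℕ) : Finset (Fin (N + 1) → Fin (N + 1)) :=
  Finset.univ.filter fun M => IsInv M ∧ HasPart k M ∧ ¬ HasPart (k - 1) M

lemma exists_iter {N k : ℕ} (hk : 1 ≤ k) (hN : 2 * k ≤ N) {M : Fin (N + 1) → Fin (N + 1)}
    (hM : M ∈ NN N k) : ∃ i < k, mv^[i] M ∈ EE N k := by
  classical
  simp only [NN, Finset.mem_filter, Finset.mem_univ, true_and] at hM
  obtain ⟨hI, hP⟩ := hM
  have hex : ∃ i, ¬ HasPart (k - 1) (mv^[i] M) :=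
    ⟨k - 1, front_part (k - 1) (by omega) (iter_front hI (k - 1) (by omega))⟩
  have hle : Nat.find hex ≤ k - 1 :=
    Nat.find_min' hex (front_part (k - 1) (by omega) (iter_front hI (k - 1) (by omega)))
  refine ⟨Nat.find hex, by omega, ?_⟩
  simp only [EE, Finset.mem_filter, Finset.mem_univ, true_and]
  refine ⟨iter_inv hI _, ?_, Nat.find_spec hex⟩
  rcases Nat.eq_zero_or_pos (Nat.find hex) with h0 | hpos
  · rw [h0]; exact hP
  · obtain ⟨i, hi⟩ : ∃ i, Nat.find hex = i + 1 := ⟨Nat.find hex - 1, by omega⟩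
    have h4 := Nat.find_min hex (m := i) (by omega)
    push Not at h4
    rw [hi, Function.iterate_succ_apply']
    have := mv_part (iter_inv hI i) (k - 1) h4
    rwa [Nat.sub_add_cancel hk] at this

lemma image_bound {N : ℕ} (A : Finset (Fin (N + 1) → Fin (N + 1))) (hA : ∀ M ∈ A, IsInv M) (i : ℕ)
    (B : Finset (Fin (N + 1) → Fin (N + 1))) (hB : ∀ M ∈ A, mv^[i] M ∈ B) :
    A.card ≤ B.card * (N + 1) ^ i := by
  classical
  induction i generalizing A B with
  | zero =>
    simp only [pow_zero, mul_one]
    exact Finset.card_le_card fun M hM => hB M hM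
  | succ i ih =>
    have h1 := ih A hA (A.image fun M => mv^[i] M) (fun M hM => Finset.mem_image_of_mem _ hM)
    have h2 : (A.image fun M => mv^[i] M).card ≤ (B ×ˢ (Finset.univ : Finset (Fin (N + 1)))).card := by
      refine Finset.card_le_card_of_injOn (fun M => (mv M, M (Fin.last N))) ?_ ?_
      · intro M hM
        rw [Finset.mem_coe, Finset.mem_image] at hM
        obtain ⟨M0, hM0, rfl⟩ := hM
        have := hB M0 hM0
        rw [Function.iterate_succ_apply'] at this
        rw [Finset.mem_coe, Finset.mem_product]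
        exact ⟨this, Finset.mem_univ _⟩
      · intro M hM M' hM' hE
        rw [Finset.mem_coe, Finset.mem_image] at hM hM'
        obtain ⟨M0, hM0, rfl⟩ := hM
        obtain ⟨M0', hM0', rfl⟩ := hM'
        simp only [Prod.mk.injEq] at hE
        rw [mv_rec (iter_inv (hA M0 hM0) i), mv_rec (iter_inv (hA M0' hM0') i), hE.1, hE.2]
    rw [Finset.card_product, Finset.card_univ, Fintype.card_fin] at h2
    calc A.card ≤ (A.image fun M => mv^[i] M).card * (N + 1) ^ i := h1
      _ ≤ (B.card * (N + 1)) * (N + 1) ^ i := Nat.mul_le_mul_right _ h2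
      _ = B.card * (N + 1) ^ (i + 1) := by ring

theorem transfer {N k : ℕ} (hk : 1 ≤ k) (hN : 2 * k ≤ N) :
    (NN N k).card ≤ k * ((EE N k).card * (N + 1) ^ k) := by
  classical
  let A : ℕ → Finset (Fin (N + 1) → Fin (N + 1)) := fun i => (NN N k).filter fun M => mv^[i] M ∈ EE N k
  have hsub : NN N k ⊆ (Finset.range k).biUnion A := by
    intro M hM
    obtain ⟨i, hi, hE⟩ := exists_iter hk hN hM
    rw [Finset.mem_biUnion]
    exact ⟨i, Finset.mem_range.2 hi, Finset.mem_filter.2 ⟨hM, hE⟩⟩
  have hA : ∀ i ∈ Finset.range k, (A i).card ≤ (EE N k).card * (N + 1) ^ k := by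
    intro i hi
    refine (image_bound (A i) ?_ i (EE N k) fun M hM => (Finset.mem_filter.1 hM).2).trans ?_
    · intro M hM
      have := (Finset.mem_filter.1 hM).1
      simp only [NN, Finset.mem_filter, Finset.mem_univ, true_and] at this
      exact this.1
    · exact Nat.mul_le_mul_left _ (Nat.pow_le_pow_right (Nat.succ_pos _) (Finset.mem_range.1 hi).le)
  calc (NN N k).card ≤ ((Finset.range k).biUnion A).card := Finset.card_le_card hsub
    _ ≤ (Finset.range k).card * ((EE N k).card * (N + 1) ^ k) := Finset.card_biUnion_le_card_mul _ _ _ hA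
    _ = _ := by rw [Finset.card_range]

open Classical in
/-- monotone maps to `Fin k` -/
noncomputable def QQ (n k : ℕ) : Finset (Fin n → Fin k) := Finset.univ.filter fun Q => Monotone Q

lemma qq_card (n k : ℕ) : (QQ n k).card ≤ (n + 1) ^ k := by
  classical
  have h1 : (QQ n k).card ≤ (Finset.univ : Finset (Fin k → Fin (n + 1))).card := by
    refine Finset.card_le_card_of_injOn (fun Q i =>
      ⟨((Finset.univ : Finset (Fin n)).filter fun x => Q x ≤ i).card, by
        have := Finset.card_le_univ ((Finset.univ : Finset (Fin n)).filter fun x => Q x ≤ i)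
        rw [Fintype.card_fin] at this
        omega⟩) (fun _ _ => Finset.mem_univ _) ?_
    intro Q hQ Q' hQ' hE
    have key : ∀ Q : Fin n → Fin k, Monotone Q → ∀ x i, Q x ≤ i ↔
        x.val < ((Finset.univ : Finset (Fin n)).filter fun x => Q x ≤ i).card := by
      intro Q hQ x i
      constructor
      · intro h
        have h2 : Finset.Iic x ⊆ (Finset.univ : Finset (Fin n)).filter fun x => Q x ≤ i := by
          intro y hy
          rw [Finset.mem_Iic] at hy
          rw [Finset.mem_filter]
          exact ⟨Finset.mem_univ _, (hQ hy).trans h⟩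
        have h3 := Finset.card_le_card h2
        rw [Fin.card_Iic] at h3
        omega
      · intro h
        by_contra hcon
        have h2 : (Finset.univ : Finset (Fin n)).filter (fun x => Q x ≤ i) ⊆ Finset.Iio x := by
          intro y hy
          rw [Finset.mem_filter] at hy
          rw [Finset.mem_Iio]
          by_contra hle
          exact hcon ((hQ (not_lt.1 hle)).trans hy.2)
        have h3 := Finset.card_le_card h2
        rw [Fin.card_Iio] at h3
        omega
    have hm : Monotone Q := by
      have := hQ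
      simp only [QQ, Finset.coe_filter, Finset.mem_univ, true_and, Set.mem_ofPred_eq] at this
      exact this
    have hm' : Monotone Q' := by
      have := hQ'
      simp only [QQ, Finset.coe_filter, Finset.mem_univ, true_and, Set.mem_ofPred_eq] at this
      exact this
    funext x
    have h4 : ∀ i, Q x ≤ i ↔ Q' x ≤ i := by
      intro i
      have h5 := congrFun hE i
      simp only [Fin.mk.injEq] at h5
      rw [key Q hm x i, key Q' hm' x i, h5]
    exact le_antisymm ((h4 _).2 le_rfl) ((h4 _).1 le_rfl)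
  rw [Finset.card_univ, Fintype.card_fun, Fintype.card_fin, Fintype.card_fin] at h1
  exact h1

theorem bad_exact {N k : ℕ} (hk : 1 ≤ k) (hN : 2 * k ≤ N) (R t L' : ℕ) (ht : 8 * t ≤ N + 1)
    (A : Finset (Fin (N + 1) → Fin (N + 1))) (hA : ∀ M ∈ A, M ∈ EE N k ∧
      ∃ d : ℤ, (R + 1) * L' < (LamSet M R d).card) :
    A.card * L'.choose t ≤ (N + 2) ^ k * ((2 * (N + 1) * (R + 1)) * ((16 * R) ^ t *
      (k * ((EE N k).card * (N + 1) ^ k)))) := by
  classical
  let AQ : (Fin (N + 1) → Fin k) → Finset (Fin (N + 1) → Fin (N + 1)) := fun Q =>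
    A.filter fun M => M ∈ MP (fun u => (Q u).val)
  have hsub : A ⊆ (QQ (N + 1) k).biUnion AQ := by
    intro M hM
    obtain ⟨h1, -⟩ := hA M hM
    simp only [EE, Finset.mem_filter, Finset.mem_univ, true_and] at h1
    obtain ⟨hI, ⟨P, hP1, hP2, hP3⟩, -⟩ := h1
    rw [Finset.mem_biUnion]
    refine ⟨fun u => ⟨P u, hP2 u⟩, ?_, ?_⟩
    · simp only [QQ, Finset.mem_filter, Finset.mem_univ, true_and]
      intro x y hxy
      exact hP1 hxy
    · simp only [AQ, Finset.mem_filter, MP, Finset.mem_univ, true_and]
      exact ⟨hM, hI, hP3⟩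
  have hterm : ∀ Q ∈ QQ (N + 1) k, (AQ Q).card * L'.choose t ≤ (2 * (N + 1) * (R + 1)) *
      ((16 * R) ^ t * (k * ((EE N k).card * (N + 1) ^ k))) := by
    intro Q hQ
    refine (bad_bound (fun u => (Q u).val) R t L' ht (Nat.succ_pos _) (AQ Q) ?_).trans ?_
    · intro M hM
      simp only [AQ, Finset.mem_filter] at hM
      exact ⟨hM.2, (hA M hM.1).2⟩
    · apply Nat.mul_le_mul_left
      apply Nat.mul_le_mul_left
      refine le_trans (Finset.card_le_card ?_) (transfer hk hN)
      intro M hM
      simp only [MP, Finset.mem_filter, Finset.mem_univ, true_and] at hM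
      simp only [NN, Finset.mem_filter, Finset.mem_univ, true_and]
      simp only [QQ, Finset.mem_filter, Finset.mem_univ, true_and] at hQ
      exact ⟨hM.1, fun u => (Q u).val, fun x y hxy => hQ hxy, fun u => (Q u).2, hM.2⟩
  calc A.card * L'.choose t ≤ (∑ Q ∈ QQ (N + 1) k, (AQ Q).card) * L'.choose t :=
        Nat.mul_le_mul_right _ ((Finset.card_le_card hsub).trans Finset.card_biUnion_le)
    _ = ∑ Q ∈ QQ (N + 1) k, (AQ Q).card * L'.choose t := Finset.sum_mul _ _ _
    _ ≤ ∑ _Q ∈ QQ (N + 1) k, (2 * (N + 1) * (R + 1)) *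
          ((16 * R) ^ t * (k * ((EE N k).card * (N + 1) ^ k))) := Finset.sum_le_sum hterm
    _ = (QQ (N + 1) k).card * ((2 * (N + 1) * (R + 1)) *
          ((16 * R) ^ t * (k * ((EE N k).card * (N + 1) ^ k)))) := by
        rw [Finset.sum_const, smul_eq_mul]
    _ ≤ _ := Nat.mul_le_mul_right _ (qq_card (N + 1) k)

end Pool.Agent.H161R3.OR
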